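import Mathlib

set_option autoImplicit false

namespace Pool.Agent.Lib.helper8

/-- Bounded universal quantifier as a Boolean, fast in the kernel. -/
def allLt (n : Nat) (p : Nat → Bool) : Bool :=
  Nat.rec true (fun i r => r && p i) n

/-- Bounded existential quantifier as a Boolean, fast in the kernel. -/
def anyLt (n : Nat) (p : Nat → Bool) : Bool :=
  Nat.rec false (fun i r => r || p i) n

/-- Bounded sum. -/
def sumLt (n : Nat) (f : Nat → Nat) : Nat :=
  Nat.rec 0 (fun i r => r + f i) n

theorem allLt_iff (n : Nat) (p : Nat → Bool) : allLt n p = true ↔ ∀ i, i < n → p i = true := by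
  induction n with
  | zero => simp [allLt]
  | succ n ih =>
    have : allLt (n + 1) p = (allLt n p && p n) := rfl
    rw [this, Bool.and_eq_true, ih]
    constructor
    · rintro ⟨h1, h2⟩ i hi
      rcases Nat.lt_succ_iff_lt_or_eq.mp hi with h | h
      · exact h1 i h
      · rw [h]; exact h2
    · intro h
      exact ⟨fun i hi => h i (Nat.lt_succ_of_lt hi), h n (Nat.lt_succ_self n)⟩

theorem anyLt_iff (n : Nat) (p : Nat → Bool) : anyLt n p = true ↔ ∃ i, i < n ∧ p i = true := by
  induction n with
  | zero => simp [anyLt]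
  | succ n ih =>
    have : anyLt (n + 1) p = (anyLt n p || p n) := rfl
    rw [this, Bool.or_eq_true, ih]
    constructor
    · rintro (⟨i, h1, h2⟩ | h)
      · exact ⟨i, Nat.lt_succ_of_lt h1, h2⟩
      · exact ⟨n, Nat.lt_succ_self n, h⟩
    · rintro ⟨i, hi, h⟩
      rcases Nat.lt_succ_iff_lt_or_eq.mp hi with h1 | h1
      · exact Or.inl ⟨i, h1, h⟩
      · rw [h1] at h; exact Or.inr h

theorem sumLt_eq (n : Nat) (f : Nat → Nat) : sumLt n f = ∑ i ∈ Finset.range n, f i := by
  induction n with
  | zero => simp [sumLt]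
  | succ n ih =>
    have : sumLt (n + 1) f = sumLt n f + f n := rfl
    rw [this, ih, Finset.sum_range_succ]

end Pool.Agent.Lib.helper8
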