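import Mathlib

set_option autoImplicit false

namespace Pool.Agent.Lib.helper8

open Finset

variable {V : Type} [DecidableEq V] {R : Type} [CommSemiring R]

open Classical in
/-- independence polynomial of the subgraph induced on `U`, evaluated at `x` -/
noncomputable def ip (G : SimpleGraph V) (x : R) (U : Finset V) : R :=
  ∑ s ∈ U.powerset.filter (fun s : Finset V => G.IsIndepSet (s : Set V)), x ^ s.card

theorem indep_iff (G : SimpleGraph V) (s : Finset V) :
    G.IsIndepSet (s : Set V) ↔ ∀ u ∈ s, ∀ v ∈ s, ¬ G.Adj u v := by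
  constructor
  · intro h u hu v hv hadj
    exact h (Finset.mem_coe.2 hu) (Finset.mem_coe.2 hv) hadj.ne hadj
  · intro h u hu v hv _
    exact h u hu v hv

theorem ip_edgeless (G : SimpleGraph V) (x : R) (U : Finset V)
    (h : ∀ u ∈ U, ∀ v ∈ U, ¬ G.Adj u v) : ip G x U = (1 + x) ^ U.card := by
  classical
  unfold ip
  rw [Finset.filter_true_of_mem]
  · have := Finset.prod_one_add (s := U) (f := fun _ => x)
    simp only [Finset.prod_const] at this
    rw [this]
  · intro s hs
    rw [indep_iff]
    intro u hu v hv
    exact h u (Finset.mem_powerset.1 hs hu) v (Finset.mem_powerset.1 hs hv)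

theorem ip_empty (G : SimpleGraph V) (x : R) : ip G x ∅ = 1 := by
  rw [ip_edgeless]
  · simp
  · simp

theorem ip_union (G : SimpleGraph V) (x : R) (A B : Finset V) (hd : Disjoint A B)
    (h : ∀ u ∈ A, ∀ v ∈ B, ¬ G.Adj u v) : ip G x (A ∪ B) = ip G x A * ip G x B := by
  classical
  unfold ip
  rw [Finset.sum_mul_sum, ← Finset.sum_product']
  symm
  refine Finset.sum_bij' (fun p _ => p.1 ∪ p.2) (fun s _ => (s ∩ A, s ∩ B)) ?_ ?_ ?_ ?_ ?_
  · rintro ⟨a, b⟩ hp
    simp only [Finset.mem_product, Finset.mem_filter, Finset.mem_powerset, indep_iff] at hp ⊢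
    obtain ⟨⟨ha, ia⟩, ⟨hb, ib⟩⟩ := hp
    refine ⟨Finset.union_subset_union ha hb, ?_⟩
    intro u hu v hv
    rcases Finset.mem_union.1 hu with hu | hu <;> rcases Finset.mem_union.1 hv with hv | hv
    · exact ia u hu v hv
    · exact h u (ha hu) v (hb hv)
    · exact fun e => h v (ha hv) u (hb hu) e.symm
    · exact ib u hu v hv
  · intro s hs
    simp only [Finset.mem_product, Finset.mem_filter, Finset.mem_powerset, indep_iff] at hs ⊢
    obtain ⟨-, is⟩ := hs
    refine ⟨⟨Finset.inter_subset_right, ?_⟩, ⟨Finset.inter_subset_right, ?_⟩⟩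
    · intro u hu v hv
      exact is u (Finset.mem_inter.1 hu).1 v (Finset.mem_inter.1 hv).1
    · intro u hu v hv
      exact is u (Finset.mem_inter.1 hu).1 v (Finset.mem_inter.1 hv).1
  · rintro ⟨a, b⟩ hp
    simp only [Finset.mem_product, Finset.mem_filter, Finset.mem_powerset] at hp
    obtain ⟨⟨ha, -⟩, ⟨hb, -⟩⟩ := hp
    have hd' := Finset.disjoint_left.1 hd
    ext v
    · simp only [Finset.mem_inter, Finset.mem_union]
      constructor
      · rintro ⟨h1 | h1, h2⟩
        · exact h1
        · exact absurd (hb h1) (hd' h2)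
      · intro h1
        exact ⟨Or.inl h1, ha h1⟩
    · simp only [Finset.mem_inter, Finset.mem_union]
      constructor
      · rintro ⟨h1 | h1, h2⟩
        · exact absurd h2 (hd' (ha h1))
        · exact h1
      · intro h1
        exact ⟨Or.inr h1, hb h1⟩
  · intro s hs
    simp only [Finset.mem_filter, Finset.mem_powerset] at hs
    rw [← Finset.inter_union_distrib_left]
    exact Finset.inter_eq_left.2 hs.1
  · rintro ⟨a, b⟩ hp
    simp only [Finset.mem_product, Finset.mem_filter, Finset.mem_powerset] at hp
    obtain ⟨⟨ha, -⟩, ⟨hb, -⟩⟩ := hp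
    rw [Finset.card_union_of_disjoint (Finset.disjoint_of_subset_left ha
      (Finset.disjoint_of_subset_right hb hd)), pow_add]

theorem ip_blocks_aux {ι : Type} [DecidableEq ι] (G : SimpleGraph V) (x : R) (U : Finset V)
    (blk : V → ι) (h : ∀ u ∈ U, ∀ v ∈ U, G.Adj u v → blk u = blk v) (I : Finset ι) :
    ip G x (U.filter (fun v => blk v ∈ I)) = ∏ i ∈ I, ip G x (U.filter (fun v => blk v = i)) := by
  induction I using Finset.induction_on with
  | empty => simp [ip_empty]
  | insert i I hi ih =>
    rw [Finset.prod_insert hi, ← ih, ← ip_union]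
    · congr 1
      ext v
      simp only [Finset.mem_filter, Finset.mem_insert, Finset.mem_union]
      tauto
    · rw [Finset.disjoint_left]
      intro v h1 h2
      simp only [Finset.mem_filter] at h1 h2
      exact hi (h1.2 ▸ h2.2)
    · intro u hu v hv e
      simp only [Finset.mem_filter] at hu hv
      have := h u hu.1 v hv.1 e
      exact hi (hu.2 ▸ this ▸ hv.2)

/-- product over blocks when all edges inside `U` stay inside a block -/
theorem ip_blocks {ι : Type} [DecidableEq ι] [Fintype ι] (G : SimpleGraph V) (x : R)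
    (U : Finset V) (blk : V → ι) (h : ∀ u ∈ U, ∀ v ∈ U, G.Adj u v → blk u = blk v) :
    ip G x U = ∏ i, ip G x (U.filter (fun v => blk v = i)) := by
  rw [← ip_blocks_aux G x U blk h]
  simp

/-- inclusion-exclusion when `P` is completely joined to `Q` -/
theorem ip_join (G : SimpleGraph V) (x : R) (U P Q : Finset V)
    (h : ∀ u ∈ P, ∀ v ∈ Q, G.Adj u v) :
    ip G x U + ip G x (U \ (P ∪ Q)) = ip G x (U \ P) + ip G x (U \ Q) := by
  classical
  unfold ip
  rw [← Finset.sum_union_inter (s₁ := (U \ P).powerset.filter _)]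
  congr 2
  · ext s
    simp only [Finset.mem_filter, Finset.mem_powerset, Finset.mem_union, Finset.subset_sdiff,
      indep_iff]
    constructor
    · rintro ⟨h1, h2⟩
      by_cases hp : Disjoint s P
      · exact Or.inl ⟨⟨h1, hp⟩, h2⟩
      · refine Or.inr ⟨⟨h1, ?_⟩, h2⟩
        rw [Finset.not_disjoint_iff] at hp
        obtain ⟨u, hu, hu'⟩ := hp
        rw [Finset.disjoint_left]
        intro v hv hv'
        exact h2 u hu v hv (h u hu' v hv')
    · rintro (⟨⟨h1, -⟩, h2⟩ | ⟨⟨h1, -⟩, h2⟩) <;> exact ⟨h1, h2⟩
  · ext s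
    simp only [Finset.mem_filter, Finset.mem_powerset, Finset.mem_inter, Finset.subset_sdiff,
      Finset.disjoint_union_right]
    tauto

/-- deletion recursion at a vertex -/
theorem ip_delete (G : SimpleGraph V) [DecidableRel G.Adj] (x : R) (U : Finset V) (v : V)
    (hv : v ∈ U) :
    ip G x U = ip G x (U.erase v) + x * ip G x ((U.erase v).filter (fun w => ¬ G.Adj v w)) := by
  classical
  unfold ip
  rw [← Finset.sum_filter_add_sum_filter_not _ (fun s : Finset V => v ∉ s), Finset.mul_sum]
  congr 1
  · congr 1
    ext s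
    simp only [Finset.mem_filter, Finset.mem_powerset, Finset.subset_erase]
    tauto
  · symm
    refine Finset.sum_bij' (fun s _ => insert v s) (fun s _ => s.erase v) ?_ ?_ ?_ ?_ ?_
    · intro s hs
      simp only [Finset.mem_filter, Finset.mem_powerset, indep_iff] at hs ⊢
      obtain ⟨h1, h2⟩ := hs
      have h3 : ∀ w ∈ s, (w ≠ v ∧ w ∈ U) ∧ ¬ G.Adj v w := by
        intro w hw
        simpa using h1 hw
      refine ⟨⟨?_, ?_⟩, by simp⟩
      · intro w hw
        rcases Finset.mem_insert.1 hw with rfl | hw
        · exact hv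
        · exact (h3 w hw).1.2
      · intro a ha b hb
        rcases Finset.mem_insert.1 ha with ha | ha <;> rcases Finset.mem_insert.1 hb with hb | hb
        · rw [ha, hb]; exact G.irrefl
        · rw [ha]; exact (h3 b hb).2
        · rw [hb]; exact fun e => (h3 a ha).2 e.symm
        · exact h2 a ha b hb
    · intro s hs
      simp only [Finset.mem_filter, Finset.mem_powerset, indep_iff, not_not] at hs ⊢
      obtain ⟨⟨h1, h2⟩, h3⟩ := hs
      refine ⟨?_, ?_⟩
      · intro w hw
        have hw' := Finset.mem_erase.1 hw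
        simp only [Finset.mem_filter, Finset.mem_erase]
        exact ⟨⟨hw'.1, h1 hw'.2⟩, h2 v h3 w hw'.2⟩
      · intro a ha b hb
        exact h2 a (Finset.mem_erase.1 ha).2 b (Finset.mem_erase.1 hb).2
    · intro s hs
      simp only [Finset.mem_filter, Finset.mem_powerset] at hs
      apply Finset.erase_insert
      intro h
      simpa using hs.1 h
    · intro s hs
      simp only [Finset.mem_filter, not_not] at hs
      exact Finset.insert_erase hs.2
    · intro s hs
      simp only [Finset.mem_filter, Finset.mem_powerset] at hs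
      have : v ∉ s := by
        intro h
        simpa using hs.1 h
      rw [Finset.card_insert_of_notMem this, pow_succ, mul_comm]

/-- Kronecker substitution: digits of a sum of powers -/
theorem digit_sum_pow {α : Type} (F : Finset α) (d : α → ℕ) (B k : ℕ) (hB : F.card < B) :
    (∑ s ∈ F, B ^ d s) / B ^ k % B = (F.filter (fun s => d s = k)).card := by
  classical
  have hB0 : 0 < B := by omega
  have h1 : ∑ s ∈ F, B ^ d s = ∑ s ∈ F.filter (fun s => d s < k), B ^ d s +
      B ^ k * ((F.filter (fun s => d s = k)).card +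
        B * ∑ s ∈ F.filter (fun s => k < d s), B ^ (d s - k - 1)) := by
    rw [Finset.card_eq_sum_ones, Finset.mul_sum, mul_add, Finset.mul_sum, Finset.mul_sum,
      Finset.sum_filter, Finset.sum_filter, Finset.sum_filter, ← Finset.sum_add_distrib,
      ← Finset.sum_add_distrib]
    apply Finset.sum_congr rfl
    intro s _
    rcases lt_trichotomy (d s) k with h | h | h
    · simp [h, h.ne, not_lt.2 h.le]
    · simp [h]
    · have : B ^ d s = B ^ k * (B * B ^ (d s - k - 1)) := by
        rw [← pow_succ', ← pow_add]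
        congr 1
        omega
      simp [h, h.ne', not_lt.2 h.le, this]
  have h2 : ∑ s ∈ F.filter (fun s => d s < k), B ^ d s < B ^ k := by
    rcases Nat.eq_zero_or_pos k with rfl | hk
    · simp
    · calc ∑ s ∈ F.filter (fun s => d s < k), B ^ d s
          ≤ (F.filter (fun s => d s < k)).card • B ^ (k - 1) := by
            apply Finset.sum_le_card_nsmul
            intro s hs
            apply Nat.pow_le_pow_right hB0
            have := (Finset.mem_filter.1 hs).2
            omega
        _ ≤ F.card * B ^ (k - 1) := by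
            rw [smul_eq_mul]
            exact Nat.mul_le_mul_right _ (Finset.card_filter_le _ _)
        _ < B * B ^ (k - 1) := Nat.mul_lt_mul_of_pos_right hB (by positivity)
        _ = B ^ k := by
            rw [← pow_succ']
            congr 1
            omega
  have h3 : (F.filter (fun s => d s = k)).card < B :=
    lt_of_le_of_lt (Finset.card_filter_le _ _) hB
  rw [h1, Nat.add_mul_div_left _ _ (by positivity), Nat.div_eq_of_lt h2, zero_add,
    Nat.add_mul_mod_self_left, Nat.mod_eq_of_lt h3]

/-- number of independent sets of size `k` as a digit of the value of the polynomial -/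
theorem ncard_indep_eq_digit [Fintype V] (G : SimpleGraph V) (B k : ℕ)
    (hB : 2 ^ Fintype.card V < B) :
    {s : Finset V | G.IsIndepSet (s : Set V) ∧ s.card = k}.ncard =
      ip G B Finset.univ / B ^ k % B := by
  classical
  unfold ip
  rw [digit_sum_pow _ (fun s : Finset V => s.card)]
  · rw [← Set.ncard_coe_finset]
    congr 1
    ext s
    simp
  · refine lt_of_le_of_lt (Finset.card_filter_le _ _) ?_
    rw [Finset.card_powerset]
    exact hB

/-- transfer of the counts along a bijection of vertex types -/
theorem ncard_indep_comap {W : Type} [DecidableEq W] (G : SimpleGraph V) (e : W ≃ V) (k : ℕ) :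
    {s : Finset W | (G.comap e).IsIndepSet (s : Set W) ∧ s.card = k}.ncard =
      {s : Finset V | G.IsIndepSet (s : Set V) ∧ s.card = k}.ncard := by
  refine Set.ncard_congr (fun s _ => s.map e.toEmbedding) ?_ ?_ ?_
  · rintro s ⟨h1, h2⟩
    refine ⟨?_, by simpa using h2⟩
    rw [indep_iff] at h1 ⊢
    intro u hu v hv
    obtain ⟨a, ha, rfl⟩ := Finset.mem_map.1 hu
    obtain ⟨b, hb, rfl⟩ := Finset.mem_map.1 hv
    exact h1 a ha b hb
  · intro a b _ _ h
    exact Finset.map_injective _ h
  · rintro s ⟨h1, h2⟩
    refine ⟨s.map e.symm.toEmbedding, ⟨?_, by simpa using h2⟩, ?_⟩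
    · rw [indep_iff] at h1 ⊢
      intro u hu v hv
      obtain ⟨a, ha, rfl⟩ := Finset.mem_map.1 hu
      obtain ⟨b, hb, rfl⟩ := Finset.mem_map.1 hv
      simpa using h1 a ha b hb
    · ext v
      simp

end Pool.Agent.Lib.helper8
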