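import Mathlib

set_option autoImplicit false
open Filter

namespace Pool.Agent.Lib.helper8.AffU

/-- affine maps `y ↦ 2 ^ a * y + b`. -/
@[ext] structure Af where
  a : ℕ
  b : ℕ

instance : Mul Af := ⟨fun x y => ⟨x.a + y.a, x.b + 2 ^ x.a * y.b⟩⟩

@[simp] lemma mul_a (x y : Af) : (x * y).a = x.a + y.a := rfl
@[simp] lemma mul_b (x y : Af) : (x * y).b = x.b + 2 ^ x.a * y.b := rfl

instance : Semigroup Af where
  mul_assoc x y z := by
    ext
    · simp [add_assoc]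
    · simp only [mul_b, mul_a, pow_add]; ring

attribute [local instance] Ultrafilter.mul Ultrafilter.semigroup

def Eqm (P : Ultrafilter Af) : Prop :=
  ∀ (l : ℕ) (B : Set ℕ), ∀ᶠ x in (P : Filter Af), (x.a + l * x.b ∈ B ↔ x.a ∈ B)

def Big (P : Ultrafilter Af) : Prop := ∀ n : ℕ, ∀ᶠ x in (P : Filter Af), n ≤ x.b

def Mar (e : Ultrafilter ℕ) (P : Ultrafilter Af) : Prop :=
  ∀ B ∈ e, ∀ᶠ x in (P : Filter Af), x.a ∈ B

lemma ev_iff {α : Type*} (Q : Ultrafilter α) (p q : α → Prop)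
    (h : (∀ᶠ y in (Q : Filter α), p y) ↔ (∀ᶠ y in (Q : Filter α), q y)) :
    ∀ᶠ y in (Q : Filter α), (p y ↔ q y) := by
  by_cases hp : ∀ᶠ y in (Q : Filter α), p y
  · filter_upwards [hp, h.1 hp] with y h1 h2
    exact iff_of_true h1 h2
  · have hq : ¬ ∀ᶠ y in (Q : Filter α), q y := fun h' => hp (h.2 h')
    filter_upwards [Ultrafilter.eventually_not.2 hp, Ultrafilter.eventually_not.2 hq] with y h1 h2
    exact iff_of_false h1 h2

lemma Eqm.mul {P Q : Ultrafilter Af} (hP : Eqm P) (hQ : Eqm Q) : Eqm (P * Q) := by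
  intro l B
  rw [Ultrafilter.eventually_mul]
  filter_upwards [hP l {n | ∀ᶠ y in (Q : Filter Af), n + y.a ∈ B}] with x hx
  have h1 := ev_iff Q _ _ hx
  filter_upwards [h1, hQ (l * 2 ^ x.a) {n | x.a + l * x.b + n ∈ B}] with y h2 h3
  have h3' : x.a + l * x.b + (y.a + l * 2 ^ x.a * y.b) ∈ B ↔ x.a + l * x.b + y.a ∈ B := h3
  simp only [mul_a, mul_b]
  rw [← h2, ← h3']
  have : x.a + y.a + l * (x.b + 2 ^ x.a * y.b) = x.a + l * x.b + (y.a + l * 2 ^ x.a * y.b) := by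
    ring
  rw [this]

lemma Big.mul_right {P : Ultrafilter Af} (hP : Big P) (Q : Ultrafilter Af) : Big (P * Q) := by
  intro n
  rw [Ultrafilter.eventually_mul]
  filter_upwards [hP n] with x hx
  exact Eventually.of_forall fun y => by simp only [mul_b]; omega

lemma Big.mul_left {Q : Ultrafilter Af} (hQ : Big Q) (P : Ultrafilter Af) : Big (P * Q) := by
  intro n
  rw [Ultrafilter.eventually_mul]
  refine Eventually.of_forall fun x => ?_
  filter_upwards [hQ n] with y hy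
  simp only [mul_b]
  have : 0 < 2 ^ x.a := by positivity
  nlinarith

lemma Mar.mul {e : Ultrafilter ℕ}
    (he : ∀ B ∈ e, {n | {m | n + m ∈ B} ∈ e} ∈ e) {P Q : Ultrafilter Af}
    (hP : Mar e P) (hQ : Mar e Q) : Mar e (P * Q) := by
  intro B hB
  rw [Ultrafilter.eventually_mul]
  filter_upwards [hP _ (he B hB)] with x hx
  filter_upwards [hQ _ hx] with y hy
  exact hy

lemma closed_Eqm : IsClosed {P : Ultrafilter Af | Eqm P} := by
  have : {P : Ultrafilter Af | Eqm P} = ⋂ l : ℕ, ⋂ B : Set ℕ,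
      {P : Ultrafilter Af | {x : Af | x.a + l * x.b ∈ B ↔ x.a ∈ B} ∈ P} := by
    ext P
    simp only [Set.mem_ofPred_eq, Set.mem_iInter]
    rfl
  rw [this]
  exact isClosed_iInter fun l => isClosed_iInter fun B => ultrafilter_isClosed_basic _

lemma closed_Big : IsClosed {P : Ultrafilter Af | Big P} := by
  have : {P : Ultrafilter Af | Big P} = ⋂ n : ℕ,
      {P : Ultrafilter Af | {x : Af | n ≤ x.b} ∈ P} := by
    ext P
    simp only [Set.mem_ofPred_eq, Set.mem_iInter]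
    rfl
  rw [this]
  exact isClosed_iInter fun l => ultrafilter_isClosed_basic _

lemma closed_Mar (e : Ultrafilter ℕ) : IsClosed {P : Ultrafilter Af | Mar e P} := by
  have : {P : Ultrafilter Af | Mar e P} = ⋂ B : Set ℕ, ⋂ _ : B ∈ e,
      {P : Ultrafilter Af | {x : Af | x.a ∈ B} ∈ P} := by
    ext P
    simp only [Set.mem_ofPred_eq, Set.mem_iInter]
    rfl
  rw [this]
  exact isClosed_iInter fun l => isClosed_iInter fun B => ultrafilter_isClosed_basic _

lemma exists_Eqm_Big : ∃ P : Ultrafilter Af, Eqm P ∧ Big P := by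
  classical
  let F : ℕ × Set ℕ → Set Af := fun t =>
    {x | t.1 ≤ x.b ∧ (x.a + t.1 * x.b ∈ t.2 ↔ x.a ∈ t.2)}
  obtain ⟨P, hP⟩ := Ultrafilter.exists_ultrafilter_of_finite_inter_nonempty (Set.range F) (by
    intro T hT
    choose f hf using fun s : T => hT s.2
    let N : ℕ := Finset.univ.sup fun s : T => (f s).1
    obtain ⟨d, hd, a, c, hc⟩ := Combinatorics.exists_mono_homothetic_copy
      (Finset.range (N * N + 1)) (fun n : ℕ => fun s : T => decide (n ∈ (f s).2))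
    refine ⟨⟨a, N * d⟩, ?_⟩
    intro s hs
    have hs' : s ∈ T := hs
    rw [← show F (f ⟨s, hs'⟩) = s from hf ⟨s, hs'⟩]
    have hle : (f ⟨s, hs'⟩).1 ≤ N :=
      Finset.le_sup (f := fun s : T => (f s).1) (Finset.mem_univ _)
    refine ⟨by simp only; nlinarith, ?_⟩
    have h1 := congrFun (hc ((f ⟨s, hs'⟩).1 * N) (by
      rw [Finset.mem_range]; nlinarith)) ⟨s, hs'⟩
    have h2 := congrFun (hc 0 (by simp)) ⟨s, hs'⟩
    rw [← h2] at h1
    simp only [smul_eq_mul, mul_zero, zero_add, decide_eq_decide] at h1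
    simp only
    rw [← h1]
    have : a + (f ⟨s, hs'⟩).1 * (N * d) = d * ((f ⟨s, hs'⟩).1 * N) + a := by ring
    rw [this])
  refine ⟨P, fun l B => ?_, fun n => ?_⟩
  · have : F (l, B) ∈ P := hP ⟨_, rfl⟩
    filter_upwards [this] with x hx using hx.2
  · have : F (n, ∅) ∈ P := hP ⟨_, rfl⟩
    filter_upwards [this] with x hx using hx.1

theorem exists_Pi : ∃ (P : Ultrafilter Af) (e : Ultrafilter ℕ),
    (∀ p : Af → Prop, (∀ᶠ z in (P : Filter Af), p z) →
      ∀ᶠ x in (P : Filter Af), ∀ᶠ y in (P : Filter Af), p (x * y)) ∧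
    (∀ p : ℕ → Prop, (∀ᶠ z in (P : Filter Af), p z.b) →
      {j | ∀ᶠ z in (P : Filter Af), p (2 ^ j * z.b)} ∈ e) ∧
    (∀ l : ℕ, ∀ B ∈ e, ∀ᶠ x in (P : Filter Af), x.a + l * x.b ∈ B) ∧ Big P := by
  obtain ⟨P0, ⟨h0E, h0B⟩, h0⟩ := exists_idempotent_in_compact_subsemigroup
    (M := Ultrafilter Af) Ultrafilter.continuous_mul_left {P | Eqm P ∧ Big P} exists_Eqm_Big
    (closed_Eqm.inter closed_Big).isCompact
    (fun x hx y hy => ⟨hx.1.mul hy.1, hx.2.mul_right y⟩)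
  let e : Ultrafilter ℕ := P0.map Af.a
  have he : ∀ B ∈ e, {n | {m | n + m ∈ B} ∈ e} ∈ e := by
    intro B hB
    have h1 : ∀ᶠ z in ((P0 * P0 : Ultrafilter Af) : Filter Af), z.a ∈ B := by rw [h0]; exact hB
    rw [Ultrafilter.eventually_mul] at h1
    exact h1
  let E : Ultrafilter Af := P0.map fun x => ⟨x.a, 0⟩
  have hEE : E * E = E := by
    apply Ultrafilter.coe_inj.mp
    apply Filter.ext'
    intro p
    rw [Ultrafilter.eventually_mul]
    have h1 : (∀ᶠ z in ((P0 * P0 : Ultrafilter Af) : Filter Af), p ⟨z.a, 0⟩) ↔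
        ∀ᶠ z in (P0 : Filter Af), p ⟨z.a, 0⟩ := by rw [h0]
    rw [Ultrafilter.eventually_mul] at h1
    exact h1
  have hEq : Eqm E := by
    intro l B
    show ∀ᶠ x in (P0 : Filter Af), (x.a + l * 0 ∈ B ↔ x.a ∈ B)
    simp
  have hEM : Mar e E := fun B hB => hB
  have h0M : Mar e P0 := fun B hB => hB
  obtain ⟨P1, ⟨h1E, h1B, h1M, h1e⟩, h1⟩ := exists_idempotent_in_compact_subsemigroup
    (M := Ultrafilter Af) Ultrafilter.continuous_mul_left
    {P | Eqm P ∧ Big P ∧ Mar e P ∧ P * E = P}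
    ⟨P0 * E, h0E.mul hEq, h0B.mul_right E, h0M.mul he hEM, by rw [mul_assoc, hEE]⟩
    (closed_Eqm.inter (closed_Big.inter ((closed_Mar e).inter
      (isClosed_eq (Ultrafilter.continuous_mul_left E) continuous_id)))).isCompact
    (fun x hx y hy => ⟨hx.1.mul hy.1, hx.2.1.mul_right y, hx.2.2.1.mul he hy.2.2.1,
      by rw [mul_assoc, hy.2.2.2]⟩)
  have hPP : (E * P1) * (E * P1) = E * P1 := by
    rw [mul_assoc, ← mul_assoc P1, h1e, h1]
  have hEP : E * (E * P1) = E * P1 := by rw [← mul_assoc, hEE]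
  refine ⟨E * P1, e, fun p hp => ?_, fun p hp => ?_, fun l B hB => ?_, h1B.mul_left E⟩
  · rw [← hPP, Ultrafilter.eventually_mul] at hp
    exact hp
  · rw [← hEP, Ultrafilter.eventually_mul] at hp
    have hp' : ∀ᶠ x in (P0 : Filter Af), ∀ᶠ z in ((E * P1 : Ultrafilter Af) : Filter Af),
        p (0 + 2 ^ x.a * z.b) := hp
    simp only [zero_add] at hp'
    exact hp'
  · filter_upwards [(hEq.mul h1E) l B, (hEM.mul he h1M) B hB] with x hx1 hx2
    exact hx1.2 hx2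

/-- a largeness notion stable under `B ↦ B ∩ (B - x) ∩ 2 ^ (-l x) B`. -/
theorem exists_large : ∃ L : Set ℕ → Prop,
    (∀ (k : ℕ) (c : ℕ → Fin k), ∃ i, L {n | c n = i}) ∧
    ∀ B, L B → ∀ n N : ℕ, ∃ x ∈ B, n < x ∧
      L {y | y ∈ B ∧ x + y ∈ B ∧ ∀ l ≤ N, 2 ^ (l * x) * y ∈ B} := by
  obtain ⟨P, e, h1, h2, h3, h4⟩ := exists_Pi
  refine ⟨fun B => ∃ s, ∀ᶠ z in (P : Filter Af), 2 ^ s * z.b ∈ B, fun k c => ?_, ?_⟩
  · obtain ⟨i, hi⟩ := (P.map fun z => c z.b).eq_pure_of_finite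
    refine ⟨i, 0, ?_⟩
    have : {i} ∈ P.map fun z => c z.b := by rw [hi]; simp
    filter_upwards [this] with z hz
    simpa using hz
  · rintro B ⟨s, hs⟩ n N
    have hj := h2 (fun b => 2 ^ s * b ∈ B) hs
    have hall : ∀ᶠ x in (P : Filter Af), ∀ l ∈ Finset.range (N + 1),
        ∀ᶠ z in (P : Filter Af), 2 ^ s * (2 ^ (x.a + l * 2 ^ s * x.b) * z.b) ∈ B :=
      (eventually_all_finset _).2 fun l _ => h3 (l * 2 ^ s) _ hj
    obtain ⟨x, hx1, hx2, hx3, hx4⟩ :=
      (hs.and ((h4 (n + 1)).and ((h1 _ hs).and hall))).exists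
    refine ⟨2 ^ s * x.b, hx1, ?_, s + x.a, ?_⟩
    · have : 0 < 2 ^ s := by positivity
      nlinarith
    · filter_upwards [hx3, (eventually_all_finset _).2 hx4] with z hz1 hz2
      refine ⟨?_, ?_, fun l hl => ?_⟩
      · have := hz2 0 (by simp)
        simpa [pow_add, mul_assoc] using this
      · simp only [mul_b] at hz1
        have e1 : 2 ^ s * x.b + 2 ^ (s + x.a) * z.b = 2 ^ s * (x.b + 2 ^ x.a * z.b) := by
          rw [pow_add]; ring
        rw [e1]; exact hz1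
      · have := hz2 l (Finset.mem_range.2 (by omega))
        have e1 : 2 ^ (l * (2 ^ s * x.b)) * (2 ^ (s + x.a) * z.b)
            = 2 ^ s * (2 ^ (x.a + l * 2 ^ s * x.b) * z.b) := by
          rw [pow_add, pow_add, mul_assoc l]; ring
        rw [e1]; exact this

end Pool.Agent.Lib.helper8.AffU
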