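import Pool.Agent.Lib.helper8.Heis5

set_option autoImplicit false

namespace Pool.Agent.Lib.helper8.Amen

open Filter Topology Pool.Agent.Lib.helper8.Heis

def B01 {P : Type} (f : P → ℝ) : Prop := ∀ x, 0 ≤ f x ∧ f x ≤ 1

variable {P : Type} [Group P]

structure IsMean (S : Subgroup P) (M : (P → ℝ) → ℝ) : Prop where
  mem : ∀ f, B01 f → 0 ≤ M f ∧ M f ≤ 1
  one : M (fun _ => 1) = 1
  add : ∀ f g, B01 f → B01 g → B01 (fun x => f x + g x) → M (fun x => f x + g x) = M f + M g
  supp : ∀ f g, (∀ x ∈ S, f x = g x) → M f = M g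
  inv : ∀ s ∈ S, ∀ f, B01 f → M (fun x => f (s * x)) = M f

/-- the subgroup S is amenable -/
def Am (S : Subgroup P) : Prop := ∃ M, IsMean S M

theorem inv_closure (M : (P → ℝ) → ℝ) (K : Set P)
    (h : ∀ s ∈ K, ∀ f, B01 f → M (fun x => f (s * x)) = M f) :
    ∀ s ∈ Subgroup.closure K, ∀ f, B01 f → M (fun x => f (s * x)) = M f := by
  intro s hs
  induction hs using Subgroup.closure_induction with
  | mem s hs => exact h s hs
  | one => simp
  | mul a b _ _ ha hb =>
    intro f hf
    rw [← ha f hf, ← hb (fun x => f (a * x)) fun x => hf _]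
    simp only [mul_assoc]
  | inv a _ ha =>
    intro f hf
    rw [← ha (fun x => f (a⁻¹ * x)) fun x => hf _]
    simp

theorem Am.sup {N H : Subgroup P} (hN : Am N) (hH : Am H)
    (h : ∀ x ∈ H, ∀ n ∈ N, x⁻¹ * n * x ∈ N) : Am (N ⊔ H) := by
  obtain ⟨MN, hN⟩ := hN
  obtain ⟨MH, hH⟩ := hH
  have b : ∀ f, B01 f → B01 fun x => MN fun n => f (x * n) :=
    fun f hf x => hN.mem _ fun n => hf _
  refine ⟨fun f => MH fun x => MN fun n => f (x * n), fun f hf => hH.mem _ (b f hf), ?_, ?_,
    ?_, ?_⟩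
  · simp only [hN.one, hH.one]
  · intro f g hf hg hfg
    have e : ∀ x, (MN fun n => f (x * n) + g (x * n))
        = (MN fun n => f (x * n)) + MN fun n => g (x * n) :=
      fun x => hN.add _ _ (fun n => hf _) (fun n => hg _) (fun n => hfg _)
    rw [← hH.add _ _ (b f hf) (b g hg) (fun x => by beta_reduce; rw [← e]; exact b _ hfg x)]
    simp only [e]
  · intro f g e
    refine hH.supp _ _ fun x hx => hN.supp _ _ fun n hn => e _ ?_
    exact Subgroup.mul_mem _ (Subgroup.mem_sup_right hx) (Subgroup.mem_sup_left hn)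
  · rw [Subgroup.sup_eq_closure]
    refine inv_closure (fun f => MH fun x => MN fun n => f (x * n)) _ ?_
    rintro s (hs | hs) f hf <;> beta_reduce
    · refine hH.supp _ _ fun x hx => ?_
      rw [← hN.inv _ (h x hx s hs) (fun n => f (x * n)) fun n => hf _]
      simp only [mul_assoc, mul_inv_cancel_left]
    · rw [← hH.inv s hs _ (b f hf)]
      simp only [mul_assoc]

theorem Am.map {P' : Type} [Group P'] {S : Subgroup P} (h : Am S) (φ : P →* P') :
    Am (S.map φ) := by
  obtain ⟨M, h⟩ := h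
  refine ⟨fun f => M fun x => f (φ x), fun f hf => h.mem _ fun x => hf _, h.one,
    fun f g hf hg hfg => h.add _ _ (fun x => hf _) (fun x => hg _) (fun x => hfg _),
    fun f g e => h.supp _ _ fun x hx => e _ ⟨x, hx, rfl⟩, ?_⟩
  rintro _ ⟨s, hs, rfl⟩ f hf
  rw [← h.inv s hs (fun x => f (φ x)) fun x => hf _]
  simp only [map_mul]

theorem Am.of_local {S : Subgroup P}
    (h : ∀ F : Finset S, ∃ H ≤ S, Am H ∧ ∀ x ∈ F, x.1 ∈ H) : Am S := by
  classical
  choose H h1 h2 h3 using h
  choose M hM using h2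
  let U : Ultrafilter (Finset S) := Ultrafilter.of atTop
  have hU : (U : Filter (Finset S)) ≤ atTop := Ultrafilter.of_le _
  have tend : ∀ f, B01 f → Tendsto (fun F => M F f) U (𝓝 (limUnder U fun F => M F f)) := by
    intro f hf
    obtain ⟨a, -, ha⟩ := isCompact_Icc.ultrafilter_le_nhds (U.map fun F => M F f)
      (by rw [Ultrafilter.coe_map, le_principal_iff, mem_map]
          exact univ_mem' fun F => (hM F).mem f hf)
    exact tendsto_nhds_limUnder ⟨a, ha⟩
  refine ⟨fun f => limUnder U fun F => M F f, fun f hf => ?_, ?_, fun f g hf hg hfg => ?_,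
    fun f g e => ?_, fun s hs f hf => ?_⟩
  · exact isClosed_Icc.mem_of_tendsto (tend f hf)
      (Eventually.of_forall fun F => (hM F).mem f hf)
  · simp only [fun F => (hM F).one]
    exact tendsto_const_nhds.limUnder_eq
  · apply Tendsto.limUnder_eq
    exact ((tend f hf).add (tend g hg)).congr fun F => ((hM F).add f g hf hg hfg).symm
  · simp only [fun F => (hM F).supp f g fun x hx => e x (h1 F hx)]
  · apply Tendsto.limUnder_eq
    refine (tend f hf).congr' (hU ?_)
    filter_upwards [eventually_ge_atTop {(⟨s, hs⟩ : S)}] with F hF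
    exact ((hM F).inv s (h3 F ⟨s, hs⟩ (hF (Finset.mem_singleton_self _))) f hf).symm

theorem am_zpowers (a : P) : Am (Subgroup.zpowers a) := by
  refine ⟨fun f => Mn fun k => f (a ^ k), fun f hf => Mn_mem fun k => hf _, Mn_one,
    fun f g hf hg _ => Mn_add (fun k => hf _) (fun k => hg _), fun f g e => ?_, ?_⟩
  · simp only [fun k : ℤ => e (a ^ k) ⟨k, rfl⟩]
  · rintro _ ⟨d, rfl⟩ f hf
    rw [← Mn_shift (f := fun k => f (a ^ k)) (fun k => hf _) d]
    simp only [← zpow_add, add_comm]

theorem am_bot : Am (⊥ : Subgroup P) := by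
  simpa using am_zpowers (1 : P)

theorem am_comm {S : Subgroup P} (h : ∀ a ∈ S, ∀ b ∈ S, a * b = b * a) : Am S := by
  classical
  apply Am.of_local
  intro F
  induction F using Finset.induction_on with
  | empty => exact ⟨⊥, bot_le, am_bot, by simp⟩
  | insert a F _ ih =>
    obtain ⟨H, h1, h2, h3⟩ := ih
    have h4 : Subgroup.zpowers a.1 ≤ S := (Subgroup.zpowers_le_of_mem a.2)
    refine ⟨Subgroup.zpowers a.1 ⊔ H, sup_le h4 h1, (am_zpowers _).sup h2 ?_, ?_⟩
    · intro x hx n hn
      rw [mul_assoc, h n (h4 hn) x (h1 hx), inv_mul_cancel_left]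
      exact hn
    · intro x hx
      rcases Finset.mem_insert.1 hx with rfl | hx
      · exact Subgroup.mem_sup_left (Subgroup.mem_zpowers _)
      · exact Subgroup.mem_sup_right (h3 x hx)

theorem am_iSup_directed {I : Type} [Nonempty I] (S : I → Subgroup P) (hd : Directed (· ≤ ·) S)
    (h : ∀ i, Am (S i)) : Am (⨆ i, S i) := by
  classical
  apply Am.of_local
  intro F
  have : ∃ i, ∀ x ∈ F, x.1 ∈ S i := by
    induction F using Finset.induction_on with
    | empty => exact ⟨Classical.arbitrary I, by simp⟩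
    | insert a F _ ih =>
      obtain ⟨i, hi⟩ := ih
      obtain ⟨j, hj⟩ := (Subgroup.mem_iSup_of_directed hd).1 a.2
      obtain ⟨k, h1, h2⟩ := hd i j
      refine ⟨k, fun x hx => ?_⟩
      rcases Finset.mem_insert.1 hx with rfl | hx
      · exact h2 hj
      · exact h1 (hi x hx)
  obtain ⟨i, hi⟩ := this
  exact ⟨S i, le_iSup S i, h i, hi⟩

/-- finitely additive invariant probability on all subsets -/
theorem Am.set_mean {S : Subgroup P} (h : Am S) : ∃ m : Set S → ℝ, (∀ A, 0 ≤ m A) ∧
    m Set.univ = 1 ∧ (∀ A B : Set S, Disjoint A B → m (A ∪ B) = m A + m B) ∧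
    ∀ (g : S) (A : Set S), m ((fun h => g * h) '' A) = m A := by
  obtain ⟨M, h⟩ := h
  have b0 : ∀ (A : Set P), B01 (A.indicator (1 : P → ℝ)) := by
    intro A x
    by_cases hh : x ∈ A <;> simp [hh]
  refine ⟨fun A => M ((Subtype.val '' A).indicator 1), fun A => (h.mem _ (b0 _)).1, ?_, ?_, ?_⟩
  · rw [← h.one]
    refine h.supp _ _ fun x hx => ?_
    rw [Set.indicator_of_mem (Set.mem_image_of_mem _ (Set.mem_univ (⟨x, hx⟩ : S)))]
    rfl
  · intro A B hd
    have e := Set.indicator_union_of_disjoint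
      ((Set.disjoint_image_iff Subtype.val_injective).2 hd) (1 : P → ℝ)
    beta_reduce
    rw [Set.image_union, e]
    exact h.add _ _ (b0 _) (b0 _) (e ▸ b0 _)
  · intro g A
    beta_reduce
    rw [← h.inv g.1 g.2 _ (b0 _)]
    congr 1
    funext x
    by_cases hx : x ∈ Subtype.val '' A
    · rw [Set.indicator_of_mem hx, Set.indicator_of_mem]
      · rfl
      · obtain ⟨y, hy, rfl⟩ := hx
        exact ⟨g * y, ⟨y, hy, rfl⟩, rfl⟩
    · rw [Set.indicator_of_notMem hx, Set.indicator_of_notMem]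
      rintro ⟨_, ⟨y, hy, rfl⟩, h2⟩
      exact hx ⟨y, hy, mul_left_cancel h2⟩

end Pool.Agent.Lib.helper8.Amen
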