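import Mathlib

set_option autoImplicit false
open Filter

namespace Pool.Agent.Lib.helper8.BetaK

attribute [local instance] Ultrafilter.add Ultrafilter.addSemigroup

section general
variable {G H : Type*}

lemma continuous_map (f : G → H) : Continuous (Ultrafilter.map f) :=
  ultrafilterBasis_is_basis.continuous_iff.2 <| Set.forall_mem_range.mpr fun s ↦
    ultrafilter_isOpen_basic (f ⁻¹' s)

lemma ext_ev {p q : Ultrafilter G}
    (h : ∀ P : G → Prop, (∀ᶠ x in (q : Filter G), P x) → ∀ᶠ x in (p : Filter G), P x) : p = q :=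
  Ultrafilter.eq_of_le (fun s hs => h (· ∈ s) hs)

lemma map_add [Add G] [Add H] (f : G → H) (hf : ∀ x y, f (x + y) = f x + f y)
    (p q : Ultrafilter G) : (p + q).map f = p.map f + q.map f := by
  apply ext_ev
  intro P hP
  rw [Ultrafilter.eventually_add] at hP
  have : ∀ᶠ x in (p : Filter G), ∀ᶠ y in (q : Filter G), P (f x + f y) := hP
  show ∀ᶠ z in ((p + q : Ultrafilter G) : Filter G), P (f z)
  rw [Ultrafilter.eventually_add]
  simpa only [hf] using this

lemma zero_add' [AddMonoid G] (p : Ultrafilter G) : (pure 0 : Ultrafilter G) + p = p := by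
  apply ext_ev
  intro P hP
  rw [Ultrafilter.eventually_add]
  simpa using hP

lemma add_zero' [AddMonoid G] (p : Ultrafilter G) : p + (pure 0 : Ultrafilter G) = p := by
  apply ext_ev
  intro P hP
  rw [Ultrafilter.eventually_add]
  simpa using hP

/-- minimal idempotents of `β G`. -/
def MinId [Add G] (e : Ultrafilter G) : Prop := e + e = e ∧ ∀ x, ∃ y, y + (x + e) = e

lemma MinId.absorb [AddSemigroup G] {e f x : Ultrafilter G} (he : MinId e) (hf : f + f = f)
    (hx : f = x + e) : e + f = e := by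
  obtain ⟨y, hy⟩ := he.2 x
  rw [← hx] at hy
  calc e + f = y + f + f := by rw [hy]
    _ = e := by rw [add_assoc, hf, hy]

lemma exists_minId [AddSemigroup G] (L0 : Set (Ultrafilter G)) (hc : IsClosed L0)
    (hne : L0.Nonempty) (hl : ∀ x, ∀ l ∈ L0, x + l ∈ L0) : ∃ e ∈ L0, MinId e := by
  let S : Set (Set (Ultrafilter G)) :=
    {L | IsClosed L ∧ L.Nonempty ∧ ∀ x, ∀ l ∈ L, x + l ∈ L}
  obtain ⟨L, hL0, hL⟩ : ∃ L, L ⊆ L0 ∧ Minimal (· ∈ S) L := by
    apply zorn_superset_nonempty S _ L0 ⟨hc, hne, hl⟩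
    intro c hcS hch hcne
    refine ⟨⋂₀ c, ⟨isClosed_sInter fun t ht => (hcS ht).1, ?_, ?_⟩, fun s hs =>
      Set.sInter_subset_of_mem hs⟩
    · have : Nonempty c := hcne.to_subtype
      exact IsCompact.nonempty_sInter_of_directed_nonempty_isCompact_isClosed
        (IsChain.directedOn hch.symm) (fun t ht => (hcS ht).2.1)
        (fun t ht => (hcS ht).1.isCompact) (fun t ht => (hcS ht).1)
    · intro x l hl t ht
      exact (hcS ht).2.2 x l (hl t ht)
  obtain ⟨h1, h2, h3⟩ := hL.prop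
  obtain ⟨e, he, hee⟩ := exists_idempotent_in_compact_add_subsemigroup
    (M := Ultrafilter G) Ultrafilter.continuous_add_left L h2 h1.isCompact
    (fun x _ y hy => h3 x y hy)
  refine ⟨e, hL0 he, hee, fun x => ?_⟩
  have hmem : Set.range (· + (x + e)) ∈ S := by
    refine ⟨(isCompact_range (Ultrafilter.continuous_add_left _)).isClosed, ⟨_, e, rfl⟩, ?_⟩
    rintro y _ ⟨z, rfl⟩
    exact ⟨y + z, add_assoc _ _ _⟩
  have hsub : Set.range (· + (x + e)) ⊆ L := by
    rintro _ ⟨z, rfl⟩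
    exact h3 _ _ (h3 _ _ he)
  exact hL.2 hmem hsub he

/-- left inverses inside a closed subsemigroup. -/
lemma exists_inv [AddSemigroup G] [AddSemigroup H] (T : Set (Ultrafilter G)) (hc : IsClosed T)
    (hT : ∀ x ∈ T, ∀ y ∈ T, x + y ∈ T) (f : G → H) (hf : ∀ x y, f (x + y) = f x + f y)
    {e : Ultrafilter H} (he : MinId e) {we wa : Ultrafilter G} (hwe : we ∈ T) (hwa : wa ∈ T)
    (h1 : we.map f = e) (h2 : wa.map f + e = wa.map f) :
    ∃ w ∈ T, we + w ∈ T ∧ (we + w).map f + wa.map f = e := by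
  obtain ⟨_, ⟨w, hw, rfl⟩, hg⟩ := exists_idempotent_in_compact_add_subsemigroup
    (M := Ultrafilter G) Ultrafilter.continuous_add_left ((· + wa) '' T) ⟨_, we, hwe, rfl⟩
    (hc.isCompact.image (Ultrafilter.continuous_add_left _))
    (by
      rintro _ ⟨x, hx, rfl⟩ _ ⟨y, hy, rfl⟩
      exact ⟨x + wa + y, hT _ (hT _ hx _ hwa) _ hy, add_assoc _ _ _⟩)
  refine ⟨w, hw, hT _ hwe _ hw, ?_⟩
  have h3 : (w + wa).map f + (w + wa).map f = (w + wa).map f := by
    rw [← map_add f hf]; exact congrArg _ hg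
  have h4 := he.absorb (x := w.map f + wa.map f) h3 (by rw [add_assoc, h2, map_add f hf])
  rw [map_add f hf, h1, add_assoc, ← map_add f hf, h4]

lemma MinId.sandwich [AddSemigroup G] {e f u : Ultrafilter G} (hf : MinId f)
    (hu : u + (e + f + e) = e) (heu : e + u = u) (hue : u + e = u) : f + u + f = f := by
  have h : (u + f) + (u + f) = u + f := by
    calc (u + f) + (u + f) = (u + e) + f + ((e + u) + f) := by rw [hue, heu]
      _ = (u + (e + f + e)) + u + f := by simp only [add_assoc]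
      _ = u + f := by rw [hu, heu]
  rw [add_assoc]
  exact hf.absorb h rfl

end general

/-- dilation of an ultrafilter on the integers. -/
def sc (l : ℤ) (e : Ultrafilter ℤ) : Ultrafilter ℤ := e.map (l * ·)

lemma sc_one (e : Ultrafilter ℤ) : sc 1 e = e := by
  apply ext_ev
  intro P hP
  show ∀ᶠ z in (e : Filter ℤ), P (1 * z)
  simpa using hP

lemma sc_zero (e : Ultrafilter ℤ) : sc 0 e = pure 0 := by
  apply ext_ev
  intro P hP
  show ∀ᶠ z in (e : Filter ℤ), P (0 * z)
  simpa using hP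

lemma MinId.scale {e : Ultrafilter ℤ} (he : MinId e) {l : ℤ} (hl : l ≠ 0) : MinId (sc l e) := by
  refine ⟨by unfold sc; rw [← map_add _ (mul_add l), he.1], fun x => ?_⟩
  have hfin : ∃ j : ℤ, ∀ᶠ z in (x : Filter ℤ), z % l = j := by
    have : ∀ᶠ z in (x : Filter ℤ), ∃ j ∈ Finset.Ico 0 |l|, z % l = j :=
      Eventually.of_forall fun z => ⟨_, Finset.mem_Ico.2
        ⟨Int.emod_nonneg _ hl, Int.emod_lt_abs _ hl⟩, rfl⟩
    obtain ⟨j, -, hj⟩ := (Ultrafilter.eventually_exists_mem_iff (Finset.finite_toSet _)).1 this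
    exact ⟨j, hj⟩
  obtain ⟨j, hj⟩ := hfin
  obtain ⟨y, hy⟩ := he.2 (x.map (· / l))
  refine ⟨y.map (fun w => l * w - j), ?_⟩
  apply ext_ev
  intro P hP
  have h1 : ∀ᶠ z in ((y + (x.map (· / l) + e) : Ultrafilter ℤ) : Filter ℤ), P (l * z) := by
    rw [hy]; exact hP
  simp only [Ultrafilter.eventually_add] at h1 ⊢
  show ∀ᶠ w in (y : Filter ℤ), ∀ᶠ z in (x : Filter ℤ), ∀ᶠ u in (e : Filter ℤ),
    P (l * w - j + (z + l * u))
  filter_upwards [h1] with w hw
  have hw' : ∀ᶠ z in (x : Filter ℤ), ∀ᶠ u in (e : Filter ℤ), P (l * (w + (z / l + u))) := hw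
  filter_upwards [hw', hj] with z hz hzj
  filter_upwards [hz] with u hu
  have : l * w - j + (z + l * u) = l * (w + (z / l + u)) := by
    have := Int.mul_ediv_add_emod z l
    rw [hzj] at this
    linear_combination -this
  rw [this]; exact hu

/-- ultrafilters tending to `+∞`. -/
def Pos (p : Ultrafilter ℤ) : Prop := ∀ n : ℤ, ∀ᶠ z in (p : Filter ℤ), n < z

lemma Pos.add_left {p : Ultrafilter ℤ} (hp : Pos p) (x : Ultrafilter ℤ) : Pos (x + p) := by
  intro n
  rw [Ultrafilter.eventually_add]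
  refine Eventually.of_forall fun z => ?_
  filter_upwards [hp (n - z)] with w hw
  omega

lemma Pos.scale {p : Ultrafilter ℤ} (hp : Pos p) {l : ℤ} (hl : 0 < l) : Pos (sc l p) := by
  intro n
  show ∀ᶠ z in (p : Filter ℤ), n < l * z
  filter_upwards [hp |n|] with z hz
  have := le_abs_self n
  have := abs_nonneg n
  nlinarith

lemma exists_minId_pos : ∃ e : Ultrafilter ℤ, MinId e ∧ Pos e := by
  obtain ⟨e, h1, h2⟩ := exists_minId {p : Ultrafilter ℤ | Pos p} (by
      have : {p : Ultrafilter ℤ | Pos p} = ⋂ n : ℤ, {p : Ultrafilter ℤ | {z | n < z} ∈ p} := by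
        ext p
        simp only [Set.mem_iInter]
        rfl
      rw [this]
      exact isClosed_iInter fun n => ultrafilter_isClosed_basic _)
    ⟨Ultrafilter.of atTop, fun n => (Ultrafilter.of_le atTop) (eventually_gt_atTop n)⟩
    (fun x l hl => Pos.add_left hl x)
  exact ⟨e, h2, h1⟩

end Pool.Agent.Lib.helper8.BetaK
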