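import Mathlib

set_option autoImplicit false

open Polynomial Matrix

namespace Pool.Agent.Lib.helper8

/-- Characteristic polynomial of a graph whose vertices are split in classes, each class a clique,
two classes being completely joined or not joined at all. -/
theorem charpoly_clique_blowup {n k : ℕ} (hk : k ≤ n) (G : SimpleGraph (Fin n))
    [DecidableRel G.Adj] (cls : Fin n → Fin k) (q : Fin k → Fin k → Bool) (sz : Fin k → ℕ)
    (hq : ∀ i, q i i = true)
    (hG : ∀ x y, G.Adj x y ↔ x ≠ y ∧ q (cls x) (cls y) = true)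
    (hsz : ∀ j, (Finset.univ.filter (fun x => cls x = j)).card = sz j) :
    (G.adjMatrix ℝ).charpoly =
      (X + C 1) ^ (n - k) *
        (Matrix.of (fun i j => if q i j = true then (sz j : ℝ) else 0)).charpoly.comp (X + C 1) := by
  let U : Matrix (Fin n) (Fin k) ℝ := Matrix.of fun x i => if cls x = i then 1 else 0
  let B : Matrix (Fin k) (Fin n) ℝ := Matrix.of fun i y => if q i (cls y) = true then 1 else 0
  have h1 : G.adjMatrix ℝ = U * B - Matrix.scalar (Fin n) 1 := by
    ext x y
    simp only [U, B, SimpleGraph.adjMatrix_apply, Matrix.sub_apply, Matrix.mul_apply,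
      Matrix.of_apply, Matrix.scalar_apply, Matrix.diagonal_apply, ite_mul, one_mul, zero_mul,
      Finset.sum_ite_eq, Finset.mem_univ, if_true, hG]
    by_cases hxy : x = y
    · subst hxy; simp [hq]
    · simp [hxy]
  have h2 : B * U = Matrix.of (fun i j => if q i j = true then (sz j : ℝ) else 0) := by
    ext i j
    simp only [U, B, Matrix.mul_apply, Matrix.of_apply, ← hsz]
    have : ∀ x : Fin n, ((if q i (cls x) = true then (1 : ℝ) else 0) * if cls x = j then 1 else 0)
        = if cls x = j then (if q i j = true then 1 else 0) else 0 := by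
      intro x
      by_cases hx : cls x = j
      · simp [hx]
      · simp [hx]
    simp only [this]
    rw [← Finset.sum_filter]
    by_cases hij : q i j = true <;> simp [hij]
  rw [h1, Matrix.charpoly_sub_scalar, Matrix.charpoly_mul_comm_of_le _ _ (by simpa using hk), h2]
  simp

/-- The same with independent classes. -/
theorem charpoly_indep_blowup {n k : ℕ} (hk : k ≤ n) (G : SimpleGraph (Fin n))
    [DecidableRel G.Adj] (cls : Fin n → Fin k) (q : Fin k → Fin k → Bool) (sz : Fin k → ℕ)
    (hG : ∀ x y, G.Adj x y ↔ q (cls x) (cls y) = true)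
    (hsz : ∀ j, (Finset.univ.filter (fun x => cls x = j)).card = sz j) :
    (G.adjMatrix ℝ).charpoly =
      X ^ (n - k) * (Matrix.of (fun i j => if q i j = true then (sz j : ℝ) else 0)).charpoly := by
  let U : Matrix (Fin n) (Fin k) ℝ := Matrix.of fun x i => if cls x = i then 1 else 0
  let B : Matrix (Fin k) (Fin n) ℝ := Matrix.of fun i y => if q i (cls y) = true then 1 else 0
  have h1 : G.adjMatrix ℝ = U * B := by
    ext x y
    simp only [U, B, SimpleGraph.adjMatrix_apply, Matrix.mul_apply,
      Matrix.of_apply, ite_mul, one_mul, zero_mul,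
      Finset.sum_ite_eq, Finset.mem_univ, if_true, hG]
  have h2 : B * U = Matrix.of (fun i j => if q i j = true then (sz j : ℝ) else 0) := by
    ext i j
    simp only [U, B, Matrix.mul_apply, Matrix.of_apply, ← hsz]
    have : ∀ x : Fin n, ((if q i (cls x) = true then (1 : ℝ) else 0) * if cls x = j then 1 else 0)
        = if cls x = j then (if q i j = true then 1 else 0) else 0 := by
      intro x
      by_cases hx : cls x = j
      · simp [hx]
      · simp [hx]
    simp only [this]
    rw [← Finset.sum_filter]
    by_cases hij : q i j = true <;> simp [hij]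
  rw [h1, Matrix.charpoly_mul_comm_of_le _ _ (by simpa using hk), h2]
  simp

/-- A root between two points where the polynomial changes sign. -/
theorem exists_root_of_neg_pos (P : ℝ[X]) {a b : ℝ} (hab : a ≤ b) (ha : P.eval a < 0)
    (hb : 0 < P.eval b) : ∃ r, a < r ∧ r < b ∧ P.eval r = 0 := by
  obtain ⟨r, hr, h⟩ := intermediate_value_Ioo hab P.continuous.continuousOn
    (show (0 : ℝ) ∈ Set.Ioo (P.eval a) (P.eval b) from ⟨ha, hb⟩)
  exact ⟨r, hr.1, hr.2, h⟩

theorem exists_root_of_pos_neg (P : ℝ[X]) {a b : ℝ} (hab : a ≤ b) (ha : 0 < P.eval a)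
    (hb : P.eval b < 0) : ∃ r, a < r ∧ r < b ∧ P.eval r = 0 := by
  obtain ⟨r, hr, h⟩ := intermediate_value_Ioo' hab P.continuous.continuousOn
    (show (0 : ℝ) ∈ Set.Ioo (P.eval b) (P.eval a) from ⟨hb, ha⟩)
  exact ⟨r, hr.1, hr.2, h⟩

/-- The multiset of roots, given as many distinct roots as the degree allows. -/
theorem roots_eq_of_nodup (P : ℝ[X]) (hP : P ≠ 0) (s : Multiset ℝ) (hs : s.Nodup)
    (hr : ∀ x ∈ s, P.eval x = 0) (hd : P.natDegree ≤ s.card) : P.roots = s := by
  symm
  apply Multiset.eq_of_le_of_card_le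
  · rw [Multiset.le_iff_subset hs]
    intro x hx
    exact (Polynomial.mem_roots hP).2 (hr x hx)
  · exact (Polynomial.card_roots' P).trans hd

end Pool.Agent.Lib.helper8
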