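import Mathlib

set_option autoImplicit false

namespace Pool.Agent.Lib.helper8.Dist

abbrev S := Fin 5
abbrev Lt := S × Bool
abbrev M := Option (Bool × Lt)

theorem NN_ex : ∃ n : ℕ, 0 < n ∧ Nonempty ((S → M) ≃ ZMod n) := by
  obtain ⟨n, ⟨e⟩⟩ := Finite.exists_equiv_fin (S → M)
  rcases n with _ | n
  · exact (e fun _ => none).elim0
  · exact ⟨n + 1, n.succ_pos, ⟨e⟩⟩

noncomputable def NN : ℕ := Classical.choose NN_ex

theorem NN_pos : 0 < NN := (Classical.choose_spec NN_ex).1

instance : NeZero NN := ⟨NN_pos.ne'⟩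

noncomputable def enc : (S → M) ≃ ZMod NN := (Classical.choose_spec NN_ex).2.some

structure Sys (T : Type) where
  tact : S → Equiv.Perm T
  ed : S → T → Option (S × ℕ × Bool)

abbrev A (T : Type) := Bool × Bool × T × ZMod NN

def linv (σ : Lt) : Lt := (σ.1, !σ.2)
def rev (d : S × ℕ × Bool) : S × ℕ × Bool := (d.1, d.2.1, !d.2.2)
def minv (m : M) : M := m.map fun q => (q.1, linv q.2)

noncomputable def m0 (s : S) (j : ℕ) (p : Bool) (w : ZMod NN) : M :=
  if p = true then
    (if j = NN + 3 then some (true, (s, true))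
     else if 3 ≤ j ∧ j ≤ NN + 1 ∧ j - 2 ≤ w.val then some (false, (s, true)) else none)
  else if j = 1 then enc.symm w s else none

noncomputable def k0 (j : ℕ) (p : Bool) : ZMod NN :=
  if p = true then (if j = 2 then 1 else if j = NN + 2 then -1 else 0)
  else (if j = 0 then 1 else if j = 2 then -1 else 0)

noncomputable def mm : Option (S × ℕ × Bool) → Bool → ZMod NN → M
  | none, _, _ => none
  | some d, p, w => if d.2.2 = true then m0 d.1 d.2.1 p w else minv (m0 d.1 d.2.1 p w)

noncomputable def kk : Option (S × ℕ × Bool) → Bool → ZMod NN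
  | none, _ => 0
  | some d, p => if d.2.2 = true then k0 d.2.1 p else - k0 d.2.1 p

theorem minv_minv (m : M) : minv (minv m) = m := by
  rcases m with _ | ⟨k, s, b⟩ <;> simp [minv, linv]

theorem mm_rev (d : Option (S × ℕ × Bool)) (p : Bool) (w : ZMod NN) :
    mm (d.map rev) p w = minv (mm d p w) := by
  rcases d with _ | ⟨s, j, _ | _⟩ <;> simp [mm, rev, minv_minv]
  rfl

theorem kk_rev (d : Option (S × ℕ × Bool)) (p : Bool) : kk (d.map rev) p = - kk d p := by
  rcases d with _ | ⟨s, j, _ | _⟩ <;> simp [kk, rev]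

theorem dich (d : Option (S × ℕ × Bool)) :
    (∀ p, kk d p = 0) ∨ (∀ p w, mm d p w = none) := by
  rcases d with _ | ⟨s, j, b⟩
  · exact Or.inl fun _ => rfl
  · have := NN_pos
    by_cases h : j = 0 ∨ j = 2 ∨ j = NN + 2
    · right
      intro p w
      have h0 : m0 s j p w = none := by
        unfold m0
        split_ifs <;> first | rfl | omega
      simp only [mm, h0]
      split_ifs <;> rfl
    · left
      intro p
      have h0 : k0 j p = 0 := by
        unfold k0
        split_ifs <;> first | rfl | omega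
      simp [kk, h0]

variable {T : Type} (D : Sys T)

def ta (σ : Lt) (τ : T) : T := if σ.2 = true then D.tact σ.1 τ else (D.tact σ.1).symm τ

def edl (σ : Lt) (τ : T) : Option (S × ℕ × Bool) :=
  if σ.2 = true then D.ed σ.1 τ else (D.ed σ.1 ((D.tact σ.1).symm τ)).map rev

theorem ta_linv (σ : Lt) (τ : T) : ta D (linv σ) (ta D σ τ) = τ := by
  rcases σ with ⟨s, _ | _⟩ <;> simp [ta, linv]

theorem linv_linv (σ : Lt) : linv (linv σ) = σ := by
  rcases σ with ⟨s, _ | _⟩ <;> rfl

theorem edl_linv (σ : Lt) (τ : T) : edl D (linv σ) (ta D σ τ) = (edl D σ τ).map rev := by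
  rcases σ with ⟨s, _ | _⟩
  · simp only [edl, ta, linv]
    rcases hd : D.ed s ((D.tact s).symm τ) with _ | ⟨a, b, c⟩ <;> simp [rev, hd]
  · simp [edl, ta, linv]

noncomputable def msg (σ : Lt) (a : A T) : M := mm (edl D σ a.2.2.1) a.2.1 a.2.2.2
noncomputable def kap (σ : Lt) (a : A T) : ZMod NN := kk (edl D σ a.2.2.1) a.2.1
noncomputable def info (a : A T) : ZMod NN := enc fun s => msg D (s, true) a

noncomputable def P : M → A T → A T
  | none, a => a
  | some (true, σ), a => (a.1, a.2.1, ta D σ a.2.2.1, a.2.2.2)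
  | some (false, σ), a => (a.1, a.2.1, a.2.2.1,
      a.2.2.2 + if σ.2 = true then kap D (σ.1, true) a else - kap D (σ.1, true) a)

noncomputable def C (σ : Lt) (v : ZMod NN) (a : A T) : A T :=
  (a.1, a.2.1, ta D σ a.2.2.1, a.2.2.2 + kap D σ a * v)

noncomputable def F (σ : Lt) (x : ℕ → A T) : ℕ → A T := fun i =>
  if (x i).1 = true then C D σ (info D (P D (msg D σ (x (i + 2))) (x (i + 1)))) (x i)
  else P D (msg D σ (x (i + 1))) (x i)

theorem P_fst (m : M) (a : A T) : (P D m a).1 = a.1 := by
  rcases m with _ | ⟨_ | _, σ⟩ <;> rfl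

theorem P_minv (m : M) (a : A T) : P D (minv m) (P D m a) = a := by
  rcases m with _ | ⟨_ | _, σ⟩
  · rfl
  · rcases σ with ⟨s, _ | _⟩ <;> simp [P, minv, linv, kap]
  · simp only [P, minv, Option.map, ta_linv]

theorem F_fst (σ : Lt) (x : ℕ → A T) (i : ℕ) : (F D σ x i).1 = (x i).1 := by
  unfold F
  split_ifs
  · rfl
  · exact P_fst _ _ _

def sh {B : Type} (x : ℕ → B) : ℕ → B := fun i => x (i + 1)

theorem F_sh (σ : Lt) (x : ℕ → A T) : F D σ (sh x) = sh (F D σ x) := rfl

def Ag {B : Type} (m : ℕ) (x y : ℕ → B) : Prop := ∀ i < m, x i = y i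

theorem Ag.mono {B : Type} {m n : ℕ} {x y : ℕ → B} (h : Ag n x y) (hmn : m ≤ n) : Ag m x y :=
  fun i hi => h i (by omega)

theorem Ag.symm {B : Type} {m : ℕ} {x y : ℕ → B} (h : Ag m x y) : Ag m y x :=
  fun i hi => (h i hi).symm

theorem Ag.trans {B : Type} {m : ℕ} {x y z : ℕ → B} (h : Ag m x y) (h' : Ag m y z) :
    Ag m x z := fun i hi => (h i hi).trans (h' i hi)

theorem sh_ag {B : Type} {m : ℕ} {x y : ℕ → B} (h : Ag (m + 1) x y) : Ag m (sh x) (sh y) :=
  fun i hi => h (i + 1) (by omega)

theorem F_ag (σ : Lt) {m : ℕ} {x y : ℕ → A T} (h : Ag (m + 2) x y) :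
    Ag m (F D σ x) (F D σ y) := by
  intro i hi
  unfold F
  rw [h i (by omega), h (i + 1) (by omega), h (i + 2) (by omega)]

theorem it_ag (σ : Lt) (n : ℕ) : ∀ {m : ℕ} {x y : ℕ → A T}, Ag (m + 2 * n) x y →
    Ag m ((F D σ)^[n] x) ((F D σ)^[n] y) := by
  induction n with
  | zero => intro m x y h; exact h
  | succ n ih =>
    intro m x y h
    rw [Function.iterate_succ_apply', Function.iterate_succ_apply']
    exact F_ag D σ (ih (h.mono (by omega)))

theorem it_sh (σ : Lt) (n : ℕ) (x : ℕ → A T) :
    (F D σ)^[n] (sh x) = sh ((F D σ)^[n] x) := by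
  induction n with
  | zero => rfl
  | succ n ih => rw [Function.iterate_succ_apply', Function.iterate_succ_apply', ih, F_sh]

def Alt (x : ℕ → A T) : Prop := ∀ i, (x (i + 1)).1 = !(x i).1

/-- alternating flags and common clock state -/
def Un (τ : T) (x : ℕ → A T) : Prop := Alt x ∧ ∀ i, (x i).1 = true → (x i).2.2.1 = τ

theorem Un.sh {τ : T} {x : ℕ → A T} (h : Un τ x) : Un τ (sh x) :=
  ⟨fun i => h.1 (i + 1), fun i => h.2 (i + 1)⟩

theorem Un.F {τ : T} {x : ℕ → A T} (h : Un τ x) (σ : Lt) : Un (ta D σ τ) (F D σ x) := by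
  refine ⟨fun i => by rw [F_fst, F_fst, h.1], fun i hi => ?_⟩
  rw [F_fst] at hi
  unfold Dist.F
  rw [if_pos hi, ← h.2 i hi]
  rfl

theorem F_inv {τ : T} {x : ℕ → A T} (h : Un τ x) (σ : Lt) : F D (linv σ) (F D σ x) = x := by
  have hm : ∀ i, (x i).1 = true → msg D σ (x i) = mm (edl D σ τ) (x i).2.1 (x i).2.2.2 := by
    intro i hi; unfold msg; rw [h.2 i hi]
  have hk : ∀ i, (x i).1 = true → kap D σ (x i) = kk (edl D σ τ) (x i).2.1 := by
    intro i hi; unfold kap; rw [h.2 i hi]
  have h1 : ∀ i, (x i).1 = true → F D σ x i = (true, (x i).2.1, ta D σ τ, (x i).2.2.2 +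
      kk (edl D σ τ) (x i).2.1 * info D (P D (msg D σ (x (i + 2))) (x (i + 1)))) := by
    intro i hi; unfold F; rw [if_pos hi]; unfold C; rw [hk i hi, h.2 i hi, hi]
  have h0 : ∀ i, (x i).1 = false → F D σ x i = P D (msg D σ (x (i + 1))) (x i) := by
    intro i hi; unfold F; rw [if_neg (by simp [hi])]
  have n1 : ∀ i, (x i).1 = true → (x (i + 1)).1 = false := fun i hi => by rw [h.1, hi]; rfl
  have n0 : ∀ i, (x i).1 = false → (x (i + 1)).1 = true := fun i hi => by rw [h.1, hi]; rfl
  have back : ∀ i, (x i).1 = false →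
      P D (msg D (linv σ) (F D σ x (i + 1))) (F D σ x i) = x i := by
    intro i hi
    have hi' := n0 i hi
    rw [h0 i hi, h1 _ hi', hm _ hi']
    unfold msg
    simp only [edl_linv, mm_rev]
    rcases dich (edl D σ τ) with hd | hd
    · rw [hd, zero_mul, add_zero, P_minv]
    · rw [hd, hd]; rfl
  funext i
  cases hi : (x i).1
  · conv_lhs => unfold F
    rw [if_neg (by rw [← F, F_fst, hi]; simp)]
    exact back i hi
  · have hi' := n1 i hi
    have e : F D (linv σ) (F D σ x) i = C D (linv σ) (info D (P D (msg D (linv σ)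
        (F D σ x (i + 1 + 1))) (F D σ x (i + 1)))) (F D σ x i) := by
      conv_lhs => unfold F
      rw [if_pos (by rw [← F, F_fst, hi])]
      rfl
    rw [e, back _ hi', h1 i hi]
    unfold C kap
    simp only [edl_linv, kk_rev, ta_linv]
    rw [hm (i + 2) (n0 _ hi')]
    have : (x i).2.2.2 + kk (edl D σ τ) (x i).2.1 * info D (P D (mm (edl D σ τ)
        (x (i + 2)).2.1 (x (i + 2)).2.2.2) (x (i + 1))) +
        -kk (edl D σ τ) (x i).2.1 * info D (x (i + 1)) = (x i).2.2.2 := by
      rcases dich (edl D σ τ) with hd | hd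
      · rw [hd]; simp
      · rw [hd]; simp [P]
    rw [this, ← hi, ← h.2 i hi]

def inter {B : Type} (E O : ℕ → B) : ℕ → B :=
  fun p => if p % 2 = 0 then E (p / 2) else O (p / 2)

theorem inter_even {B : Type} (E O : ℕ → B) (i : ℕ) : inter E O (2 * i) = E i := by
  unfold inter
  rw [if_pos (by omega), show 2 * i / 2 = i by omega]

theorem inter_odd {B : Type} (E O : ℕ → B) (i : ℕ) : inter E O (2 * i + 1) = O i := by
  unfold inter
  rw [if_neg (by omega), show (2 * i + 1) / 2 = i by omega]

theorem inter_even' {B : Type} (E O : ℕ → B) (i : ℕ) :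
    inter E O (2 * i + 1 + 1) = E (i + 1) := by
  rw [show 2 * i + 1 + 1 = 2 * (i + 1) by ring, inter_even]

theorem inter_odd' {B : Type} (E O : ℕ → B) (i : ℕ) :
    inter E O (2 * i + 1 + 2) = O (i + 1) := by
  rw [show 2 * i + 1 + 2 = 2 * (i + 1) + 1 by ring, inter_odd]

theorem ext2 {B : Type} {x y : ℕ → B} (h0 : ∀ i, x (2 * i) = y (2 * i))
    (h1 : ∀ i, x (2 * i + 1) = y (2 * i + 1)) : x = y := by
  funext p
  rcases Nat.even_or_odd' p with ⟨i, rfl | rfl⟩
  · exact h0 i
  · exact h1 i

theorem F_inter (σ : Lt) (E O E' O' : ℕ → A T) (hE : ∀ i, (E i).1 = false)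
    (hO : ∀ i, (O i).1 = true) (h1 : ∀ i, P D (msg D σ (O i)) (E i) = E' i)
    (h2 : ∀ i, C D σ (info D (E' (i + 1))) (O i) = O' i) :
    F D σ (inter E O) = inter E' O' := by
  apply ext2
  · intro i
    unfold F
    rw [inter_even, inter_odd, inter_even, if_neg (by simp [hE]), h1]
  · intro i
    unfold F
    rw [inter_odd, inter_odd', inter_even', inter_odd, if_pos (hO i), h1, h2]

def low (a : A T) : A T := (false, a.2)

noncomputable def th0 (τ : T) (y : ℕ → A T) : ℕ → A T :=
  inter (fun i => low (y i)) (fun i => (true, (y i).1, τ, 0))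

theorem th0_un (τ : T) (y : ℕ → A T) : Un τ (th0 τ y) := by
  constructor
  · intro p
    rcases Nat.even_or_odd' p with ⟨i, rfl | rfl⟩
    · unfold th0; rw [inter_even, inter_odd]; rfl
    · unfold th0; rw [inter_even', inter_odd]; rfl
  · intro p
    rcases Nat.even_or_odd' p with ⟨i, rfl | rfl⟩
    · unfold th0; rw [inter_even]; simp [low]
    · unfold th0; rw [inter_odd]; simp

theorem th0_sh (τ : T) (y : ℕ → A T) : sh (sh (th0 τ y)) = th0 τ (sh y) := by
  apply ext2
  · intro i
    show th0 τ y (2 * i + 1 + 1) = _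
    unfold th0
    rw [inter_even', inter_even]; rfl
  · intro i
    show th0 τ y (2 * i + 1 + 2) = _
    unfold th0
    rw [inter_odd', inter_odd]; rfl

theorem th0_ag (τ : T) {m : ℕ} {x y : ℕ → A T} (h : Ag m x y) :
    Ag (2 * m) (th0 τ x) (th0 τ y) := by
  intro p hp
  unfold th0 inter
  simp only [h (p / 2) (by omega)]

theorem th0_inj (τ : T) {x y : ℕ → A T} (h : th0 τ x = th0 τ y) : x = y := by
  funext i
  have h0 := congrFun h (2 * i)
  have h1 := congrFun h (2 * i + 1)
  unfold th0 at h0 h1
  rw [inter_even, inter_even] at h0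
  rw [inter_odd, inter_odd] at h1
  simp only [low, Prod.mk.injEq, true_and, and_true] at h0 h1
  exact Prod.ext h1 h0

theorem P_low (m : M) (a : A T) : P D m (low a) = low (P D m a) := by
  rcases m with _ | ⟨_ | _, σ⟩ <;> rfl

theorem info_low (a : A T) : info D (low a) = info D a := rfl

theorem idle (σ : Lt) (τ : T) (h : edl D σ τ = none) (y : ℕ → A T) :
    F D σ (th0 τ y) = th0 (ta D σ τ) y := by
  unfold th0
  apply F_inter D σ _ _ _ _ (fun _ => rfl) (fun _ => rfl)
  · intro i
    simp [msg, h, mm, P]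
  · intro i
    simp [C, kap, h, kk]

theorem sim (σ : Lt) (s : S) (τ : ℕ → T)
    (he : ∀ j < NN + 4, edl D σ (τ j) = some (s, j, true))
    (ht : ∀ j < NN + 4, ta D σ (τ j) = τ (j + 1)) (y : ℕ → A T) (hy : Alt y) :
    (F D σ)^[NN + 4] (th0 (τ 0) y) = th0 (τ (NN + 4)) (F D (s, true) y) := by
  have hN := NN_pos
  have n1 : ∀ i, (y i).1 = true → (y (i + 1)).1 = false := fun i hi => by rw [hy, hi]; rfl
  have n0 : ∀ i, (y i).1 = false → (y (i + 1)).1 = true := fun i hi => by rw [hy, hi]; rfl
  let z : ℕ → A T := fun i => P D (msg D (s, true) (y (i + 1))) (y i)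
  let E : ℕ → ℕ → A T := fun j i =>
    if (y i).1 = true then (false, (y i).2.1, (y i).2.2.1, (y i).2.2.2 +
      kap D (s, true) (y i) * ((min (j - 3) (info D (z (i + 1))).val : ℕ) : ZMod NN))
    else if j ≤ 1 then low (y i) else low (z i)
  let O : ℕ → ℕ → A T := fun j i => (true, (y i).1, τ j,
    if (y i).1 = true then (if 3 ≤ j ∧ j ≤ NN + 2 then info D (z (i + 1)) else 0)
    else (if 1 ≤ j ∧ j ≤ 2 then info D (y (i + 1)) else 0))
  have hE : ∀ j i, (E j i).1 = false := by
    intro j i
    simp only [E]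
    split_ifs <;> rfl
  have hmsg : ∀ j < NN + 4, ∀ i, msg D σ (O j i) = m0 s j (y i).1 (O j i).2.2.2 := by
    intro j hj i
    unfold msg
    simp only [O, he j hj, mm, if_true]
  have hkap : ∀ j < NN + 4, ∀ i, kap D σ (O j i) = k0 j (y i).1 := by
    intro j hj i
    unfold kap
    simp only [O, he j hj, kk, if_true]
  have hO : ∀ j < NN + 4, ∀ (E' : ℕ → A T),
      (∀ i, (y i).1 = true → j ≤ 2 → E' i = low (y i)) →
      (∀ i, (y i).1 = false → 1 ≤ j → E' i = low (z i)) →
      ∀ i, C D σ (info D (E' (i + 1))) (O j i) = O (j + 1) i := by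
    intro j hj E' e1 e0 i
    unfold C
    rw [hkap j hj]
    simp only [O, ht j hj, Prod.mk.injEq, true_and]
    cases hi : (y i).1
    · simp only [Bool.false_eq_true, if_false, k0]
      by_cases j0 : j = 0
      · subst j0
        rw [e1 _ (n0 i hi) (by omega), info_low]; simp
      · by_cases j2 : j = 2
        · subst j2
          rw [e1 _ (n0 i hi) (by omega), info_low]; simp
        · rw [if_neg j0, if_neg j2, zero_mul, add_zero]
          split_ifs <;> first | rfl | omega
    · simp only [if_true, k0]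
      by_cases j0 : j = 2
      · subst j0
        rw [e0 _ (n1 i hi) (by omega), info_low, if_neg (by omega), if_pos rfl,
          if_pos (by omega)]; simp
      · by_cases j2 : j = NN + 2
        · subst j2
          rw [e0 _ (n1 i hi) (by omega), info_low, if_pos (by omega), if_neg (by omega),
            if_pos rfl, if_neg (by omega)]; simp
        · rw [if_neg j0, if_neg j2, zero_mul, add_zero]
          split_ifs <;> first | rfl | omega
  have main : ∀ j ≤ NN + 3, (F D σ)^[j] (th0 (τ 0) y) = inter (E j) (O j) := by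
    intro j
    induction j with
    | zero =>
      intro _
      show th0 (τ 0) y = _
      unfold th0
      congr 1
      · funext i
        simp only [E]
        split_ifs
        · simp [low]
        · rfl
        · omega
      · funext i
        simp [O]
    | succ j ih =>
      intro hj
      rw [Function.iterate_succ_apply', ih (by omega)]
      apply F_inter D σ _ _ _ _ (hE j) (fun _ => rfl)
      · intro i
        rw [hmsg j (by omega)]
        cases hi : (y i).1
        · simp only [m0, O, E, hi, Bool.false_eq_true, if_false]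
          by_cases j1 : j = 1
          · subst j1
            simp only [if_true, le_refl, one_le_two, and_self, info, Equiv.symm_apply_apply]
            rw [if_neg (by omega), P_low]
          · rw [if_neg j1]
            show (if j ≤ 1 then low (y i) else low (z i)) = _
            split_ifs <;> first | rfl | omega
        · simp only [m0, O, E, hi, if_true]
          rw [if_neg (by omega)]
          have hv := ZMod.val_lt (info D (z (i + 1)))
          generalize info D (z (i + 1)) = v at hv
          by_cases j3 : 3 ≤ j ∧ j ≤ NN + 1 ∧ j - 2 ≤ v.val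
          · rw [if_pos (show 3 ≤ j ∧ j ≤ NN + 2 by omega), if_pos j3]
            simp only [P, if_true, Prod.mk.injEq, true_and]
            rw [show min (j + 1 - 3) v.val = min (j - 3) v.val + 1 by omega]
            push_cast
            rw [mul_add, mul_one, add_assoc]
            rfl
          · rw [if_neg, show min (j + 1 - 3) v.val = min (j - 3) v.val by omega]
            · rfl
            · split_ifs with j4
              · exact j3
              · omega
      · apply hO j (by omega)
        · intro i hi h2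
          simp only [E, hi, if_true]
          rw [show j + 1 - 3 = 0 by omega]
          simp [low]
        · intro i hi h1
          simp only [E, hi, Bool.false_eq_true, if_false]
          rw [if_neg (by omega)]
  rw [Function.iterate_succ_apply', main _ le_rfl]
  unfold th0
  have hF0 : ∀ i, (y i).1 = false → F D (s, true) y i = z i := by
    intro i hi; unfold F; rw [if_neg (by simp [hi])]
  apply F_inter D σ _ _ _ _ (hE _) (fun _ => rfl)
  · intro i
    rw [hmsg _ (by omega)]
    cases hi : (y i).1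
    · simp only [m0, E, hi, Bool.false_eq_true, if_false]
      rw [if_neg (by omega), if_neg (by omega), hF0 i hi]
      rfl
    · simp only [m0, E, hi, if_true, P]
      unfold F
      rw [if_pos hi]
      have hv := ZMod.val_lt (info D (z (i + 1)))
      rw [show min (NN + 3 - 3) (info D (z (i + 1))).val = (info D (z (i + 1))).val by omega,
        ZMod.natCast_zmod_val]
      rfl
  · intro i
    rw [hO _ (by omega) (fun i => low (F D (s, true) y i)) (fun i _ h => by omega)
      (fun i hi _ => by rw [hF0 i hi])]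
    simp only [O, F_fst, Prod.mk.injEq, true_and]
    split_ifs <;> first | rfl | omega

end Pool.Agent.Lib.helper8.Dist
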