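import Pool.Agent.Lib.helper8.Dist1

set_option autoImplicit false

namespace Pool.Agent.Lib.helper8.Dist

section skew
variable {T G : Type} [Group G]

def skew (π : Equiv.Perm T) (c : T → G) : Equiv.Perm (T × G) where
  toFun q := (π q.1, c q.1 * q.2)
  invFun q := (π.symm q.1, (c (π.symm q.1))⁻¹ * q.2)
  left_inv q := by simp
  right_inv q := by simp

theorem skew_apply (π : Equiv.Perm T) (c : T → G) (τ : T) (g : G) :
    skew π c (τ, g) = (π τ, c τ * g) := rfl

theorem skew_inv_apply (π : Equiv.Perm T) (c : T → G) (τ : T) (g : G) :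
    (skew π c)⁻¹ (τ, g) = (π.symm τ, (c (π.symm τ))⁻¹ * g) := rfl

def dg : (T → G) →* Equiv.Perm (T × G) where
  toFun c := skew 1 c
  map_one' := by ext q <;> simp [skew]
  map_mul' c d := by ext q <;> simp [skew, mul_assoc]

theorem dg_apply (c : T → G) (τ : T) (g : G) : dg c (τ, g) = (τ, c τ * g) := rfl

def fin : Equiv.Perm T →* Equiv.Perm (T × G) where
  toFun π := skew π 1
  map_one' := by ext q <;> simp [skew]
  map_mul' c d := by ext q <;> simp [skew]

theorem fin_apply (π : Equiv.Perm T) (τ : T) (g : G) :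
    (fin π : Equiv.Perm (T × G)) (τ, g) = (π τ, g) := by
  show skew π 1 (τ, g) = _
  simp [skew_apply]

theorem val_succ {n : ℕ} [NeZero n] (j : ZMod n) (k : ℕ) :
    (j + k).val = (j.val + k) % n := by
  rw [ZMod.val_add, ZMod.val_natCast, Nat.add_mod_mod]

theorem cyc {n : ℕ} [NeZero n] (Φ : Equiv.Perm (T × G)) (ι : ZMod n → T) (a : G)
    (h : ∀ j g, Φ (ι j, g) = (ι (j + 1), (if j.val + 1 = n then a else 1) * g))
    (k : ℕ) (j : ZMod n) (g : G) :
    (Φ ^ k) (ι j, g) = (ι (j + k), a ^ ((j.val + k) / n) * g) := by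
  have hn : 0 < n := Nat.pos_of_ne_zero (NeZero.ne n)
  induction k with
  | zero => simp [Nat.div_eq_of_lt (ZMod.val_lt j)]
  | succ k ih =>
    rw [pow_succ', Equiv.Perm.mul_apply, ih, h, val_succ, ← add_assoc j.val, Nat.succ_div]
    push_cast
    rw [← add_assoc]
    have : (j.val + k) % n + 1 = n ↔ n ∣ j.val + k + 1 := by
      rw [Nat.dvd_iff_mod_eq_zero, Nat.add_mod (j.val + k) 1]
      have h1 := Nat.mod_lt (j.val + k) hn
      generalize (j.val + k) % n = r at h1
      rcases Nat.lt_or_ge 1 n with h2 | h2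
      · rw [Nat.mod_eq_of_lt h2]
        constructor
        · intro h3; rw [h3, Nat.mod_self]
        · intro h3
          by_contra h4
          rw [Nat.mod_eq_of_lt (by omega)] at h3
          omega
      · obtain rfl : n = 1 := by omega
        omega
    by_cases h1 : n ∣ j.val + k + 1
    · rw [if_pos (this.2 h1), if_pos h1, pow_succ', mul_assoc]
    · rw [if_neg (fun h2 => h1 (this.1 h2)), if_neg h1]
      simp

end skew

noncomputable def ll : ℕ := NN + 4
noncomputable def bb : ℕ := 64 * ll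

theorem ll_ge : 5 ≤ ll := by have := NN_pos; unfold ll; omega
theorem bb_eq : bb = 64 * ll := rfl
instance : NeZero ll := ⟨by have := ll_ge; omega⟩
instance : NeZero bb := ⟨by have := ll_ge; rw [bb_eq]; omega⟩

abbrev TT := (Bool × ZMod bb) ⊕ (ZMod bb × S × ZMod ll)
abbrev FG := FreeGroup S

def inA (i : ZMod bb) : Prop := (i.val / ll) % 2 = 0
noncomputable instance : DecidablePred inA := fun _ => Classical.propDecidable _

noncomputable def swp (a : Bool) (s : S) : TT → TT
  | .inl (c, i) => if c = a ∧ inA i then .inr (i, s, 0) else .inl (c, i)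
  | .inr (i, r, j) => if r = s ∧ j = 0 ∧ inA i then .inl (a, i) else .inr (i, r, j)

theorem swp_inv (a : Bool) (s : S) : Function.Involutive (swp a s) := by
  rintro (⟨c, i⟩ | ⟨i, r, j⟩)
  · by_cases h : c = a ∧ inA i
    · simp [swp, h]
    · simp only [swp, h, if_false]
  · by_cases h : r = s ∧ j = 0 ∧ inA i
    · simp [swp, h]
    · simp only [swp, h, if_false]

noncomputable def pe : Equiv.Perm TT :=
  Equiv.sumCongr (Equiv.refl _)
    (Equiv.prodCongr (Equiv.refl _) (Equiv.prodCongr (Equiv.refl _) (Equiv.addRight 1)))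

noncomputable def pf : Equiv.Perm TT :=
  Equiv.sumCongr (Equiv.prodCongrRight fun a => Equiv.addRight (if a = true then 1 else -1))
    (Equiv.refl _)

noncomputable def pu : Equiv.Perm TT :=
  Equiv.sumCongr (Equiv.refl _) (Equiv.prodCongr (Equiv.refl _)
    (Equiv.prodCongrLeft fun j => Equiv.addRight (if j = 0 then 1 else 0)))

noncomputable def pt (a : Bool) (s : S) : Equiv.Perm TT := (swp_inv a s).toPerm

theorem pt_apply (a : Bool) (s : S) (τ : TT) : pt a s τ = swp a s τ := rfl

noncomputable def tact : S → Equiv.Perm TT := ![pe, pf, pu, pt true 0, pt false 0]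

noncomputable def ede : TT → Option (S × ℕ × Bool)
  | .inl _ => none
  | .inr (_, s, j) => some (s, j.val, true)

noncomputable def edf : TT → Option (S × ℕ × Bool)
  | .inl (true, i) => if bb - ll ≤ i.val then some (1, i.val - (bb - ll), true) else none
  | .inl (false, i) =>
    if bb - ll ≤ (i - 1).val then some (1, (i - 1).val - (bb - ll), false) else none
  | .inr _ => none

noncomputable def DD : Sys TT := ⟨tact, ![ede, edf, fun _ => none, fun _ => none, fun _ => none]⟩

noncomputable def sece : TT → FG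
  | .inl _ => 1
  | .inr (_, s, j) => if j.val + 1 = ll then FreeGroup.of s else 1

noncomputable def secf : TT → FG
  | .inl (true, i) => if i.val + 1 = bb then FreeGroup.of 1 else 1
  | .inl (false, i) => (if (i - 1).val + 1 = bb then FreeGroup.of 1 else 1)⁻¹
  | .inr _ => 1

noncomputable def sec : S → TT → FG := ![sece, secf, 1, 1, 1]

noncomputable def Ψ : FG →* Equiv.Perm (TT × FG) :=
  FreeGroup.lift fun s => skew (tact s) (sec s)

theorem Ψ_of (s : S) : Ψ (FreeGroup.of s) = skew (tact s) (sec s) := FreeGroup.lift_apply_of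

theorem pe_l (x : Bool × ZMod bb) : pe (.inl x) = .inl x := rfl
theorem pe_r (i : ZMod bb) (s : S) (j : ZMod ll) : pe (.inr (i, s, j)) = .inr (i, s, j + 1) := rfl
theorem pf_l (a : Bool) (i : ZMod bb) :
    pf (.inl (a, i)) = .inl (a, i + if a = true then 1 else -1) := rfl
theorem pf_r (x : ZMod bb × S × ZMod ll) : pf (.inr x) = .inr x := rfl
theorem pf_l' (a : Bool) (i : ZMod bb) :
    pf.symm (.inl (a, i)) = .inl (a, i - if a = true then 1 else -1) := by
  rw [Equiv.symm_apply_eq, pf_l]; simp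
theorem pf_r' (x : ZMod bb × S × ZMod ll) : pf.symm (.inr x) = .inr x := rfl
theorem pu_l (x : Bool × ZMod bb) : pu (.inl x) = .inl x := rfl
theorem pu_r (i : ZMod bb) (s : S) (j : ZMod ll) :
    pu (.inr (i, s, j)) = .inr (i, s + (if j = 0 then 1 else 0), j) := rfl

noncomputable def cE : TT → FG
  | .inl _ => 1
  | .inr (_, s, _) => FreeGroup.of s

theorem fix_pow {X : Type} (Φ : Equiv.Perm X) (x : X) (h : Φ x = x) (k : ℕ) : (Φ ^ k) x = x :=
  Equiv.Perm.pow_apply_eq_self_of_apply_eq_self h k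

theorem e_pow : Ψ (FreeGroup.of 0) ^ ll = dg cE := by
  have hl := ll_ge
  apply Equiv.ext
  rintro ⟨x | ⟨i, s, j⟩, g⟩
  · rw [fix_pow, dg_apply]
    · simp [cE]
    · rw [Ψ_of, skew_apply]; simp [tact, sec, sece, pe_l]
  · rw [cyc (Ψ (FreeGroup.of 0)) (fun j => .inr (i, s, j)) (FreeGroup.of s)
      (fun j g => by rw [Ψ_of, skew_apply]; rfl), dg_apply]
    have := ZMod.val_lt j
    rw [Nat.add_div_right _ (by omega), Nat.div_eq_of_lt this]
    simp [cE]

noncomputable def φ (a : Bool) : Equiv.Perm (TT × FG) :=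
  if a = true then Ψ (FreeGroup.of 1) else (Ψ (FreeGroup.of 1))⁻¹

theorem φ_pow (a : Bool) (k : ℕ) (i : ZMod bb) (g : FG) :
    (φ a ^ k) (.inl (a, i), g)
      = (.inl (a, i + k), FreeGroup.of 1 ^ ((i.val + k) / bb) * g) := by
  apply cyc (φ a) (fun i => .inl (a, i)) (FreeGroup.of 1)
  intro j g
  cases a
  · simp only [φ, Bool.false_eq_true, if_false, Ψ_of, skew_inv_apply]
    have : (tact 1).symm (.inl (false, j)) = .inl (false, j + 1) := by
      show pf.symm _ = _
      rw [pf_l']; simp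
    rw [this]
    show (_, (secf (.inl (false, j + 1)))⁻¹ * g) = _
    simp [secf]
  · simp only [φ, if_true, Ψ_of, skew_apply]
    rfl

theorem φ_r (a : Bool) (k : ℕ) (x : ZMod bb × S × ZMod ll) (g : FG) :
    (φ a ^ k) (.inr x, g) = (.inr x, g) := by
  apply fix_pow
  have : Ψ (FreeGroup.of 1) (.inr x, g) = (.inr x, g) := by
    rw [Ψ_of, skew_apply]
    show (pf (.inr x), secf (.inr x) * g) = _
    simp [pf_r, secf]
  cases a
  · simp only [φ, Bool.false_eq_true, if_false]
    rw [Equiv.Perm.inv_eq_iff_eq, this]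
  · simp only [φ, if_true, this]

theorem φ_l (a c : Bool) (k : ℕ) (i : ZMod bb) (g : FG) :
    ∃ i' g', (φ a ^ k) (.inl (c, i), g) = (.inl (c, i'), g') := by
  induction k with
  | zero => exact ⟨i, g, rfl⟩
  | succ k ih =>
    obtain ⟨i', g', h⟩ := ih
    rw [pow_succ', Equiv.Perm.mul_apply, h]
    cases a
    · simp only [φ, Bool.false_eq_true, if_false, Ψ_of, skew_inv_apply]
      exact ⟨_, _, Prod.ext (pf_l' _ _) rfl⟩
    · simp only [φ, if_true, Ψ_of, skew_apply]
      exact ⟨_, _, Prod.ext (pf_l _ _) rfl⟩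

noncomputable def cD (g : FG) : TT → FG
  | .inl (true, _) => g
  | .inl (false, _) => g⁻¹
  | .inr _ => 1

theorem f_pow (n : ℕ) : Ψ (FreeGroup.of 1 ^ (bb * n)) = dg (cD (FreeGroup.of 1 ^ n)) := by
  have hb : 0 < bb := Nat.pos_of_ne_zero (NeZero.ne bb)
  have key : ∀ (a : Bool) (i : ZMod bb) (g : FG), (φ a ^ (bb * n)) (.inl (a, i), g)
      = (.inl (a, i), FreeGroup.of 1 ^ n * g) := by
    intro a i g
    rw [φ_pow, Nat.add_mul_div_left _ _ hb, Nat.div_eq_of_lt (ZMod.val_lt i)]
    simp
  rw [map_pow]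
  apply Equiv.ext
  rintro ⟨⟨_ | _, i⟩ | x, g⟩
  · have := key false i ((FreeGroup.of 1 ^ n)⁻¹ * g)
    simp only [φ, Bool.false_eq_true, if_false, mul_inv_cancel_left, inv_pow] at this
    rw [Equiv.Perm.inv_eq_iff_eq] at this
    exact this.symm
  · exact key true i g
  · have := φ_r true (bb * n) x g
    simp only [φ, if_true] at this
    rw [this, dg_apply]; simp [cD]

def rep (n : ℕ) (s : S) (b : Bool) : List Lt := List.replicate n (s, b)

theorem mk_rep (n : ℕ) (s : S) (b : Bool) : FreeGroup.mk (rep n s b)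
    = (if b = true then FreeGroup.of s else (FreeGroup.of s)⁻¹) ^ n := by
  induction n with
  | zero => rfl
  | succ n ih =>
    rw [pow_succ', ← ih]
    cases b <;> rfl

def wπ (a : Bool) (s : S) : List Lt :=
  rep s.val 2 true ++ rep 1 (if a = true then 3 else 4) true ++ rep s.val 2 false

theorem pu_pow (k : ℕ) (i : ZMod bb) (s : S) (j : ZMod ll) :
    (pu ^ k) (.inr (i, s, j)) = .inr (i, s + (if j = 0 then Fin.ofNat 5 k else 0), j) := by
  induction k with
  | zero => simp
  | succ k ih =>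
    rw [pow_succ', Equiv.Perm.mul_apply, ih, pu_r]
    split_ifs
    · congr 3
      rw [add_assoc]
      congr 1
      apply Fin.ext
      simp [Fin.val_add]
    · simp

theorem conj_pt (a : Bool) (s : S) : pu ^ s.val * pt a 0 = pt a s * pu ^ s.val := by
  have hs : Fin.ofNat 5 s.val = s := by revert s; decide
  apply Equiv.ext
  rintro (⟨c, i⟩ | ⟨i, r, j⟩)
  · simp only [Equiv.Perm.mul_apply, fix_pow pu _ (pu_l _), pt_apply]
    by_cases h : c = a ∧ inA i
    · simp only [swp, h, and_self, if_true, pu_pow, hs, zero_add]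
    · simp only [swp, h, if_false, fix_pow pu _ (pu_l _)]
  · simp only [Equiv.Perm.mul_apply, pu_pow, hs, pt_apply]
    by_cases h : r = 0 ∧ j = 0 ∧ inA i
    · simp only [swp, h, and_self, if_true, zero_add, fix_pow pu _ (pu_l _)]
    · simp only [swp, h, if_false, pu_pow, hs]
      refine (if_neg ?_).symm
      rintro ⟨h1, h2, h3⟩
      rw [if_pos h2] at h1
      exact h ⟨by simpa using h1, h2, h3⟩

theorem Ψ_wπ (a : Bool) (s : S) : Ψ (FreeGroup.mk (wπ a s)) = fin (pt a s) := by
  have h2 : Ψ (FreeGroup.of 2) = fin pu := Ψ_of 2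
  have h3 : Ψ (FreeGroup.of (if a = true then 3 else 4)) = fin (pt a 0) := by
    cases a
    · exact Ψ_of 4
    · exact Ψ_of 3
  unfold wπ
  rw [← FreeGroup.mul_mk, ← FreeGroup.mul_mk, mk_rep, mk_rep, mk_rep]
  simp only [if_true, Bool.false_eq_true, if_false, map_mul, map_pow, map_inv, h2, h3, pow_one]
  rw [← map_pow, ← map_mul, conj_pt, map_mul, map_pow, inv_pow, mul_inv_cancel_right]

noncomputable def wK (a : Bool) (s : S) : List Lt :=
  wπ a s ++ rep ll 0 true ++ wπ a s ++ rep ll 0 false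

noncomputable def cK (a : Bool) (s : S) : TT → FG
  | .inl (c, i) => if c = a ∧ inA i then FreeGroup.of s else 1
  | .inr (i, r, j) => if r = s ∧ j = 0 ∧ inA i then (FreeGroup.of s)⁻¹ else 1

noncomputable def cK' (a : Bool) (s : S) : TT → FG
  | .inl (c, i) => if c = a ∧ ¬ inA i then FreeGroup.of s else 1
  | .inr (i, r, j) => if r = s ∧ j = 0 ∧ inA i then (FreeGroup.of s)⁻¹ else 1

theorem Ψ_wK (a : Bool) (s : S) : Ψ (FreeGroup.mk (wK a s)) = dg (cK a s) := by
  unfold wK
  rw [← FreeGroup.mul_mk, ← FreeGroup.mul_mk, ← FreeGroup.mul_mk, mk_rep, mk_rep]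
  simp only [if_true, Bool.false_eq_true, if_false, map_mul, map_pow, map_inv, Ψ_wπ, inv_pow,
    e_pow]
  rw [← map_inv]
  apply Equiv.ext
  rintro ⟨τ, g⟩
  simp only [Equiv.Perm.mul_apply, dg_apply, fin_apply]
  have : pt a s (pt a s τ) = τ := swp_inv a s τ
  rw [this, ← mul_assoc]
  congr 2
  show cE (swp a s τ) * (cE τ)⁻¹ = _
  rcases τ with ⟨c, i⟩ | ⟨i, r, j⟩
  · simp only [swp, cK]
    split_ifs <;> simp [cE]
  · simp only [swp, cK]
    split_ifs with h
    · simp [cE, h.1]
    · simp [cE]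

theorem inA_shift (i : ZMod bb) :
    (inA (i + (ll : ℕ)) ↔ ¬ inA i) ∧ (inA i → i.val + ll < bb) := by
  have hl := ll_ge
  have h1 := ZMod.val_lt i
  unfold inA
  rw [val_succ]
  generalize i.val = v at h1
  rw [bb_eq] at h1 ⊢
  have h2 : v / ll < 64 := by rwa [Nat.div_lt_iff_lt_mul (by omega)]
  have h3 : (v + ll) % (64 * ll) / ll = (v / ll + 1) % 64 := by
    rw [mul_comm 64 ll, Nat.mod_mul_right_div_self, Nat.add_div_right _ (by omega)]
  rw [h3]
  refine ⟨by omega, fun h => ?_⟩
  have h4 : v / ll < 63 := by omega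
  rw [Nat.div_lt_iff_lt_mul (by omega)] at h4
  omega

theorem φ_conj (a : Bool) (s : S) : φ a ^ ll * dg (cK a s) = dg (cK' a s) * φ a ^ ll := by
  apply Equiv.ext
  rintro ⟨⟨c, i⟩ | x, g⟩
  · simp only [Equiv.Perm.mul_apply, dg_apply]
    by_cases hc : c = a
    · subst hc
      rw [φ_pow, φ_pow, dg_apply]
      obtain ⟨h1, h2⟩ := inA_shift i
      by_cases h : inA i
      · simp [cK, cK', h, h1, Nat.div_eq_of_lt (h2 h)]
      · simp [cK, cK', h, h1]
    · obtain ⟨i', g', h⟩ := φ_l a c ll i g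
      rw [h, dg_apply]
      simp [cK, cK', hc, h]
  · simp only [Equiv.Perm.mul_apply, dg_apply, φ_r]
    rfl

noncomputable def wL (a : Bool) (s : S) : List Lt :=
  wK a s ++ (rep ll 1 a ++ wK a s ++ rep ll 1 (!a))

theorem Ψ_wL (a : Bool) (s : S) :
    Ψ (FreeGroup.mk (wL a s)) = dg (cK a s * cK' a s) := by
  have h1 : Ψ (if a = true then FreeGroup.of 1 else (FreeGroup.of 1)⁻¹) = φ a := by
    cases a <;> simp [φ]
  have h2 : Ψ (if (!a) = true then FreeGroup.of 1 else (FreeGroup.of 1)⁻¹) = (φ a)⁻¹ := by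
    cases a <;> simp [φ]
  unfold wL
  rw [← FreeGroup.mul_mk, ← FreeGroup.mul_mk, ← FreeGroup.mul_mk, mk_rep, mk_rep]
  simp only [map_mul, map_pow, h1, h2, Ψ_wK]
  rw [φ_conj, inv_pow, mul_inv_cancel_right]

noncomputable def wD1 (a : Bool) (w : List Lt) : List Lt :=
  w.flatMap fun σ => if σ.2 = true then wL a σ.1 else FreeGroup.invRev (wL a σ.1)

theorem Ψ_wD1 (a : Bool) (w : List Lt) : Ψ (FreeGroup.mk (wD1 a w))
    = dg (FreeGroup.lift (fun s => cK a s * cK' a s) (FreeGroup.mk w)) := by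
  induction w with
  | nil => simp [wD1, ← FreeGroup.one_eq_mk]
  | cons σ w ih =>
    have e1 : wD1 a (σ :: w) = (if σ.2 = true then wL a σ.1 else FreeGroup.invRev (wL a σ.1))
      ++ wD1 a w := List.flatMap_cons
    have e2 : FreeGroup.mk (σ :: w) = FreeGroup.mk [σ] * FreeGroup.mk w := rfl
    rw [e1, e2, ← FreeGroup.mul_mk, map_mul, map_mul, map_mul, ih]
    congr 1
    rcases σ with ⟨s, _ | _⟩
    · simp only [Bool.false_eq_true, if_false]
      rw [← FreeGroup.inv_mk, map_inv, Ψ_wL, ← map_inv]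
      simp
    · simp only [if_true]
      rw [Ψ_wL]
      simp

noncomputable def wD (w : List Lt) : List Lt := wD1 true w ++ wD1 false (FreeGroup.invRev w)

theorem lift_eval (c : S → TT → FG) (g : FG) (τ : TT) :
    FreeGroup.lift c g τ = FreeGroup.lift (fun s => c s τ) g := by
  have : (Pi.evalMonoidHom (fun _ : TT => FG) τ).comp (FreeGroup.lift c)
      = FreeGroup.lift (fun s => c s τ) := by
    ext s; simp
  exact DFunLike.congr_fun this g

theorem Ψ_wD (w : List Lt) : Ψ (FreeGroup.mk (wD w)) = dg (cD (FreeGroup.mk w)) := by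
  unfold wD
  rw [← FreeGroup.mul_mk, map_mul, Ψ_wD1, Ψ_wD1, ← FreeGroup.inv_mk, ← map_mul]
  congr 1
  generalize FreeGroup.mk w = g
  funext τ
  rw [Pi.mul_apply, lift_eval, lift_eval]
  have h1 : ∀ (a : Bool) (i : ZMod bb), (fun s => (cK a s * cK' a s) (.inl (a, i)))
      = FreeGroup.of := by
    intro a i
    funext s
    by_cases h : inA i <;> simp [cK, cK', h]
  have h2 : ∀ (a : Bool) (i : ZMod bb), (fun s => (cK a s * cK' a s) (.inl (!a, i)))
      = fun _ => 1 := by
    intro a i
    funext s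
    cases a <;> simp [cK, cK']
  have h3 : ∀ g : FG, FreeGroup.lift (fun _ : S => (1 : FG)) g = 1 := by
    intro g
    have : FreeGroup.lift (fun _ : S => (1 : FG)) = 1 := by ext s; simp
    rw [this]; rfl
  rcases τ with ⟨_ | _, i⟩ | ⟨i, r, j⟩
  · have := h2 true i
    simp only [Bool.not_true] at this
    rw [this, h1, h3]; simp [cD, FreeGroup.lift_of_apply]
  · have := h2 false i
    simp only [Bool.not_false] at this
    rw [this, h1, h3]; simp [cD, FreeGroup.lift_of_apply]
  · have : (fun s => (cK false s * cK' false s) (.inr (i, r, j)))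
      = fun s => (cK true s * cK' true s) (.inr (i, r, j)) := rfl
    rw [this, ← map_mul]; simp [cD]

theorem len_wL (a : Bool) (s : S) : (wL a s).length ≤ 6 * ll + 36 := by
  have := s.isLt
  simp only [wL, wK, wπ, rep, List.length_append, List.length_replicate]
  omega

theorem len_wD1 (a : Bool) (w : List Lt) : (wD1 a w).length ≤ (6 * ll + 36) * w.length := by
  induction w with
  | nil => simp [wD1]
  | cons σ w ih =>
    have e1 : wD1 a (σ :: w) = (if σ.2 = true then wL a σ.1 else FreeGroup.invRev (wL a σ.1))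
      ++ wD1 a w := List.flatMap_cons
    have := len_wL a σ.1
    rw [e1, List.length_append, List.length_cons, mul_add]
    split_ifs
    · omega
    · rw [FreeGroup.invRev_length]; omega

theorem len_wD (w : List Lt) : 2 * (wD w).length ≤ bb * w.length := by
  have h1 := len_wD1 true w
  have h2 := len_wD1 false (FreeGroup.invRev w)
  rw [FreeGroup.invRev_length] at h2
  have h3 : 4 * ((6 * ll + 36) * w.length) ≤ bb * w.length := by
    rw [← mul_assoc]
    apply Nat.mul_le_mul_right
    have := ll_ge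
    rw [bb_eq]; omega
  unfold wD
  rw [List.length_append]
  omega

end Pool.Agent.Lib.helper8.Dist
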