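import Pool.Agent.Lib.helper8.Dist2

set_option autoImplicit false

namespace Pool.Agent.Lib.helper8.Dist

abbrev AA := A TT

noncomputable def θ : TT → (ℕ → AA) → (ℕ → AA)
  | .inl (a, i), y => (F DD (1, a))^[i.val] (th0 (.inl (a, 0)) y)
  | .inr (i, s, j), y => (F DD (0, true))^[j.val] (th0 (.inr (i, s, 0)) y)

theorem ta_f (a : Bool) (i : ZMod bb) : ta DD (1, a) (.inl (a, i)) = .inl (a, i + 1) := by
  cases a
  · show pf.symm _ = _
    rw [pf_l']; simp
  · rfl

theorem edl_f (a : Bool) (i : ZMod bb) : edl DD (1, a) (.inl (a, i))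
    = if bb - ll ≤ i.val then some (1, i.val - (bb - ll), true) else none := by
  cases a
  · show (edf (pf.symm (.inl (false, i)))).map rev = _
    rw [pf_l']
    simp only [edf, Bool.false_eq_true, if_false, sub_neg_eq_add, add_sub_cancel_right]
    split_ifs <;> rfl
  · rfl

theorem un_it {T : Type} (D : Sys T) (σ : Lt) (τ : ℕ → T) (h : ∀ j, ta D σ (τ j) = τ (j + 1))
    {x : ℕ → A T} (hx : Un (τ 0) x) (n : ℕ) : Un (τ n) ((F D σ)^[n] x) := by
  induction n with
  | zero => exact hx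
  | succ n ih => rw [Function.iterate_succ_apply', ← h]; exact ih.F D σ

theorem θ_un (τ : TT) (y : ℕ → AA) : Un τ (θ τ y) := by
  rcases τ with ⟨a, i⟩ | ⟨i, s, j⟩
  · have := un_it DD (1, a) (fun j => .inl (a, (j : ZMod bb))) (fun j => by
      rw [ta_f]; push_cast; rfl) (x := th0 (.inl (a, 0)) y)
      (by simpa using th0_un _ y) i.val
    simpa [θ] using this
  · have := un_it DD (0, true) (fun j => .inr (i, s, (j : ZMod ll))) (fun j => by
      push_cast; rfl) (x := th0 (.inr (i, s, 0)) y)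
      (by simpa using th0_un _ y) j.val
    simpa [θ] using this

theorem θ_sh (τ : TT) (y : ℕ → AA) : sh (sh (θ τ y)) = θ τ (sh y) := by
  rcases τ with ⟨a, i⟩ | ⟨i, s, j⟩ <;> simp only [θ, ← it_sh, th0_sh]

theorem θ_ag (τ : TT) {m n : ℕ} {x y : ℕ → AA} (h : Ag m x y) (hn : n + 2 * bb ≤ 2 * m) :
    Ag n (θ τ x) (θ τ y) := by
  rcases τ with ⟨a, i⟩ | ⟨i, s, j⟩
  · have := ZMod.val_lt i
    exact it_ag _ _ _ ((th0_ag _ h).mono (by omega))
  · have := ZMod.val_lt j
    have := bb_eq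
    exact it_ag _ _ _ ((th0_ag _ h).mono (by omega))

theorem f_idle (a : Bool) (y : ℕ → AA) (k : ℕ) (hk : k ≤ bb - ll) :
    (F DD (1, a))^[k] (th0 (.inl (a, 0)) y) = th0 (.inl (a, (k : ZMod bb))) y := by
  have hl := ll_ge
  have hb := bb_eq
  induction k with
  | zero => simp
  | succ k ih =>
    rw [Function.iterate_succ_apply', ih (by omega), idle, ta_f]
    · push_cast; rfl
    · rw [edl_f, if_neg]
      rw [ZMod.val_natCast, Nat.mod_eq_of_lt (by omega)]
      omega

theorem θ_rest (a : Bool) (i : ZMod bb) (h : i.val ≤ bb - ll) (y : ℕ → AA) :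
    θ (.inl (a, i)) y = th0 (.inl (a, i)) y := by
  simp only [θ]
  rw [f_idle a y _ h, ZMod.natCast_zmod_val]

theorem θ_rest' (i : ZMod bb) (s : S) (y : ℕ → AA) :
    θ (.inr (i, s, 0)) y = th0 (.inr (i, s, 0)) y := by
  simp [θ]

theorem val_succ' {n : ℕ} [NeZero n] (j : ZMod n) :
    (j.val + 1 = n ∧ j + 1 = 0) ∨ (j.val + 1 ≠ n ∧ (j + 1).val = j.val + 1) := by
  have h := val_succ j 1
  have h1 := ZMod.val_lt j
  rw [Nat.cast_one] at h
  by_cases h2 : j.val + 1 = n
  · left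
    refine ⟨h2, ?_⟩
    rw [← ZMod.val_eq_zero, h, h2, Nat.mod_self]
  · right
    exact ⟨h2, by rw [h, Nat.mod_eq_of_lt (by omega)]⟩

theorem step_e (i : ZMod bb) (s : S) (j : ZMod ll) (y : ℕ → AA) (hy : Alt y) :
    F DD (0, true) (θ (.inr (i, s, j)) y)
      = θ (.inr (i, s, j + 1)) (if j.val + 1 = ll then F DD (s, true) y else y) := by
  rcases val_succ' j with ⟨h1, h2⟩ | ⟨h1, h2⟩
  · rw [if_pos h1, h2, θ_rest']
    simp only [θ]
    rw [← Function.iterate_succ_apply' (F DD (0, true)), Nat.succ_eq_add_one, h1]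
    have := sim DD (0, true) s (fun j => .inr (i, s, (j : ZMod ll))) (fun j hj => by
      show some (s, (j : ZMod ll).val, true) = _
      rw [ZMod.val_natCast, Nat.mod_eq_of_lt (show j < ll from hj)]) (fun j _ => by push_cast; rfl) y hy
    rw [show NN + 4 = ll from rfl] at this
    simpa using this
  · rw [if_neg h1]
    simp only [θ]
    rw [h2, Function.iterate_succ_apply']

theorem step_f (a : Bool) (i : ZMod bb) (y : ℕ → AA) (hy : Alt y) :
    F DD (1, a) (θ (.inl (a, i)) y)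
      = θ (.inl (a, i + 1)) (if i.val + 1 = bb then F DD (1, true) y else y) := by
  have hl := ll_ge
  have hb := bb_eq
  rcases val_succ' i with ⟨h1, h2⟩ | ⟨h1, h2⟩
  · rw [if_pos h1, h2, θ_rest a 0 (by simp)]
    simp only [θ]
    rw [← Function.iterate_succ_apply' (F DD (1, a)), Nat.succ_eq_add_one, h1]
    have := sim DD (1, a) 1 (fun j => .inl (a, ((bb - ll + j : ℕ) : ZMod bb))) (fun j hj => by
      have hj' : j < ll := hj
      rw [edl_f, ZMod.val_natCast, Nat.mod_eq_of_lt (by omega), if_pos (by omega),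
        Nat.add_sub_cancel_left]) (fun j _ => by rw [ta_f, ← add_assoc]; push_cast; rfl) y hy
    rw [show NN + 4 = ll from rfl, show bb - ll + ll = bb by omega, add_zero,
      ← f_idle a y _ le_rfl, ← Function.iterate_add_apply,
      show ll + (bb - ll) = bb by omega] at this
    simpa using this
  · rw [if_neg h1]
    simp only [θ]
    rw [h2, Function.iterate_succ_apply']

theorem F_fix {T : Type} (D : Sys T) (σ : Lt) {τ : T} {x : ℕ → A T} (h : Un τ x)
    (h1 : edl D σ τ = none) (h2 : ta D σ τ = τ) : F D σ x = x := by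
  funext i
  unfold F
  cases hi : (x i).1
  · have : (x (i + 1)).1 = true := by rw [h.1, hi]; rfl
    simp only [Bool.false_eq_true, if_false, msg, h.2 _ this, h1, mm, P]
  · simp only [if_true, C, kap, h.2 _ hi, h1, h2, kk, zero_mul, add_zero]
    rw [← h.2 _ hi]

def U := {x : ℕ → AA // ∃ τ, Un τ x}

theorem U.alt (x : U) : Alt x.1 := x.2.choose_spec.1

noncomputable def FU (σ : Lt) (x : U) : U :=
  ⟨F DD σ x.1, x.2.elim fun _ h => ⟨_, h.F DD σ⟩⟩

noncomputable def genU (s : S) : Equiv.Perm U where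
  toFun := FU (s, true)
  invFun := FU (s, false)
  left_inv x := Subtype.ext (F_inv DD x.2.choose_spec (s, true))
  right_inv x := Subtype.ext (F_inv DD x.2.choose_spec (s, false))

noncomputable def ρ : FG →* Equiv.Perm U := FreeGroup.lift genU

theorem ρ_of (s : S) (x : U) : (ρ (FreeGroup.of s) x).1 = F DD (s, true) x.1 := by
  rw [ρ, FreeGroup.lift_apply_of]; rfl

theorem ρ_of' (s : S) (x : U) : (ρ (FreeGroup.of s)⁻¹ x).1 = F DD (s, false) x.1 := by
  rw [map_inv, ρ, FreeGroup.lift_apply_of]; rfl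

noncomputable def θU (τ : TT) (y : U) : U := ⟨θ τ y.1, τ, θ_un τ y.1⟩

def shU (x : U) : U := ⟨sh x.1, x.2.elim fun τ h => ⟨τ, h.sh⟩⟩

theorem shU_val (x : U) : (shU x).1 = sh x.1 := rfl

theorem step_t (a : Bool) (s : S) (hs : ∀ τ, ta DD (s, true) τ = swp a 0 τ)
    (he : ∀ τ, edl DD (s, true) τ = none) (τ : TT) (y : ℕ → AA) :
    F DD (s, true) (θ τ y) = θ (swp a 0 τ) y := by
  have hr : ∀ i, inA i → i.val ≤ bb - ll := fun i h => by
    have := (inA_shift i).2 h; omega
  rcases τ with ⟨c, i⟩ | ⟨i, r, j⟩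
  · by_cases h : c = a ∧ inA i
    · rw [θ_rest _ _ (hr i h.2), idle _ _ _ (he _), hs]
      simp only [swp, h, and_self, if_true, θ_rest']
    · have : swp a 0 (.inl (c, i)) = .inl (c, i) := by simp only [swp, h, if_false]
      rw [this]
      exact F_fix _ _ (θ_un _ _) (he _) (by rw [hs, this])
  · by_cases h : r = 0 ∧ j = 0 ∧ inA i
    · obtain ⟨rfl, rfl, h⟩ := h
      rw [θ_rest', idle _ _ _ (he _), hs]
      simp only [swp, h, and_self, if_true, θ_rest _ _ (hr i h)]
    · have : swp a 0 (.inr (i, r, j)) = .inr (i, r, j) := by simp only [swp, h, if_false]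
      rw [this]
      exact F_fix _ _ (θ_un _ _) (he _) (by rw [hs, this])

theorem step (s : S) (τ : TT) (y : U) :
    ρ (FreeGroup.of s) (θU τ y) = θU (tact s τ) (ρ (sec s τ) y) := by
  apply Subtype.ext
  rw [ρ_of]
  show F DD (s, true) (θ τ y.1) = θ (tact s τ) (ρ (sec s τ) y).1
  have one : (ρ 1 y).1 = y.1 := by simp
  fin_cases s
  · rcases τ with x | ⟨i, s, j⟩
    · exact (F_fix _ _ (θ_un _ _) rfl rfl).trans (congrArg _ one.symm)
    · refine (step_e i s j y.1 y.alt).trans ?_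
      show _ = θ _ (ρ (if j.val + 1 = ll then FreeGroup.of s else 1) y).1
      split_ifs
      · rw [ρ_of]; rfl
      · rw [one]; rfl
  · rcases τ with ⟨_ | _, i⟩ | x
    · show F DD (1, true) _ = θ (.inl (false, i + -1))
        (ρ (if (i - 1).val + 1 = bb then FreeGroup.of 1 else 1)⁻¹ y).1
      rw [← sub_eq_add_neg]
      set y' := ρ (if (i - 1).val + 1 = bb then FreeGroup.of 1 else 1)⁻¹ y with hy'
      have h1 := step_f false (i - 1) y'.1 y'.alt
      have h2 : (if (i - 1).val + 1 = bb then F DD (1, true) y'.1 else y'.1) = y.1 := by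
        rw [hy']
        split_ifs
        · rw [← ρ_of]; simp
        · simp
      rw [h2, sub_add_cancel] at h1
      rw [← h1]
      exact F_inv DD (θ_un _ _) (1, false)
    · refine (step_f true i y.1 y.alt).trans ?_
      show _ = θ _ (ρ (if i.val + 1 = bb then FreeGroup.of 1 else 1) y).1
      split_ifs
      · rw [ρ_of]; rfl
      · rw [one]; rfl
    · exact (F_fix _ _ (θ_un _ _) rfl rfl).trans (congrArg _ one.symm)
  · refine Eq.trans ?_ (congrArg _ one.symm)
    show F DD (2, true) _ = θ (pu τ) y.1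
    rcases τ with x | ⟨i, s, j⟩
    · exact F_fix _ _ (θ_un _ _) rfl rfl
    · by_cases hj : j = 0
      · subst hj
        rw [pu_r, θ_rest', θ_rest', idle _ _ _ rfl]
        rfl
      · have : pu (.inr (i, s, j)) = .inr (i, s, j) := by rw [pu_r, if_neg hj, add_zero]
        rw [this]
        exact F_fix _ _ (θ_un _ _) rfl this
  · exact (step_t true 3 (fun _ => rfl) (fun _ => rfl) τ y.1).trans (congrArg _ one.symm)
  · exact (step_t false 4 (fun _ => rfl) (fun _ => rfl) τ y.1).trans (congrArg _ one.symm)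

noncomputable def J (y : U) (q : TT × FG) : U := θU q.1 (ρ q.2 y)

theorem struct (y : U) (w : FG) : ∀ q, ρ w (J y q) = J y (Ψ w q) := by
  induction w using FreeGroup.induction_on with
  | C1 => simp
  | of s =>
    rintro ⟨τ, g⟩
    rw [Ψ_of, skew_apply]
    simp only [J, step, map_mul, Equiv.Perm.mul_apply]
  | inv_of s ih =>
    intro q
    rw [map_inv, map_inv, Equiv.Perm.inv_eq_iff_eq, ih]
    simp
  | mul a b iha ihb =>
    intro q
    simp only [map_mul, Equiv.Perm.mul_apply, iha, ihb]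

theorem struct1 (w : FG) (τ : TT) (y : U) :
    ρ w (θU τ y) = θU (Ψ w (τ, 1)).1 (ρ (Ψ w (τ, 1)).2 y) := by
  have := struct y w (τ, 1)
  simpa [J] using this

theorem ρ_sh (g : FG) : ∀ x : U, ρ g (shU x) = shU (ρ g x) := by
  induction g using FreeGroup.induction_on with
  | C1 => simp
  | of s => intro x; apply Subtype.ext; rw [ρ_of, shU_val, shU_val, ρ_of]; rfl
  | inv_of s _ => intro x; apply Subtype.ext; rw [ρ_of', shU_val, shU_val, ρ_of']; rfl
  | mul a b iha ihb => intro x; simp only [map_mul, Equiv.Perm.mul_apply, iha, ihb]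

theorem ρ_loc (g : FG) : ∃ r, ∀ (m : ℕ) (x y : U), Ag (m + r) x.1 y.1 →
    Ag m (ρ g x).1 (ρ g y).1 := by
  induction g using FreeGroup.induction_on with
  | C1 => exact ⟨0, fun m x y h => by simpa using h⟩
  | of s => exact ⟨2, fun m x y h => by rw [ρ_of, ρ_of]; exact F_ag _ _ h⟩
  | inv_of s _ => exact ⟨2, fun m x y h => by rw [ρ_of', ρ_of']; exact F_ag _ _ h⟩
  | mul a b iha ihb =>
    obtain ⟨r, hr⟩ := iha
    obtain ⟨r', hr'⟩ := ihb
    refine ⟨r + r', fun m x y h => ?_⟩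
    simp only [map_mul, Equiv.Perm.mul_apply]
    exact hr _ _ _ (hr' _ _ _ (by rwa [add_assoc]))

def Y : ℕ → Set U
  | 0 => Set.univ
  | k + 1 => {x | ∃ y ∈ Y k, ∃ τ, x = θU τ y ∨ x = shU (θU τ y)}

theorem θU_sh (τ : TT) (y : U) : shU (shU (θU τ y)) = θU τ (shU y) :=
  Subtype.ext (θ_sh τ y.1)

theorem Y_sh : ∀ (k : ℕ) {x : U}, x ∈ Y k → shU x ∈ Y k
  | 0, _, _ => trivial
  | k + 1, x, h => by
    obtain ⟨y, hy, τ, rfl | rfl⟩ := h
    · exact ⟨y, hy, τ, Or.inr rfl⟩
    · exact ⟨shU y, Y_sh k hy, τ, Or.inl (θU_sh τ y)⟩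

theorem Y_ρ : ∀ (k : ℕ) (g : FG) {x : U}, x ∈ Y k → ρ g x ∈ Y k
  | 0, _, _, _ => trivial
  | k + 1, g, x, h => by
    obtain ⟨y, hy, τ, rfl | rfl⟩ := h
    · exact ⟨_, Y_ρ k _ hy, _, Or.inl (struct1 g τ y)⟩
    · exact ⟨_, Y_ρ k _ hy, _, Or.inr (by rw [ρ_sh, struct1])⟩

theorem Y_succ : ∀ (k : ℕ) {x : U}, x ∈ Y (k + 1) → x ∈ Y k
  | 0, _, _ => trivial
  | k + 1, _, ⟨y, hy, h⟩ => ⟨y, Y_succ k hy, h⟩

theorem Y_mono {k n : ℕ} (h : k ≤ n) {x : U} (hx : x ∈ Y n) : x ∈ Y k := by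
  induction h with
  | refl => exact hx
  | step _ ih => exact ih (Y_succ _ hx)

theorem Y_onto : ∀ (k : ℕ) {x : U}, x ∈ Y k → ∃ y ∈ Y k, shU y = x
  | 0, x, _ => by
    obtain ⟨x, τ, h⟩ := x
    refine ⟨⟨fun i => Nat.casesOn i (!(x 0).1, false, τ, 0) x, τ, ?_, ?_⟩, trivial, rfl⟩
    · intro i
      rcases i with _ | i
      · simp
      · exact h.1 i
    · intro i
      rcases i with _ | i
      · intro _; rfl
      · exact h.2 i
  | k + 1, x, h => by
    obtain ⟨y, hy, τ, rfl | rfl⟩ := h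
    · obtain ⟨z, hz, rfl⟩ := Y_onto k hy
      exact ⟨shU (θU τ z), ⟨z, hz, τ, Or.inr rfl⟩, θU_sh τ z⟩
    · exact ⟨θU τ y, ⟨y, hy, τ, Or.inl rfl⟩, rfl⟩

noncomputable def ww (k : ℕ) : List Lt := wD^[k] [(1, true)]

theorem len_ww (k : ℕ) : 2 ^ k * (ww k).length ≤ bb ^ k := by
  induction k with
  | zero => simp [ww]
  | succ k ih =>
    have h : ww (k + 1) = wD (ww k) := Function.iterate_succ_apply' _ _ _
    have := len_wD (ww k)
    rw [h, pow_succ, pow_succ]
    calc 2 ^ k * 2 * (wD (ww k)).length = 2 ^ k * (2 * (wD (ww k)).length) := by ring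
      _ ≤ 2 ^ k * (bb * (ww k).length) := Nat.mul_le_mul_left _ this
      _ = (2 ^ k * (ww k).length) * bb := by ring
      _ ≤ _ := Nat.mul_le_mul_right _ ih

theorem ww_eq (k : ℕ) : ∀ x ∈ Y k,
    ρ (FreeGroup.mk (ww k)) x = ρ (FreeGroup.of 1 ^ (bb ^ k)) x := by
  induction k with
  | zero => intro x _; rw [pow_zero, pow_one]; rfl
  | succ k ih =>
    have h : ww (k + 1) = wD (ww k) := Function.iterate_succ_apply' _ _ _
    have key : ∀ y ∈ Y k, ∀ τ, ρ (FreeGroup.mk (ww (k + 1))) (θU τ y)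
        = ρ (FreeGroup.of 1 ^ (bb ^ (k + 1))) (θU τ y) := by
      intro y hy τ
      rw [struct1, struct1, h, Ψ_wD, pow_succ', f_pow, dg_apply, dg_apply, mul_one, mul_one]
      congr 1
      rcases τ with ⟨_ | _, i⟩ | x
      · simp only [cD]
        have := ih _ (Y_ρ k (FreeGroup.of 1 ^ (bb ^ k))⁻¹ hy)
        rw [map_inv (f := ρ) (FreeGroup.mk (ww k)), Equiv.Perm.inv_eq_iff_eq, this]
        simp
      · exact ih y hy
      · rfl
    rintro x ⟨y, hy, τ, rfl | rfl⟩
    · exact key y hy τ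
    · rw [ρ_sh, ρ_sh, key y hy τ]

theorem Y_cover (k : ℕ) : ∃ c : ℕ, ∀ n : ℕ, ∃ Z : Finset (ℕ → AA),
    Z.card ≤ c * (Fintype.card AA) ^ (n / 2 ^ k) ∧ ∀ x ∈ Y k, ∃ z ∈ Z, Ag n z x.1 := by
  classical
  have hq : 0 < Fintype.card AA := Fintype.card_pos_iff.2 ⟨(true, true, .inl (true, 0), 0)⟩
  induction k with
  | zero =>
    refine ⟨1, fun n => ⟨(Finset.univ : Finset (Fin n → AA)).image
      fun w i => if h : i < n then w ⟨i, h⟩ else (true, true, .inl (true, 0), 0), ?_, ?_⟩⟩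
    · refine Finset.card_image_le.trans ?_
      simp only [Finset.card_univ, Fintype.card_fun, Fintype.card_fin, pow_zero, Nat.div_one,
        one_mul, le_refl]
    · intro x _
      refine ⟨_, Finset.mem_image_of_mem _ (Finset.mem_univ fun i : Fin n => x.1 i), fun i hi => ?_⟩
      simp [hi]
  | succ k ih =>
    obtain ⟨c, hc⟩ := ih
    generalize Fintype.card AA = q at hq hc
    refine ⟨2 * Fintype.card TT * c * q ^ (bb + 2), fun n => ?_⟩
    obtain ⟨Z, h1, h2⟩ := hc (n / 2 + (bb + 1))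
    refine ⟨((Finset.univ : Finset TT) ×ˢ Z).image (fun p => θ p.1 p.2) ∪
      ((Finset.univ : Finset TT) ×ˢ Z).image (fun p => sh (θ p.1 p.2)), ?_, ?_⟩
    · have h3 : (n / 2 + (bb + 1)) / 2 ^ k ≤ n / 2 ^ (k + 1) + (bb + 2) := by
        have hK : 0 < 2 ^ k := by positivity
        have a1 := Nat.add_div_le_div_add_div_add_one (n / 2) (bb + 1) (2 ^ k)
        have a2 : (bb + 1) / 2 ^ k ≤ bb + 1 := Nat.div_le_self _ _
        rw [pow_succ', ← Nat.div_div_eq_div_mul]
        omega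
      have h4 : Z.card ≤ c * (q ^ (n / 2 ^ (k + 1)) * q ^ (bb + 2)) := by
        rw [← pow_add]
        exact h1.trans (Nat.mul_le_mul_left _ (Nat.pow_le_pow_right hq h3))
      have h5 : ((Finset.univ : Finset TT) ×ˢ Z).card
          ≤ Fintype.card TT * (c * (q ^ (n / 2 ^ (k + 1)) * q ^ (bb + 2))) := by
        rw [Finset.card_product, Finset.card_univ]
        exact Nat.mul_le_mul_left _ h4
      refine (Finset.card_union_le _ _).trans ((Nat.add_le_add
        (Finset.card_image_le.trans h5) (Finset.card_image_le.trans h5)).trans (le_of_eq ?_))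
      ring
    · rintro x ⟨y, hy, τ, rfl | rfl⟩
      · obtain ⟨z, hz, h⟩ := h2 y hy
        refine ⟨θ τ z, Finset.mem_union_left _ (Finset.mem_image.2
          ⟨(τ, z), by simp [hz], rfl⟩), θ_ag τ h (by omega)⟩
      · obtain ⟨z, hz, h⟩ := h2 y hy
        refine ⟨sh (θ τ z), Finset.mem_union_right _ (Finset.mem_image.2
          ⟨(τ, z), by simp [hz], rfl⟩), sh_ag (θ_ag τ h (by omega))⟩

end Pool.Agent.Lib.helper8.Dist
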