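import Pool.Agent.Lib.helper8.Dist3

set_option autoImplicit false

namespace Pool.Agent.Lib.helper8.Dist

structure Core (B : Type) where
  X : Set (ℕ → B)
  act : FG → (ℕ → B) → (ℕ → B)
  closed : ∀ x, (∀ m, ∃ y ∈ X, Ag m y x) → x ∈ X
  shift : ∀ x ∈ X, sh x ∈ X
  onto : ∀ x ∈ X, ∃ y ∈ X, sh y = x
  maps : ∀ g, ∀ x ∈ X, act g x ∈ X
  one : ∀ x ∈ X, act 1 x = x
  mul : ∀ g h, ∀ x ∈ X, act (g * h) x = act g (act h x)
  comm : ∀ g, ∀ x ∈ X, act g (sh x) = sh (act g x)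
  loc : ∀ g, ∃ r, ∀ m, ∀ x ∈ X, ∀ y ∈ X, Ag (m + r) x y → Ag m (act g x) (act g y)
  inf : ∀ p, 0 < p → ∃ x ∈ X, act (FreeGroup.of 1 ^ p) x ≠ x
  dist : ∀ ε : ℝ, 0 < ε → ∃ N : ℕ, ∀ n ≥ N, ∃ l : List Lt, (l.length : ℝ) ≤ ε * n ∧
    ∀ x ∈ X, act (FreeGroup.mk l) x = act (FreeGroup.of 1 ^ n) x
  ent : ∃ q : ℕ, ∀ k : ℕ, ∃ c : ℕ, ∀ n : ℕ, ∃ Z : Finset (ℕ → B),
    Z.card ≤ c * q ^ (n / 2 ^ k) ∧ ∀ x ∈ X, ∃ z ∈ Z, Ag n z x

def XU : Set U := {x | ∀ k m : ℕ, ∃ y ∈ Y k, Ag m y.1 x.1}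

theorem un_of_approx (x : ℕ → AA) (h : ∀ m, ∃ y : U, Ag m y.1 x) : ∃ τ, Un τ x := by
  have ha : Alt x := by
    intro i
    obtain ⟨z, h2⟩ := h (i + 2)
    rw [← h2 i (by omega), ← h2 (i + 1) (by omega)]
    exact z.alt i
  have : ∃ j, (x j).1 = true := by
    cases h0 : (x 0).1
    · exact ⟨1, by rw [ha 0, h0]; rfl⟩
    · exact ⟨0, h0⟩
  obtain ⟨j, hj⟩ := this
  refine ⟨(x j).2.2.1, ha, fun i hi => ?_⟩
  obtain ⟨⟨z, τ, hz⟩, h2⟩ := h (i + j + 1)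
  have e1 : z i = x i := h2 i (by omega)
  have e2 : z j = x j := h2 j (by omega)
  rw [← e1] at hi ⊢
  rw [← e2] at hj ⊢
  rw [hz.2 i hi, hz.2 j hj]

theorem XU_sh {x : U} (h : x ∈ XU) : shU x ∈ XU := by
  intro k m
  obtain ⟨z, hz, h2⟩ := h k (m + 1)
  exact ⟨shU z, Y_sh k hz, sh_ag h2⟩

theorem XU_ρ (g : FG) {x : U} (h : x ∈ XU) : ρ g x ∈ XU := by
  intro k m
  obtain ⟨r, hr⟩ := ρ_loc g
  obtain ⟨z, hz, h2⟩ := h k (m + r)
  exact ⟨ρ g z, Y_ρ k g hz, hr _ _ _ h2⟩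

theorem XU_θ (τ : TT) {x : U} (h : x ∈ XU) : θU τ x ∈ XU := by
  intro k m
  obtain ⟨z, hz, h2⟩ := h k (m + bb)
  exact ⟨θU τ z, Y_succ k ⟨z, hz, τ, Or.inl rfl⟩, θ_ag τ h2 (by omega)⟩

theorem XU_onto {x : U} (h : x ∈ XU) : ∃ y ∈ XU, shU y = x := by
  have h1 : ∀ n, ∃ z ∈ Y n, Ag n (sh z.1) x.1 := by
    intro n
    obtain ⟨y, hy, h2⟩ := h n n
    obtain ⟨z, hz, rfl⟩ := Y_onto n hy
    exact ⟨z, hz, h2⟩
  choose z hz1 hz2 using h1
  obtain ⟨a, ha⟩ := Finite.exists_infinite_fiber (fun n => (z n).1 0)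
  have h2 : ∀ k m : ℕ, ∃ y ∈ Y k, Ag m y.1 (fun i => Nat.casesOn i a x.1) := by
    intro k m
    obtain ⟨n, hn, hn'⟩ := (Set.infinite_coe_iff.1 ha).exists_gt (k + m)
    refine ⟨z n, Y_mono (by omega) (hz1 n), fun i hi => ?_⟩
    rcases i with _ | i
    · exact hn
    · exact hz2 n i (by omega)
  exact ⟨⟨_, un_of_approx _ fun m => (h2 0 m).imp fun _ h => h.2⟩, h2, rfl⟩

noncomputable def τ0 : TT := .inl (true, 0)

theorem θ0 (y : ℕ → AA) : θ τ0 y = th0 τ0 y := θ_rest _ _ (by simp) _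

theorem XU_ne : ∃ x, x ∈ XU := by
  let a : U := ⟨th0 τ0 fun _ => (true, true, τ0, 0), τ0, th0_un _ _⟩
  let s : ℕ → U := fun j => (θU τ0)^[j] a
  have e : ∀ j, s (j + 1) = θU τ0 (s j) := fun j => Function.iterate_succ_apply' _ j a
  have e' : ∀ j, (s (j + 1)).1 = th0 τ0 (s j).1 := fun j => by rw [e, ← θ0]; rfl
  have h1 : ∀ j, Ag (j + 1) (s j).1 (s (j + 1)).1 := by
    intro j
    induction j with
    | zero =>
      intro i hi
      obtain rfl : i = 0 := by omega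
      rw [e']
      rfl
    | succ j ih =>
      have := (th0_ag τ0 ih).mono (show j + 1 + 1 ≤ 2 * (j + 1) by omega)
      rwa [← e', ← e'] at this
  have h2 : ∀ d j, Ag (j + 1) (s j).1 (s (j + d)).1 := by
    intro d j
    induction d with
    | zero => exact fun _ _ => rfl
    | succ d ih => exact ih.trans ((h1 (j + d)).mono (by omega))
  have h3 : ∀ k, s k ∈ Y k := by
    intro k
    induction k with
    | zero => trivial
    | succ k ih => exact ⟨s k, ih, τ0, Or.inl (e k)⟩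
  have h4 : ∀ k m : ℕ, ∃ y ∈ Y k, Ag m y.1 (fun i => (s i).1 i) := by
    refine fun k m => ⟨s (k + m), Y_mono (by omega) (h3 _), fun i hi => ?_⟩
    have := h2 (k + m - i) i i (by omega)
    rw [show i + (k + m - i) = k + m by omega] at this
    exact this.symm
  exact ⟨⟨_, un_of_approx _ fun m => (h4 0 m).imp fun _ h => h.2⟩, h4⟩

theorem no_period (p : ℕ) : 0 < p → ¬ ∀ x ∈ XU, ρ (FreeGroup.of 1 ^ p) x = x := by
  induction p using Nat.strong_induction_on with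
  | _ p ih =>
    intro hp h
    have hl := ll_ge
    have hb := bb_eq
    have key : ∀ x, ρ (FreeGroup.of 1 ^ p) (θU τ0 x)
        = θU (.inl (true, (p : ZMod bb))) (ρ (FreeGroup.of 1 ^ (p / bb)) x) := by
      intro x
      have := φ_pow true p 0 1
      simp only [φ, if_true, zero_add, ZMod.val_zero, mul_one] at this
      rw [struct1, map_pow, τ0, this]
    obtain ⟨x0, hx0⟩ := XU_ne
    have h1 := key x0
    rw [h _ (XU_θ τ0 hx0)] at h1
    have h2 : (p : ZMod bb) = 0 := by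
      have u1 := θ_un τ0 x0.1
      have u2 := θ_un (.inl (true, (p : ZMod bb))) (ρ (FreeGroup.of 1 ^ (p / bb)) x0).1
      have h3 := congrArg Subtype.val h1
      simp only [θU] at h3
      rw [← h3] at u2
      have h4 : (θ τ0 x0.1 1).1 = true := by
        rw [θ0]; rfl
      have h5 := (u1.2 1 h4).symm.trans (u2.2 1 h4)
      simp only [τ0, Sum.inl.injEq, Prod.mk.injEq, true_and] at h5
      exact h5.symm
    have h3 : bb ∣ p := (ZMod.natCast_eq_zero_iff p bb).1 h2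
    refine ih (p / bb) (Nat.div_lt_self hp (by omega))
      (Nat.div_pos (Nat.le_of_dvd hp h3) (by omega)) fun x hx => ?_
    have h4 := key x
    rw [h _ (XU_θ τ0 hx), h2] at h4
    have h5 := congrArg Subtype.val h4
    simp only [θU] at h5
    rw [θ0] at h5
    exact Subtype.ext (th0_inj τ0 (h5.trans (θ0 _))).symm

theorem eq_on_XU {g h : FG} {k : ℕ} (H : ∀ x ∈ Y k, ρ g x = ρ h x) :
    ∀ x ∈ XU, ρ g x = ρ h x := by
  intro x hx
  obtain ⟨r, hr⟩ := ρ_loc g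
  obtain ⟨r', hr'⟩ := ρ_loc h
  apply Subtype.ext
  funext i
  obtain ⟨y, hy, h1⟩ := hx k (i + 1 + r + r')
  rw [← hr (i + 1) _ _ (h1.mono (by omega)) i (by omega),
    ← hr' (i + 1) _ _ (h1.mono (by omega)) i (by omega), H y hy]

theorem short (k n : ℕ) : ∃ l : List Lt, 2 ^ k * l.length ≤ n + 2 ^ k * bb ^ k ∧
    ∀ x ∈ XU, ρ (FreeGroup.mk l) x = ρ (FreeGroup.of 1 ^ n) x := by
  have hb : 0 < bb ^ k := pow_pos (Nat.pos_of_ne_zero (NeZero.ne bb)) k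
  induction n using Nat.strong_induction_on with
  | _ n ih =>
    by_cases h : n < bb ^ k
    · refine ⟨rep n 1 true, ?_, fun x _ => by rw [mk_rep]; rfl⟩
      rw [rep, List.length_replicate]
      have := Nat.mul_le_mul_left (2 ^ k) h.le
      omega
    · obtain ⟨l, h1, h2⟩ := ih (n - bb ^ k) (by omega)
      refine ⟨ww k ++ l, ?_, fun x hx => ?_⟩
      · have := len_ww k
        rw [List.length_append, mul_add]
        omega
      · rw [← FreeGroup.mul_mk, map_mul, Equiv.Perm.mul_apply, h2 x hx,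
          eq_on_XU (ww_eq k) _ (XU_ρ _ hx), ← Equiv.Perm.mul_apply, ← map_mul, ← pow_add,
          show bb ^ k + (n - bb ^ k) = n by omega]

theorem sublinear (ε : ℝ) (hε : 0 < ε) : ∃ N : ℕ, ∀ n ≥ N, ∃ l : List Lt,
    (l.length : ℝ) ≤ ε * n ∧ ∀ x ∈ XU, ρ (FreeGroup.mk l) x = ρ (FreeGroup.of 1 ^ n) x := by
  obtain ⟨k, hk⟩ := pow_unbounded_of_one_lt (2 / ε) (show (1 : ℝ) < 2 by norm_num)
  obtain ⟨N, hN⟩ := exists_nat_ge (2 * ((bb ^ k : ℕ) : ℝ) / ε)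
  refine ⟨N, fun n hn => ?_⟩
  obtain ⟨l, h1, h2⟩ := short k n
  refine ⟨l, ?_, h2⟩
  generalize bb ^ k = c at hN h1
  have h3 : (2 : ℝ) ^ k * l.length ≤ n + 2 ^ k * c := by exact_mod_cast h1
  have h4 : (0 : ℝ) < 2 ^ k := by positivity
  have h5 : (N : ℝ) ≤ n := by exact_mod_cast hn
  have h6 : (0 : ℝ) ≤ n := by positivity
  rw [div_lt_iff₀ hε] at hk
  rw [div_le_iff₀ hε] at hN
  have h7 : (2 : ℝ) ^ k * l.length ≤ 2 ^ k * (ε * n) := by
    have a1 : 2 * (n : ℝ) ≤ 2 ^ k * ε * n := by nlinarith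
    have a2 : 2 * (c : ℝ) ≤ ε * n := by nlinarith
    have a3 : 2 ^ k * (2 * (c : ℝ)) ≤ 2 ^ k * (ε * n) := by gcongr
    nlinarith
  exact le_of_mul_le_mul_left h7 h4

open Classical in
noncomputable def act0 (g : FG) (x : ℕ → AA) : ℕ → AA :=
  if h : ∃ τ, Un τ x then (ρ g ⟨x, h⟩).1 else x

theorem act0_val (g : FG) (x : U) : act0 g x.1 = (ρ g x).1 := dif_pos x.2

noncomputable def core0 : Core AA where
  X := Subtype.val '' XU
  act := act0
  closed x h := by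
    have h1 : ∀ k m : ℕ, ∃ y ∈ Y k, Ag m y.1 x := by
      intro k m
      obtain ⟨_, ⟨y, hy, rfl⟩, h1⟩ := h m
      obtain ⟨z, hz, h2⟩ := hy k m
      exact ⟨z, hz, h2.trans h1⟩
    exact ⟨⟨x, un_of_approx _ fun m => (h1 0 m).imp fun _ h => h.2⟩, h1, rfl⟩
  shift := by
    rintro _ ⟨x, hx, rfl⟩
    exact ⟨shU x, XU_sh hx, rfl⟩
  onto := by
    rintro _ ⟨x, hx, rfl⟩
    obtain ⟨y, hy, rfl⟩ := XU_onto hx
    exact ⟨_, ⟨y, hy, rfl⟩, rfl⟩
  maps := by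
    rintro g _ ⟨x, hx, rfl⟩
    exact ⟨ρ g x, XU_ρ g hx, (act0_val g x).symm⟩
  one := by
    rintro _ ⟨x, hx, rfl⟩
    rw [act0_val]; simp
  mul := by
    rintro g h _ ⟨x, hx, rfl⟩
    rw [act0_val, act0_val, act0_val]; simp
  comm := by
    rintro g _ ⟨x, hx, rfl⟩
    rw [← shU_val, act0_val, act0_val, ρ_sh, shU_val]
  loc := by
    intro g
    obtain ⟨r, hr⟩ := ρ_loc g
    refine ⟨r, ?_⟩
    rintro m _ ⟨x, hx, rfl⟩ _ ⟨y, hy, rfl⟩ h
    rw [act0_val, act0_val]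
    exact hr m x y h
  inf := by
    intro p hp
    by_contra hc
    push Not at hc
    refine no_period p hp fun x hx => Subtype.ext ?_
    rw [← act0_val]
    exact hc _ ⟨x, hx, rfl⟩
  dist := by
    intro ε hε
    obtain ⟨N, hN⟩ := sublinear ε hε
    refine ⟨N, fun n hn => ?_⟩
    obtain ⟨l, h1, h2⟩ := hN n hn
    refine ⟨l, h1, ?_⟩
    rintro _ ⟨x, hx, rfl⟩
    rw [act0_val, act0_val, h2 x hx]
  ent := by
    refine ⟨Fintype.card AA, fun k => ?_⟩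
    obtain ⟨c, hc⟩ := Y_cover k
    refine ⟨c, fun n => ?_⟩
    obtain ⟨Z, h1, h2⟩ := hc n
    refine ⟨Z, h1, ?_⟩
    rintro _ ⟨x, hx, rfl⟩
    obtain ⟨y, hy, h3⟩ := hx k n
    obtain ⟨z, hz, h4⟩ := h2 y hy
    exact ⟨z, hz, h4.trans h3⟩

noncomputable def Core.map {B B' : Type} (e : B ≃ B') (c : Core B) : Core B' where
  X := {x | (fun i => e.symm (x i)) ∈ c.X}
  act g x := fun i => e (c.act g (fun j => e.symm (x j)) i)
  closed x h := by
    apply c.closed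
    intro m
    obtain ⟨y, hy, h1⟩ := h m
    exact ⟨_, hy, fun i hi => congrArg e.symm (h1 i hi)⟩
  shift x hx := c.shift _ hx
  onto x hx := by
    obtain ⟨y, hy, h⟩ := c.onto _ hx
    refine ⟨fun i => e (y i), by simpa using hy, ?_⟩
    funext i
    have := congrFun h i
    simp only [sh] at this ⊢
    rw [this]; simp
  maps g x hx := by simpa using c.maps g _ hx
  one x hx := by
    funext i
    rw [c.one _ hx]; simp
  mul g h x hx := by
    funext i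
    rw [c.mul g h _ hx]; simp
  comm g x hx := by
    funext i
    exact congrArg e (congrFun (c.comm g _ hx) i)
  loc g := by
    obtain ⟨r, hr⟩ := c.loc g
    refine ⟨r, fun m x hx y hy h i hi => congrArg e ?_⟩
    exact hr m _ hx _ hy (fun j hj => congrArg e.symm (h j hj)) i hi
  inf p hp := by
    obtain ⟨x, hx, h⟩ := c.inf p hp
    refine ⟨fun i => e (x i), by simpa using hx, fun h1 => h ?_⟩
    funext i
    simpa using congrFun h1 i
  dist ε hε := by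
    obtain ⟨N, hN⟩ := c.dist ε hε
    refine ⟨N, fun n hn => ?_⟩
    obtain ⟨l, h1, h2⟩ := hN n hn
    refine ⟨l, h1, fun x hx => ?_⟩
    rw [h2 _ hx]
  ent := by
    classical
    obtain ⟨q, hq⟩ := c.ent
    refine ⟨q, fun k => ?_⟩
    obtain ⟨d, hd⟩ := hq k
    refine ⟨d, fun n => ?_⟩
    obtain ⟨Z, h1, h2⟩ := hd n
    refine ⟨Z.image fun z i => e (z i), Finset.card_image_le.trans h1, fun x hx => ?_⟩
    obtain ⟨z, hz, h3⟩ := h2 _ hx
    refine ⟨_, Finset.mem_image_of_mem _ hz, fun i hi => ?_⟩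
    show e (z i) = x i
    rw [h3 i hi]; simp

theorem core_fin : ∃ k : ℕ, Nonempty (Core (Fin k)) := by
  obtain ⟨k, ⟨e⟩⟩ := Finite.exists_equiv_fin AA
  exact ⟨k, ⟨core0.map e⟩⟩

end Pool.Agent.Lib.helper8.Dist
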