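import Pool.Agent.Lib.helper8.Dist4

set_option autoImplicit false

namespace Pool.Agent.Lib.helper8.Dist

variable {B : Type} (c : Core B)

def tail (x : ℤ → B) (j : ℤ) : ℕ → B := fun i => x (j + i)

def Core.Xz : Set (ℤ → B) := {x | ∀ j, tail x j ∈ c.X}

def Core.ext (g : FG) (x : ℤ → B) : ℤ → B := fun j => c.act g (tail x j) 0

theorem tail_succ (x : ℤ → B) (j : ℤ) : tail x (j + 1) = sh (tail x j) := by
  funext i
  simp only [tail, sh]
  congr 1
  push_cast; ring

theorem Core.tail_ext (g : FG) {x : ℤ → B} (hx : x ∈ c.Xz) (j : ℤ) :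
    tail (c.ext g x) j = c.act g (tail x j) := by
  funext i
  show c.act g (tail x (j + i)) 0 = _
  induction i generalizing j with
  | zero => simp
  | succ i ih =>
    have := ih (j + 1)
    rw [tail_succ, c.comm g _ (hx j)] at this
    rw [show j + ((i + 1 : ℕ) : ℤ) = j + 1 + i by push_cast; ring, this]
    rfl

theorem Core.ext_maps (g : FG) {x : ℤ → B} (hx : x ∈ c.Xz) : c.ext g x ∈ c.Xz := by
  intro j
  rw [c.tail_ext g hx]
  exact c.maps g _ (hx j)

theorem Core.ext_one {x : ℤ → B} (hx : x ∈ c.Xz) : c.ext 1 x = x := by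
  funext j
  simp only [Core.ext]
  rw [c.one _ (hx j)]
  simp [tail]

theorem Core.ext_mul (g h : FG) {x : ℤ → B} (hx : x ∈ c.Xz) :
    c.ext (g * h) x = c.ext g (c.ext h x) := by
  funext j
  show c.act (g * h) (tail x j) 0 = c.act g (tail (c.ext h x) j) 0
  rw [c.tail_ext h hx, c.mul g h _ (hx j)]

theorem tail_shift (x : ℤ → B) (j : ℤ) : tail (fun i => x (i + 1)) j = tail x (j + 1) := by
  funext i
  simp only [tail]
  congr 1
  ring

theorem Core.Xz_shift (x : ℤ → B) : x ∈ c.Xz ↔ (fun i => x (i + 1)) ∈ c.Xz := by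
  constructor
  · intro h j
    rw [tail_shift]; exact h _
  · intro h j
    have := h (j - 1)
    rwa [tail_shift, sub_add_cancel] at this

theorem Core.ext_shift (g : FG) (x : ℤ → B) :
    c.ext g (fun i => x (i + 1)) = fun i => c.ext g x (i + 1) := by
  funext j
  simp only [Core.ext, tail_shift]

theorem Core.extend {y : ℕ → B} (hy : y ∈ c.X) : ∃ x ∈ c.Xz, tail x 0 = y := by
  have h0 : ∀ z : c.X, ∃ w : c.X, sh w.1 = z.1 := fun z => by
    obtain ⟨w, hw, h⟩ := c.onto _ z.2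
    exact ⟨⟨w, hw⟩, h⟩
  choose p hp using h0
  let s : ℕ → c.X := fun n => p^[n] ⟨y, hy⟩
  have h1 : ∀ d n i, (s (n + d)).1 (i + d) = (s n).1 i := by
    intro d n i
    induction d with
    | zero => rfl
    | succ d ih =>
      have e : s (n + (d + 1)) = p (s (n + d)) := Function.iterate_succ_apply' p (n + d) _
      rw [e, ← ih, ← hp (s (n + d))]
      rfl
  have h2 : ∀ (m : ℕ) (z : ℕ → B), z ∈ c.X → (fun i => z (i + m)) ∈ c.X := by
    intro m
    induction m with
    | zero => exact fun z hz => hz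
    | succ m ih => exact fun z hz => ih _ (c.shift _ hz)
  have h3 : ∀ j : ℤ, tail (fun j : ℤ => (s (-j).toNat).1 j.toNat) j
      = fun i => (s (-j).toNat).1 (i + j.toNat) := by
    intro j
    funext i
    simp only [tail]
    obtain ⟨d, hd⟩ : ∃ d : ℕ, (-j).toNat = (-(j + i)).toNat + d :=
      ⟨(-j).toNat - (-(j + i)).toNat, by omega⟩
    rw [hd, show i + j.toNat = (j + i).toNat + d by omega, h1]
  refine ⟨fun j => (s (-j).toNat).1 j.toNat, fun j => ?_, ?_⟩
  · rw [h3]
    exact h2 _ _ (s _).2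
  · rw [h3]
    rfl

theorem Core.ext_inf (p : ℕ) (hp : 0 < p) :
    ∃ x ∈ c.Xz, c.ext (FreeGroup.of 1 ^ p) x ≠ x := by
  obtain ⟨y, hy, h⟩ := c.inf p hp
  obtain ⟨x, hx, rfl⟩ := c.extend hy
  refine ⟨x, hx, fun h1 => h ?_⟩
  rw [← c.tail_ext _ hx, h1]

theorem nhds_tail [TopologicalSpace B] [DiscreteTopology B] (m : ℕ) (j : ℤ) (x : ℤ → B) :
    {y | Ag m (tail y j) (tail x j)} ∈ nhds x := by
  have : {y | Ag m (tail y j) (tail x j)} = ⋂ i ∈ Finset.range m, {y | y (j + i) = x (j + i)} := by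
    ext y; simp [Ag, tail]
  rw [this, Filter.biInter_finset_mem]
  intro i _
  exact (continuous_apply (j + i)).continuousAt ((isOpen_discrete {x (j + i)}).mem_nhds rfl)

theorem Core.Xz_closed [TopologicalSpace B] [DiscreteTopology B] : IsClosed c.Xz := by
  apply isClosed_of_closure_subset
  intro x hx j
  apply c.closed
  intro m
  obtain ⟨y, h1, h2⟩ := mem_closure_iff_nhds.1 hx _ (nhds_tail m j x)
  exact ⟨_, h2 j, h1⟩

theorem Core.ext_cont [TopologicalSpace B] [DiscreteTopology B] (g : FG) :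
    Continuous fun x : c.Xz => c.ext g x.1 := by
  refine continuous_pi fun j => continuous_iff_continuousAt.2 fun x => ?_
  obtain ⟨r, hr⟩ := c.loc g
  refine Filter.Tendsto.congr' ?_ tendsto_const_nhds
  filter_upwards [continuous_subtype_val.continuousAt (nhds_tail (1 + r) j x.1)] with y hy
  exact (hr 1 _ (y.2 j) _ (x.2 j) hy 0 (by omega)).symm

def Core.hom [TopologicalSpace B] [DiscreteTopology B] : FG →* (c.Xz ≃ₜ c.Xz) where
  toFun g :=
    { toFun := fun x => ⟨c.ext g x.1, c.ext_maps g x.2⟩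
      invFun := fun x => ⟨c.ext g⁻¹ x.1, c.ext_maps _ x.2⟩
      left_inv := fun x => Subtype.ext (by
        show c.ext g⁻¹ (c.ext g x.1) = x.1
        rw [← c.ext_mul _ _ x.2, inv_mul_cancel, c.ext_one x.2])
      right_inv := fun x => Subtype.ext (by
        show c.ext g (c.ext g⁻¹ x.1) = x.1
        rw [← c.ext_mul _ _ x.2, mul_inv_cancel, c.ext_one x.2])
      continuous_toFun := (c.ext_cont g).subtype_mk _
      continuous_invFun := (c.ext_cont g⁻¹).subtype_mk _ }
  map_one' := Homeomorph.ext fun x => Subtype.ext (c.ext_one x.2)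
  map_mul' g h := Homeomorph.ext fun x => Subtype.ext (c.ext_mul g h x.2)

theorem Core.entropy : Filter.Tendsto (fun n : ℕ =>
    Real.log (Set.ncard {w : Fin n → B | ∃ x ∈ c.Xz, ∀ i : Fin n, x (i : ℕ) = w i}) / n)
    Filter.atTop (nhds 0) := by
  classical
  obtain ⟨q, hq⟩ := c.ent
  rw [Metric.tendsto_atTop]
  intro ε hε
  obtain ⟨k, hk⟩ := pow_unbounded_of_one_lt (2 * Real.log (q + 1) / ε)
    (show (1 : ℝ) < 2 by norm_num)
  obtain ⟨d, hd⟩ := hq k
  obtain ⟨N, hN⟩ := exists_nat_gt (2 * Real.log (d + 1) / ε)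
  refine ⟨N + 1, fun n hn => ?_⟩
  obtain ⟨Z, h1, h2⟩ := hd n
  have h3 : Set.ncard {w : Fin n → B | ∃ x ∈ c.Xz, ∀ i : Fin n, x (i : ℕ) = w i} ≤ Z.card := by
    refine le_trans (Set.ncard_le_ncard (t := ↑(Z.image fun z (i : Fin n) => z i)) ?_
      (Finset.finite_toSet _)) ?_
    · rintro w ⟨x, hx, hw⟩
      obtain ⟨z, hz, h⟩ := h2 _ (hx 0)
      refine Finset.mem_coe.2 (Finset.mem_image.2 ⟨z, hz, ?_⟩)
      funext i
      rw [h i i.2, ← hw i]
      simp [tail]
    · rw [Set.ncard_coe_finset]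
      exact Finset.card_image_le
  generalize Set.ncard {w : Fin n → B | ∃ x ∈ c.Xz, ∀ i : Fin n, x (i : ℕ) = w i} = a at h3
  have hn0 : (0 : ℝ) < n := by exact_mod_cast (show 0 < n by omega)
  have hq0 : 0 ≤ Real.log (q + 1) := Real.log_nonneg (by linarith [Nat.cast_nonneg (α := ℝ) q])
  have h4 : Real.log a ≤ Real.log (d + 1) + (n / 2 ^ k : ℕ) * Real.log (q + 1) := by
    rw [← Real.log_pow, ← Real.log_mul (by positivity) (by positivity)]
    have h5 : (a : ℝ) ≤ (d + 1) * (q + 1) ^ (n / 2 ^ k) := by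
      have : a ≤ (d + 1) * (q + 1) ^ (n / 2 ^ k) :=
        h3.trans (h1.trans (Nat.mul_le_mul (by omega) (Nat.pow_le_pow_left (by omega) _)))
      exact_mod_cast this
    rcases Nat.eq_zero_or_pos a with rfl | ha
    · simp only [Nat.cast_zero, Real.log_zero]
      apply Real.log_nonneg
      have : 1 ≤ (d + 1) * (q + 1) ^ (n / 2 ^ k) := Nat.pos_of_ne_zero (by positivity)
      exact_mod_cast this
    · exact Real.log_le_log (by exact_mod_cast ha) h5
  rw [Real.dist_eq, sub_zero, abs_of_nonneg (div_nonneg (Real.log_natCast_nonneg a) hn0.le),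
    div_lt_iff₀ hn0]
  have h5 : ((n / 2 ^ k : ℕ) : ℝ) ≤ n / 2 ^ k := by
    have := Nat.cast_div_le (α := ℝ) (m := n) (n := 2 ^ k)
    push_cast at this
    exact this
  have h6 : (0 : ℝ) < 2 ^ k := by positivity
  have h7 : (N : ℝ) ≤ n := by exact_mod_cast (show N ≤ n by omega)
  rw [div_lt_iff₀ hε] at hk hN
  have h8 : (n : ℝ) / 2 ^ k * Real.log (q + 1) ≤ ε * n / 2 := by
    rw [div_mul_eq_mul_div, div_le_iff₀ h6]
    nlinarith
  have h9 := mul_le_mul_of_nonneg_right h5 hq0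
  nlinarith

end Pool.Agent.Lib.helper8.Dist
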