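import Mathlib

set_option autoImplicit false

namespace Pool.Agent.Lib.helper8.Heis

structure Geo0 (G : Type) [Group G] where
  ν : G → ℕ
  ν_mul : ∀ g h, ν (g * h) ≤ ν g + ν h
  ν_inv : ∀ g, ν g⁻¹ = ν g
  ν_one : ν 1 = 0
  fin : Finite {h : G // ν h ≤ 3}
  C : ℕ
  C_pos : 0 < C
  col : G → ZMod C
  col_left : ∀ h η η', col η = col η' → col (h * η) = col (h * η')
  col_sep : ∀ η η', col η = col η' → ν (η' * η⁻¹) ≤ 4 → η' = η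
  far : ∀ n, ∃ g, n < ν g

variable {G : Type} [Group G]

section types
variable (Γ : Geo0 G)

instance : NeZero Γ.C := ⟨Γ.C_pos.ne'⟩

abbrev Bt := {h : G // Γ.ν h ≤ 3}
instance : Finite (Bt Γ) := Γ.fin
abbrev Xs := Set.Icc (-(3 * Γ.C : ℤ)) (3 * Γ.C)
abbrev Rid := Bt Γ × Bool × Option (Fin 5)
abbrev K := Bool ⊕ (Rid Γ × Xs Γ)
abbrev Q := Option (K Γ ⊕ Bt Γ ⊕ (Bool × Bt Γ × K Γ))
abbrev W (T : Type) := Option (T ⊕ (Bool × ZMod Γ.C) ⊕ (Fin 5 × Q Γ))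

theorem num_ex : ∃ (n : ℕ) (f : K Γ → ℕ), Function.Injective f ∧ ∀ κ, f κ < n := by
  obtain ⟨n, ⟨e⟩⟩ := Finite.exists_equiv_fin (K Γ)
  exact ⟨n, fun κ => e κ, fun a b h => e.injective (Fin.ext h), fun κ => (e κ).2⟩

noncomputable def nK : ℕ := (num_ex Γ).choose
noncomputable def num : K Γ → ℕ := (num_ex Γ).choose_spec.choose
theorem num_inj : Function.Injective (num Γ) := (num_ex Γ).choose_spec.choose_spec.1
theorem num_lt (κ : K Γ) : num Γ κ < nK Γ := (num_ex Γ).choose_spec.choose_spec.2 κ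

def EE : ℕ := 36 * Γ.C + 12
noncomputable def bound : ℕ := EE Γ + 2 * (EE Γ + 3) * nK Γ + (EE Γ + 3) + 3

noncomputable def clip (x : ℤ) : Xs Γ :=
  if h : x ∈ Set.Icc (-(3 * Γ.C : ℤ)) (3 * Γ.C) then ⟨x, h⟩ else ⟨0, by simp⟩

theorem clip_val {x : ℤ} (h1 : -(3 * Γ.C : ℤ) ≤ x) (h2 : x ≤ 3 * Γ.C) : (clip Γ x).1 = x := by
  unfold clip
  rw [dif_pos ⟨h1, h2⟩]

open Classical in
noncomputable def cm (h : G) (i : ZMod Γ.C) : ZMod Γ.C :=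
  if H : ∃ η, Γ.col η = i then Γ.col (h⁻¹ * H.choose) else 0

theorem cm_col (h η : G) : cm Γ h (Γ.col η) = Γ.col (h⁻¹ * η) := by
  have H : ∃ η', Γ.col η' = Γ.col η := ⟨η, rfl⟩
  unfold cm
  rw [dif_pos H]
  exact Γ.col_left _ _ _ H.choose_spec

def ofs (o : Fin 5) : ℤ := (o : ℤ) - 2

def om (s : Bool) : Option (Fin 5) → ℤ
  | none => if s = true then 0 else 1
  | some o => ofs o

theorem om_bd (s : Bool) (oo : Option (Fin 5)) : -2 ≤ om s oo ∧ om s oo ≤ 2 := by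
  rcases oo with _ | o
  · cases s <;> simp [om]
  · have := o.2
    simp only [om, ofs]
    omega

noncomputable def del (i : ZMod Γ.C) (ϱ : Rid Γ) (x : ℤ) : ℤ :=
  Γ.C * om ϱ.2.1 ϱ.2.2 + (cm Γ ϱ.1.1 i).val - i.val + x

theorem del_bd (i : ZMod Γ.C) (ϱ : Rid Γ) (x : ℤ) :
    x - 3 * Γ.C < del Γ i ϱ x ∧ del Γ i ϱ x < x + 3 * Γ.C := by
  have h1 := ZMod.val_lt (cm Γ ϱ.1.1 i)
  have h2 := ZMod.val_lt i
  obtain ⟨h3, h4⟩ := om_bd ϱ.2.1 ϱ.2.2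
  have h5 : (0 : ℤ) ≤ Γ.C := by positivity
  unfold del
  generalize om ϱ.2.1 ϱ.2.2 = o at h3 h4
  have h6 : -2 * (Γ.C : ℤ) ≤ Γ.C * o := by nlinarith
  have h7 : (Γ.C : ℤ) * o ≤ 2 * Γ.C := by nlinarith
  omega

noncomputable def stage (i : ZMod Γ.C) (ϱ : Rid Γ) (x : ℤ) : ℕ :=
  3 * ((if ϱ.2.2 = none then 2 else 6 * Γ.C + 3) + (del Γ i ϱ x).natAbs)

end types

structure Geo1 (Γ : Geo0 G) (T : Type) where
  m : ℕ
  Φ : G →* G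
  Φ_inj : Function.Injective Φ
  expand : ∀ h r, Γ.ν (Φ h) ≤ m * r → Γ.ν h ≤ r
  cover : ∀ t, ∃ h, Γ.ν (t * Φ h) ≤ m
  tau : G → T
  act : G → T → T
  tau_act : ∀ h g, tau (h * g) = act h (tau g)
  tau_eq : ∀ g g', tau g = tau g' → ∃ k, g' = g * Φ k ∧ ∀ η, Γ.col (η * k) = Γ.col η
  big : bound Γ ≤ m

variable {Γ : Geo0 G} {T : Type} (Δ : Geo1 Γ T)

def near (g : G) (i : ZMod Γ.C) (η : G) : Prop :=
  Γ.col η = i ∧ Γ.ν (g * (Δ.Φ η)⁻¹) ≤ 2 * Δ.m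

theorem near_unique {g : G} {i : ZMod Γ.C} {η η' : G} (h : near Δ g i η) (h' : near Δ g i η') :
    η' = η := by
  apply Γ.col_sep _ _ (h.1.trans h'.1.symm)
  apply Δ.expand
  have e : Δ.Φ (η' * η⁻¹) = (g * (Δ.Φ η')⁻¹)⁻¹ * (g * (Δ.Φ η)⁻¹) := by
    simp [mul_assoc]
  have := Γ.ν_mul (g * (Δ.Φ η')⁻¹)⁻¹ (g * (Δ.Φ η)⁻¹)
  rw [Γ.ν_inv, ← e] at this
  have h1 := h.2
  have h2 := h'.2
  omega

open Classical in
noncomputable def eta (g : G) (i : ZMod Γ.C) : G :=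
  if h : ∃ η, near Δ g i η then h.choose else 1

open Classical in
noncomputable def rel (g : G) (i : ZMod Γ.C) : G :=
  if ∃ η, near Δ g i η then g * (Δ.Φ (eta Δ g i))⁻¹ else (Γ.far (2 * Δ.m)).choose

theorem of_near {g : G} {i : ZMod Γ.C} {η : G} (h : near Δ g i η) :
    eta Δ g i = η ∧ rel Δ g i = g * (Δ.Φ η)⁻¹ := by
  have H : ∃ η, near Δ g i η := ⟨η, h⟩
  have h1 : eta Δ g i = η := by
    unfold eta
    rw [dif_pos H]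
    exact near_unique Δ h H.choose_spec
  refine ⟨h1, ?_⟩
  unfold rel
  rw [if_pos H, h1]

theorem near_of {g : G} {i : ZMod Γ.C} (h : Γ.ν (rel Δ g i) ≤ 2 * Δ.m) :
    near Δ g i (eta Δ g i) := by
  by_cases H : ∃ η, near Δ g i η
  · obtain ⟨η, h1⟩ := H
    rw [(of_near Δ h1).1]; exact h1
  · unfold rel at h
    rw [if_neg H] at h
    have := (Γ.far (2 * Δ.m)).choose_spec
    omega

theorem rel_tau {g g' : G} (h : Δ.tau g = Δ.tau g') (i : ZMod Γ.C) :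
    rel Δ g i = rel Δ g' i := by
  have key : ∀ g g' : G, Δ.tau g = Δ.tau g' → ∀ η, near Δ g i η →
      ∃ η', near Δ g' i η' ∧ g' * (Δ.Φ η')⁻¹ = g * (Δ.Φ η)⁻¹ := by
    intro g g' h η hη
    obtain ⟨k, rfl, hk⟩ := Δ.tau_eq g g' h
    have e : g * Δ.Φ k * (Δ.Φ (η * k))⁻¹ = g * (Δ.Φ η)⁻¹ := by simp [mul_assoc]
    exact ⟨η * k, ⟨(hk η).trans hη.1, by rw [e]; exact hη.2⟩, e⟩
  by_cases H : ∃ η, near Δ g i η
  · obtain ⟨η, h1⟩ := H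
    obtain ⟨η', h2, e⟩ := key g g' h η h1
    rw [(of_near Δ h1).2, (of_near Δ h2).2, e]
  · have H' : ¬ ∃ η, near Δ g' i η := by
      rintro ⟨η, h1⟩
      obtain ⟨η', h2, -⟩ := key g' g h.symm η h1
      exact H ⟨η', h2⟩
    unfold rel
    rw [if_neg H, if_neg H']

theorem move {h g : G} {i : ZMod Γ.C} (hh : Γ.ν h ≤ 3)
    (H : Γ.ν (rel Δ (h * g) i) + 3 ≤ 2 * Δ.m) :
    eta Δ g i = eta Δ (h * g) i ∧ rel Δ (h * g) i = h * rel Δ g i ∧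
      near Δ g i (eta Δ g i) := by
  have h1 := near_of Δ (g := h * g) (i := i) (by omega)
  have h2 := (of_near Δ h1).2
  have h3 : near Δ g i (eta Δ (h * g) i) := by
    refine ⟨h1.1, ?_⟩
    have e : g * (Δ.Φ (eta Δ (h * g) i))⁻¹ = h⁻¹ * rel Δ (h * g) i := by
      rw [h2]; simp [mul_assoc]
    have := Γ.ν_mul h⁻¹ (rel Δ (h * g) i)
    rw [Γ.ν_inv, ← e] at this
    omega
  obtain ⟨h4, h5⟩ := of_near Δ h3
  refine ⟨h4, ?_, h4 ▸ h3⟩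
  rw [h5, h2, mul_assoc]

noncomputable def relT (τ : T) (i : ZMod Γ.C) : G := rel Δ (Function.invFun Δ.tau τ) i

theorem relT_tau (g : G) (i : ZMod Γ.C) : relT Δ (Δ.tau g) i = rel Δ g i :=
  rel_tau Δ (Function.invFun_eq ⟨g, rfl⟩) i

noncomputable def rr (κ : K Γ) : ℕ := Δ.m + EE Γ + 2 * (EE Γ + 3) * num Γ κ

theorem rr_bd (κ : K Γ) : Δ.m + EE Γ ≤ rr Δ κ ∧ rr Δ κ + (EE Γ + 3) + 3 ≤ 2 * Δ.m := by
  have h1 := Δ.big
  have h2 : 2 * (EE Γ + 3) * num Γ κ ≤ 2 * (EE Γ + 3) * nK Γ :=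
    Nat.mul_le_mul_left _ (num_lt Γ κ).le
  unfold bound at h1
  unfold rr
  omega

def U (t : G) (κ : K Γ) (h : G) (s : ℕ) : Prop :=
  Γ.ν t + s ≤ rr Δ κ + (EE Γ + 3) ∧ rr Δ κ + s ≤ Γ.ν t + (EE Γ + 3) ∧
    Γ.ν (t * Δ.Φ h) + s ≤ Δ.m + EE Γ

theorem U.mono {t : G} {κ : K Γ} {h : G} {s s' : ℕ} (H : U Δ t κ h s) (hs : s' ≤ s) :
    U Δ t κ h s' := by
  obtain ⟨h1, h2, h3⟩ := H
  exact ⟨by omega, by omega, by omega⟩

theorem nu_move {h : G} (hh : Γ.ν h ≤ 3) (t : G) :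
    Γ.ν (h * t) ≤ Γ.ν t + 3 ∧ Γ.ν t ≤ Γ.ν (h * t) + 3 := by
  have h1 := Γ.ν_mul h t
  have h2 := Γ.ν_mul h⁻¹ (h * t)
  rw [Γ.ν_inv, inv_mul_cancel_left] at h2
  omega

theorem U.move {h t : G} (hh : Γ.ν h ≤ 3) {κ : K Γ} {h' : G} {s : ℕ}
    (H : U Δ (h * t) κ h' (s + 3)) : U Δ t κ h' s := by
  obtain ⟨h1, h2, h3⟩ := H
  have a1 := nu_move hh t
  have a2 := nu_move hh (t * Δ.Φ h')
  rw [mul_assoc] at h3
  exact ⟨by omega, by omega, by omega⟩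

open Classical in
noncomputable def kap (t : G) : K Γ :=
  if h : ∃ κ, Γ.ν t < rr Δ κ + (EE Γ + 3) ∧ rr Δ κ < Γ.ν t + (EE Γ + 3) then h.choose
  else .inl true

theorem kap_eq {t : G} {κ : K Γ} {h : G} {s : ℕ} (H : U Δ t κ h s) (hs : 1 ≤ s) :
    kap Δ t = κ := by
  obtain ⟨h1, h2, -⟩ := H
  have H : ∃ κ, Γ.ν t < rr Δ κ + (EE Γ + 3) ∧ rr Δ κ < Γ.ν t + (EE Γ + 3) :=
    ⟨κ, by omega, by omega⟩
  unfold kap
  rw [dif_pos H]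
  obtain ⟨h3, h4⟩ := H.choose_spec
  apply num_inj Γ
  generalize H.choose = κ' at h3 h4
  unfold rr at h1 h2 h3 h4
  generalize EE Γ + 3 = e at *
  rcases Nat.lt_trichotomy (num Γ κ') (num Γ κ) with h5 | h5 | h5
  · have := Nat.mul_le_mul_left (2 * e) (show num Γ κ' + 1 ≤ num Γ κ from h5)
    rw [mul_add] at this
    omega
  · exact h5
  · have := Nat.mul_le_mul_left (2 * e) (show num Γ κ + 1 ≤ num Γ κ' from h5)
    rw [mul_add] at this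
    omega

def pres (t : G) (i : ZMod Γ.C) (ϱ : Rid Γ) (x : ℤ) : Prop :=
  U Δ t (kap Δ t) ϱ.1.1 (stage Γ i ϱ x)

open Classical in
noncomputable def pickh (t : G) : Bt Γ :=
  if h : ∃ h' : Bt Γ, Γ.ν (t * Δ.Φ h'.1) ≤ Δ.m then h.choose
  else ⟨1, by rw [Γ.ν_one]; omega⟩

theorem pickh_spec {t : G} (ht : Γ.ν t ≤ 2 * Δ.m) : Γ.ν (t * Δ.Φ (pickh Δ t).1) ≤ Δ.m := by
  have H : ∃ h' : Bt Γ, Γ.ν (t * Δ.Φ h'.1) ≤ Δ.m := by
    obtain ⟨h, hh⟩ := Δ.cover t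
    refine ⟨⟨h, Δ.expand h 3 ?_⟩, hh⟩
    have := Γ.ν_mul t⁻¹ (t * Δ.Φ h)
    rw [Γ.ν_inv, inv_mul_cancel_left] at this
    omega
  unfold pickh
  rw [dif_pos H]
  exact H.choose_spec

end Pool.Agent.Lib.helper8.Heis
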