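import Pool.Agent.Lib.helper8.Heis1

set_option autoImplicit false

namespace Pool.Agent.Lib.helper8.Heis

variable {G : Type} [Group G] {Γ : Geo0 G} {T : Type} (Δ : Geo1 Γ T)

abbrev Co (Γ : Geo0 G) (T : Type) := K Γ → W Γ T
abbrev A (Γ : Geo0 G) (T : Type) := Bool × Co Γ T
abbrev Dia (Γ : Geo0 G) (T : Type) := G → ℤ → A Γ T

def getT : W Γ T → T
  | some (.inl τ) => τ
  | _ => Δ.tau 1

def getS : W Γ T → Bool × ZMod Γ.C
  | some (.inr (.inl a)) => a
  | _ => (false, 0)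

def getI : W Γ T → Fin 5 × Q Γ
  | some (.inr (.inr a)) => a
  | _ => (2, none)

def chunk (κ : K Γ) : Q Γ := some (.inl κ)

/-- request sent by the origin cell -/
def req (b : Co Γ T) (κ : K Γ) (h : Bt Γ) (s : Bool) (x : Xs Γ) : Option (Fin 5) → Q Γ
  | none => some (.inr (.inr (s, h, κ)))
  | some _ => (getI (b (.inr ((h, s, none), x)))).2

open Classical in
noncomputable def insR (t t' : G) (i : ZMod Γ.C) (ϱ : Rid Γ) (x : Xs Γ) (b : Co Γ T) :
    Fin 5 × Q Γ :=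
  if pres Δ t' i ϱ x.1 then
    if pres Δ t i ϱ x.1 then (2, chunk (.inr (ϱ, x)))
    else if del Γ i ϱ x.1 = 0 then (1, req b (kap Δ t) ϱ.1 ϱ.2.1 x ϱ.2.2)
    else if 0 < del Γ i ϱ x.1 then (4, chunk (.inr (ϱ, clip Γ (x.1 - 1))))
    else (0, chunk (.inr (ϱ, clip Γ (x.1 + 1))))
  else (2, none)

open Classical in
noncomputable def insH (t t' : G) (φ : Bool) (κ : K Γ) (b : Co Γ T) : Fin 5 × Q Γ :=
  if Γ.ν t' ≤ rr Δ κ then
    if Γ.ν t ≤ rr Δ κ then (2, chunk κ)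
    else (3, chunk (.inr ((pickh Δ t, φ,
      some (getI (b (.inr ((pickh Δ t, φ, none), clip Γ 0)))).1), clip Γ 0)))
  else (2, none)

noncomputable def ins : Bool → Bt Γ → K Γ → Co Γ T → Fin 5 × Q Γ
  | true, h, .inl true, _ => (2, some (.inr (.inl h)))
  | true, _, .inl false, _ => (2, chunk (.inl false))
  | true, h, .inr (ϱ, x), b =>
    insR Δ (relT Δ (getT Δ (b (.inl true))) ((getS (b (.inl false))).2 + (x.1 : ℤ)))
      (relT Δ (Δ.act h.1 (getT Δ (b (.inl true)))) ((getS (b (.inl false))).2 + (x.1 : ℤ)))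
      ((getS (b (.inl false))).2 + (x.1 : ℤ)) ϱ x b
  | false, h, κ, b =>
    insH Δ (relT Δ (getT Δ (b (.inl true))) (getS (b (.inl false))).2)
      (relT Δ (Δ.act h.1 (getT Δ (b (.inl true)))) (getS (b (.inl false))).2)
      (getS (b (.inl false))).1 κ b

noncomputable def rd : Q Γ → Co Γ T → W Γ T
  | none, _ => none
  | some (.inl κ), b => b κ
  | some (.inr (.inl h)), b => some (.inl (Δ.act h.1 (getT Δ (b (.inl true)))))
  | some (.inr (.inr q)), b => some (.inr (.inr (ins Δ q.1 q.2.1 q.2.2 b)))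

theorem rd_chunk (κ : K Γ) (b : Co Γ T) : rd Δ (chunk κ) b = b κ := rfl

def SR (c : Dia Γ T) : Prop :=
  (∀ g p, (c g p).1 = (c 1 p).1) ∧
  ∀ (g : G) (h : Bt Γ) (p : ℤ) (κ : K Γ), (c (h.1 * g) p).2 κ =
    rd Δ (ins Δ (c g p).1 h κ (c g (p + om (c g p).1 none)).2).2
      (c g (p + ofs (ins Δ (c g p).1 h κ (c g (p + om (c g p).1 none)).2).1)).2

noncomputable def vI (c : Dia Γ T) (g : G) (n : ℤ) (h : Bt Γ) (s : Bool) : Fin 5 × Q Γ :=
  ins Δ s h (kap Δ (rel Δ g n)) (c (h.1⁻¹ * eta Δ g n) (n / Γ.C + om s none)).2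

noncomputable def val (c : Dia Γ T) (g : G) (n : ℤ) (h : Bt Γ) (s : Bool) :
    Option (Fin 5) → W Γ T
  | none => some (.inr (.inr (vI Δ c g n h s)))
  | some o => rd Δ (vI Δ c g n h s).2 (c (h.1⁻¹ * eta Δ g n) (n / Γ.C + ofs o)).2

open Classical in
noncomputable def brain (c : Dia Γ T) (g : G) (j : ℤ) : Co Γ T
  | .inl true => some (.inl (Δ.tau g))
  | .inl false => some (.inr (.inl ((c 1 (j / Γ.C)).1, (j : ZMod Γ.C))))
  | .inr (ϱ, x) => if pres Δ (rel Δ g (j + x.1 : ℤ)) (j + x.1 : ℤ) ϱ x.1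
      then val Δ c g (j + x.1) ϱ.1 ϱ.2.1 ϱ.2.2 else none

open Classical in
noncomputable def hold (c : Dia Γ T) (g : G) (j : ℤ) : Co Γ T := fun κ =>
  if Γ.ν (rel Δ g j) ≤ rr Δ κ then (c (eta Δ g j) (j / Γ.C)).2 κ else none

noncomputable def Θ (c : Dia Γ T) : Dia Γ T := fun g p =>
  if p % 2 = 0 then (false, hold Δ c g (p / 2)) else (true, brain Δ c g (p / 2))

theorem Θ_even (c : Dia Γ T) (g : G) (j : ℤ) : Θ Δ c g (2 * j) = (false, hold Δ c g j) := by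
  unfold Θ
  rw [if_pos (by omega), show 2 * j / 2 = j by omega]

theorem Θ_odd (c : Dia Γ T) (g : G) (j : ℤ) : Θ Δ c g (2 * j + 1) = (true, brain Δ c g j) := by
  unfold Θ
  rw [if_neg (by omega), show (2 * j + 1) / 2 = j by omega]

theorem stage_bd (i : ZMod Γ.C) (ϱ : Rid Γ) (x : Xs Γ) :
    6 ≤ stage Γ i ϱ x.1 ∧ stage Γ i ϱ x.1 ≤ EE Γ ∧
      (ϱ.2.2 = none → stage Γ i ϱ x.1 ≤ 18 * Γ.C + 6) ∧
      (ϱ.2.2 ≠ none → 18 * Γ.C + 9 ≤ stage Γ i ϱ x.1) := by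
  have h1 := del_bd Γ i ϱ x.1
  obtain ⟨h2, h3⟩ := x.2
  unfold stage EE
  split_ifs with h
  · refine ⟨by omega, by omega, fun _ => by omega, fun h' => absurd h h'⟩
  · refine ⟨by omega, by omega, fun h' => absurd h' h, fun _ => by omega⟩

theorem val_congr (c : Dia Γ T) {g g' : G} {n : ℤ} (h1 : eta Δ g n = eta Δ g' n)
    (h2 : kap Δ (rel Δ g n) = kap Δ (rel Δ g' n)) (h : Bt Γ) (s : Bool) (oo : Option (Fin 5)) :
    val Δ c g n h s oo = val Δ c g' n h s oo := by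
  rcases oo with _ | o <;> simp only [val, vI, h1, h2]

theorem hold_full (c : Dia Γ T) {g : G} {η : G} {j p : ℤ}
    (h1 : Γ.ν (g * (Δ.Φ η)⁻¹) ≤ Δ.m + EE Γ) (hj : j = Γ.C * p + (Γ.col η).val) :
    hold Δ c g j = (c η p).2 := by
  have hC := Γ.C_pos
  have h2 : (j : ZMod Γ.C) = Γ.col η := by
    rw [hj]; push_cast; simp
  have h3 : j / Γ.C = p := by
    have := ZMod.val_lt (Γ.col η)
    rw [hj, add_comm, Int.add_mul_ediv_left _ _ (by omega), Int.ediv_eq_zero_of_lt (by omega)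
      (by omega), zero_add]
  have h4 := rr_bd Δ (.inl true)
  obtain ⟨h5, h6⟩ := of_near Δ (g := g) (i := (j : ZMod Γ.C)) (η := η) ⟨h2.symm, by omega⟩
  funext κ
  have h7 := rr_bd Δ κ
  unfold hold
  rw [h5, h6, h3, if_pos (by omega)]

theorem cast_div (n : ℤ) : n = Γ.C * (n / Γ.C) + ((n : ZMod Γ.C)).val := by
  rw [ZMod.val_intCast, Int.mul_ediv_add_emod]

theorem SR_reg (c : Dia Γ T) (g : G) (h : Bt Γ) (j : ℤ) (ϱ : Rid Γ) (x : Xs Γ) :
    brain Δ c (h.1 * g) j (.inr (ϱ, x)) =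
      rd Δ (ins Δ true h (.inr (ϱ, x)) (brain Δ c g j)).2
        (Θ Δ c g (2 * j + 1 + ofs (ins Δ true h (.inr (ϱ, x)) (brain Δ c g j)).1)).2 := by
  have e0 : ins Δ true h (.inr (ϱ, x)) (brain Δ c g j) = insR Δ (rel Δ g (j + x.1 : ℤ))
      (rel Δ (h.1 * g) (j + x.1 : ℤ)) (j + x.1 : ℤ) ϱ x (brain Δ c g j) := by
    simp only [ins, brain, getT, getS, ← Δ.tau_act, relT_tau]
    push_cast
    rfl
  rw [e0]
  obtain ⟨n, hn⟩ : ∃ n, n = j + x.1 := ⟨_, rfl⟩
  have eb : ∀ (g : G) (j' : ℤ) (ϱ : Rid Γ) (x' : Xs Γ), j' + x'.1 = n →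
      pres Δ (rel Δ g n) n ϱ x'.1 →
      brain Δ c g j' (.inr (ϱ, x')) = val Δ c g n ϱ.1 ϱ.2.1 ϱ.2.2 := by
    intro g j' ϱ x' e hp
    simp only [brain, e, hp, if_true]
  rw [← hn]
  unfold insR
  by_cases h1 : pres Δ (rel Δ (h.1 * g) n) n ϱ x.1
  swap
  · rw [if_neg h1]
    simp only [brain, ← hn, h1, if_false]
    rfl
  rw [if_pos h1, eb _ _ _ _ hn.symm h1]
  obtain ⟨s1, s2, s3, s4⟩ := stage_bd (n : ZMod Γ.C) ϱ x
  have hr := rr_bd Δ (kap Δ (rel Δ (h.1 * g) n))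
  obtain ⟨m1, m2, m3⟩ := move Δ (g := g) (i := (n : ZMod Γ.C)) h.2 (by
    have := h1.1; omega)
  have u1 : U Δ (rel Δ g n) (kap Δ (rel Δ (h.1 * g) n)) ϱ.1.1 (stage Γ n ϱ x.1 - 3) := by
    apply U.move Δ h.2
    rw [← m2]
    exact U.mono Δ h1 (by omega)
  have k1 := kap_eq Δ u1 (by omega)
  rw [← k1] at u1
  rw [← val_congr Δ c m1 k1]
  by_cases h2 : pres Δ (rel Δ g n) n ϱ x.1
  · rw [if_pos h2, rd_chunk, show 2 * j + 1 + ofs 2 = 2 * j + 1 by simp [ofs], Θ_odd]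
    exact (eb _ _ _ _ hn.symm h2).symm
  rw [if_neg h2]
  have hd := del_bd Γ n ϱ x.1
  obtain ⟨x1, x2⟩ := x.2
  by_cases h3 : del Γ n ϱ x.1 = 0
  · rw [if_pos h3, show 2 * j + 1 + ofs 1 = 2 * j by simp [ofs], Θ_even]
    have hf : hold Δ c g j
        = (c (ϱ.1.1⁻¹ * eta Δ g n) (n / Γ.C + om ϱ.2.1 ϱ.2.2)).2 := by
      apply hold_full
      · have e : g * (Δ.Φ (ϱ.1.1⁻¹ * eta Δ g n))⁻¹ = rel Δ g n * Δ.Φ ϱ.1.1 := by
          rw [(of_near Δ m3).2]; simp [mul_assoc]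
        have := u1.2.2
        rw [e]; omega
      · rw [← cm_col, m3.1]
        have := cast_div (Γ := Γ) n
        unfold del at h3
        rw [mul_add]
        omega
    simp only [hf]
    obtain ⟨h', s, _ | o⟩ := ϱ
    · rfl
    · have s5 := (stage_bd (n : ZMod Γ.C) (h', s, none) x).2.2.1 rfl
      have s6 := s4 (by simp)
      have := eb g j (h', s, none) x hn.symm (U.mono Δ u1 (by omega))
      simp only [req, this, val, getI, om]
  rw [if_neg h3]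
  by_cases h4 : 0 < del Γ n ϱ x.1
  · rw [if_pos h4, rd_chunk, show 2 * j + 1 + ofs 4 = 2 * (j + 1) + 1 by simp [ofs]; ring, Θ_odd]
    have hc : (clip Γ (x.1 - 1)).1 = x.1 - 1 := clip_val Γ (by omega) (by omega)
    refine (eb g (j + 1) ϱ _ (by rw [hc]; omega) ?_).symm
    rw [hc]
    refine U.mono Δ u1 ?_
    have : del Γ n ϱ (x.1 - 1) = del Γ n ϱ x.1 - 1 := by unfold del; ring
    unfold stage
    rw [this]
    omega
  · rw [if_neg h4, rd_chunk, show 2 * j + 1 + ofs 0 = 2 * (j - 1) + 1 by simp [ofs]; ring, Θ_odd]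
    have hc : (clip Γ (x.1 + 1)).1 = x.1 + 1 := clip_val Γ (by omega) (by omega)
    refine (eb g (j - 1) ϱ _ (by rw [hc]; omega) ?_).symm
    rw [hc]
    refine U.mono Δ u1 ?_
    have : del Γ n ϱ (x.1 + 1) = del Γ n ϱ x.1 + 1 := by unfold del; ring
    unfold stage
    rw [this]
    omega

theorem SR_hold (c : Dia Γ T) (hc : SR Δ c) (g : G) (h : Bt Γ) (j : ℤ) (κ : K Γ) :
    hold Δ c (h.1 * g) j κ =
      rd Δ (ins Δ false h κ (brain Δ c g j)).2
        (Θ Δ c g (2 * j + ofs (ins Δ false h κ (brain Δ c g j)).1)).2 := by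
  have e0 : ins Δ false h κ (brain Δ c g j) = insH Δ (rel Δ g j)
      (rel Δ (h.1 * g) j) (c 1 (j / Γ.C)).1 κ (brain Δ c g j) := by
    simp only [ins, brain, getT, getS, ← Δ.tau_act, relT_tau]
  rw [e0]
  unfold insH
  by_cases h1 : Γ.ν (rel Δ (h.1 * g) j) ≤ rr Δ κ
  swap
  · rw [if_neg h1]
    simp only [hold, h1, if_false]
    rfl
  rw [if_pos h1]
  have hr := rr_bd Δ κ
  obtain ⟨m1, m2, m3⟩ := move Δ (g := g) (i := (j : ZMod Γ.C)) h.2 (by omega)
  have e1 : hold Δ c (h.1 * g) j κ = (c (eta Δ g j) (j / Γ.C)).2 κ := by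
    simp only [hold, h1, if_true, m1]
  rw [e1]
  by_cases h2 : Γ.ν (rel Δ g j) ≤ rr Δ κ
  · rw [if_pos h2, rd_chunk, show 2 * j + ofs 2 = 2 * j by simp [ofs], Θ_even]
    simp only [hold, h2, if_true]
  rw [if_neg h2, rd_chunk, show 2 * j + ofs 3 = 2 * j + 1 by simp [ofs], Θ_odd]
  have a1 := nu_move h.2 (rel Δ g j)
  rw [← m2] at a1
  have a2 := pickh_spec Δ (t := rel Δ g j) (by omega)
  generalize pickh Δ (rel Δ g j) = h' at a2
  have u1 : U Δ (rel Δ g j) κ h'.1 (EE Γ) := ⟨by omega, by omega, by omega⟩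
  have k1 := kap_eq Δ u1 (by unfold EE; omega)
  have hz : (clip Γ 0).1 = 0 := clip_val Γ (by omega) (by omega)
  have eb : ∀ (s : Bool) (oo : Option (Fin 5)),
      brain Δ c g j (.inr ((h', s, oo), clip Γ 0)) = val Δ c g j h' s oo := by
    intro s oo
    have : pres Δ (rel Δ g j) j (h', s, oo) (clip Γ 0).1 := by
      unfold pres
      rw [k1]
      exact U.mono Δ u1 (stage_bd _ _ _).2.1
    simp only [brain]
    rw [show j + (clip Γ 0).1 = j by rw [hz, add_zero], if_pos this]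
  simp only [eb, val, getI, vI, k1]
  have := hc.2 (h'.1⁻¹ * eta Δ g j) h' (j / Γ.C) κ
  rw [mul_inv_cancel_left, hc.1] at this
  exact this

theorem SR_Θ (c : Dia Γ T) (hc : SR Δ c) : SR Δ (Θ Δ c) := by
  constructor
  · intro g p
    unfold Θ
    split_ifs <;> rfl
  · intro g h p κ
    rcases Int.even_or_odd' p with ⟨j, rfl | rfl⟩
    · rw [Θ_even, Θ_even]
      simp only [om, Bool.false_eq_true, if_false, Θ_odd]
      exact SR_hold Δ c hc g h j κ
    · rw [Θ_odd, Θ_odd]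
      simp only [om, if_true, add_zero, Θ_odd]
      rcases κ with (_ | _) | ⟨ϱ, x⟩
      · simp only [ins, rd_chunk]
        rw [show 2 * j + 1 + ofs 2 = 2 * j + 1 by simp [ofs], Θ_odd]
        rfl
      · simp only [ins, rd]
        rw [show 2 * j + 1 + ofs 2 = 2 * j + 1 by simp [ofs], Θ_odd]
        simp only [brain, getT, Δ.tau_act]
      · exact SR_reg Δ c g h j ϱ x

def c0 : Dia Γ T := fun _ _ => (false, fun _ => none)

theorem SR_c0 : SR Δ (c0 : Dia Γ T) := by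
  refine ⟨fun _ _ => rfl, fun g h p κ => ?_⟩
  simp only [c0, ins, insH]
  split_ifs <;> rfl

noncomputable def dia (k : ℕ) : Dia Γ T := (Θ Δ)^[k] c0

theorem dia_succ (k : ℕ) : dia Δ (k + 1) = Θ Δ (dia Δ k) := Function.iterate_succ_apply' _ _ _

theorem SR_dia (k : ℕ) : SR Δ (dia Δ k) := by
  induction k with
  | zero => exact SR_c0 Δ
  | succ k ih => rw [dia_succ]; exact SR_Θ Δ _ ih

theorem det (h : G) (hh : Γ.ν h ≤ 3) (k k' : ℕ) (a a' : G) (p p' : ℤ)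
    (H : ∀ i : ℤ, |i| ≤ (2 : ℕ) → dia Δ k a (p + i) = dia Δ k' a' (p' + i)) :
    dia Δ k (h * a) p = dia Δ k' (h * a') p' := by
  have h0 : dia Δ k a p = dia Δ k' a' p' := by simpa using H 0 (by simp)
  have h1 : ∀ s oo, dia Δ k a (p + om s oo) = dia Δ k' a' (p' + om s oo) := fun s oo =>
    H _ (by have := om_bd s oo; rw [abs_le]; push_cast; omega)
  have h2 : ∀ o, dia Δ k a (p + ofs o) = dia Δ k' a' (p' + ofs o) := fun o => h1 true (some o)
  apply Prod.ext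
  · rw [(SR_dia Δ k).1, (SR_dia Δ k').1, ← (SR_dia Δ k).1 a, ← (SR_dia Δ k').1 a', h0]
  · funext κ
    rw [(SR_dia Δ k).2 a ⟨h, hh⟩, (SR_dia Δ k').2 a' ⟨h, hh⟩, h0, h1, h2]

theorem faithful (γ : G) (H : ∀ k a p, dia Δ k (γ * a) p = dia Δ k a p) : γ = 1 := by
  have hm : 2 ≤ Δ.m := by
    have := Δ.big
    unfold bound at this
    omega
  obtain ⟨n, hn⟩ : ∃ n, Γ.ν γ = n := ⟨_, rfl⟩
  induction n using Nat.strong_induction_on generalizing γ with
  | _ n ih =>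
    have ht : ∀ a, Δ.tau a = Δ.tau (γ * a) := by
      intro a
      have := H 1 a (2 * 0 + 1)
      rw [dia_succ, Θ_odd, Θ_odd] at this
      have := congrFun (congrArg Prod.snd this) (.inl true)
      simp only [brain, Option.some.injEq, Sum.inl.injEq] at this
      exact this.symm
    obtain ⟨k', e, -⟩ := Δ.tau_eq _ _ (ht 1)
    rw [mul_one, one_mul] at e
    have hcol : ∀ η, Γ.col (k' * η) = Γ.col η := by
      intro η
      obtain ⟨k'', e', h2⟩ := Δ.tau_eq _ _ (ht (Δ.Φ η))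
      rw [e, ← map_mul, ← map_mul] at e'
      rw [Δ.Φ_inj e', h2]
    have h1 : k' = 1 := by
      by_cases h4 : Γ.ν k' ≤ 4
      · apply Γ.col_sep 1 k'
        · rw [← hcol 1, mul_one]
        · simpa using h4
      · refine ih (Γ.ν k') ?_ k' ?_ rfl
        · have : ¬ Γ.ν (Δ.Φ k') ≤ Δ.m * (Γ.ν k' - 1) := fun h5 => by
            have := Δ.expand _ _ h5; omega
          rw [← e, hn] at this
          have h6 := Nat.mul_le_mul_right (Γ.ν k' - 1) hm
          omega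
        · intro k η p
          have h5 := H (k + 1) (Δ.Φ η) (2 * (Γ.C * p + (Γ.col η).val))
          rw [dia_succ, Θ_even, Θ_even, e, ← map_mul,
            hold_full Δ _ (η := k' * η) (p := p) (by simp [Γ.ν_one]) (by rw [hcol]),
            hold_full Δ _ (η := η) (p := p) (by simp [Γ.ν_one]) rfl] at h5
          apply Prod.ext
          · rw [(SR_dia Δ k).1, (SR_dia Δ k).1 η]
          · exact (Prod.mk.inj h5).2
    rw [e, h1, map_one]

end Pool.Agent.Lib.helper8.Heis
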