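import Pool.Agent.Lib.helper8.Heis2

set_option autoImplicit false

namespace Pool.Agent.Lib.helper8.Heis

structure Act (G B : Type) [Group G] where
  X : Set (ℤ → B)
  act : G → (ℤ → B) → (ℤ → B)
  ne : X.Nonempty
  closed : ∀ x, (∀ N : ℕ, ∃ y ∈ X, ∀ i : ℤ, |i| ≤ N → y i = x i) → x ∈ X
  shift : ∀ d : ℤ, ∀ x ∈ X, (fun n => x (n + d)) ∈ X
  maps : ∀ g, ∀ x ∈ X, act g x ∈ X
  one : ∀ x ∈ X, act 1 x = x
  mul : ∀ g h, ∀ x ∈ X, act (g * h) x = act g (act h x)
  comm : ∀ g (d : ℤ), ∀ x ∈ X, act g (fun n => x (n + d)) = fun n => act g x (n + d)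
  loc : ∀ g, ∃ r : ℕ, ∀ x ∈ X, ∀ y ∈ X, ∀ j : ℤ,
    (∀ i : ℤ, |i| ≤ r → x (j + i) = y (j + i)) → act g x j = act g y j
  faith : ∀ g, (∀ x ∈ X, act g x = x) → g = 1

variable {G : Type} [Group G] {B : Type}

def Det (c : ℕ → G → ℤ → B) (g : G) (R : ℕ) : Prop :=
  ∀ k k' a a' p p', (∀ i : ℤ, |i| ≤ R → c k a (p + i) = c k' a' (p' + i)) →
    c k (g * a) p = c k' (g * a') p'

theorem Det.mul {c : ℕ → G → ℤ → B} {g h : G} {R R' : ℕ} (H : Det c g R) (H' : Det c h R') :
    Det c (g * h) (R + R') := by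
  intro k k' a a' p p' e
  rw [mul_assoc, mul_assoc]
  apply H
  intro i hi
  apply H'
  intro i' hi'
  rw [add_assoc, add_assoc]
  apply e
  push_cast
  exact (abs_add_le _ _).trans (add_le_add hi hi')

theorem act_of_det (c : ℕ → G → ℤ → B) (hdet : ∀ g, ∃ R, Det c g R)
    (hf : ∀ γ, (∀ k a p, c k (γ * a) p = c k a p) → γ = 1) :
    ∃ α : Act G B, ∀ x ∈ α.X, ∀ n, ∃ k a p, x n = c k a p := by
  classical
  choose R hR using hdet
  let X : Set (ℤ → B) := {x | ∀ N : ℕ, ∃ k a p, ∀ i : ℤ, |i| ≤ N → x i = c k a (p + i)}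
  let act : G → (ℤ → B) → (ℤ → B) := fun g x j =>
    if h : ∃ q : ℕ × G × ℤ, ∀ i : ℤ, |i| ≤ R g → x (j + i) = c q.1 q.2.1 (q.2.2 + i)
    then c h.choose.1 (g * h.choose.2.1) h.choose.2.2 else x j
  have spec : ∀ g x j k a p, (∀ i : ℤ, |i| ≤ R g → x (j + i) = c k a (p + i)) →
      act g x j = c k (g * a) p := by
    intro g x j k a p h
    have H : ∃ q : ℕ × G × ℤ, ∀ i : ℤ, |i| ≤ R g → x (j + i) = c q.1 q.2.1 (q.2.2 + i) :=
      ⟨(k, a, p), h⟩
    simp only [act, dif_pos H]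
    exact hR g _ _ _ _ _ _ fun i hi => (H.choose_spec i hi).symm.trans (h i hi)
  have spec' : ∀ g x (N : ℕ) k a p, (∀ i : ℤ, |i| ≤ (N + R g : ℕ) → x i = c k a (p + i)) →
      ∀ j : ℤ, |j| ≤ N → act g x j = c k (g * a) (p + j) := by
    intro g x N k a p h j hj
    apply spec
    intro i hi
    rw [add_assoc]
    apply h
    push_cast
    exact (abs_add_le _ _).trans (add_le_add hj hi)
  have habs : ∀ j : ℤ, |j| ≤ (j.natAbs : ℕ) := fun j => by rw [Int.natCast_natAbs]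
  have hshift : ∀ d : ℤ, ∀ x ∈ X, (fun n => x (n + d)) ∈ X := by
    intro d x hx N
    obtain ⟨k, a, p, h⟩ := hx (N + d.natAbs)
    refine ⟨k, a, p + d, fun i hi => ?_⟩
    rw [show p + d + i = p + (i + d) by ring]
    apply h
    push_cast
    exact (abs_add_le _ _).trans (add_le_add hi le_rfl)
  have hwin : ∀ x ∈ X, ∀ (j : ℤ) (N : ℕ), ∃ k a p, ∀ i : ℤ, |i| ≤ N →
      x (j + i) = c k a (p + i) := by
    intro x hx j N
    obtain ⟨k, a, p, h⟩ := hshift j x hx N
    exact ⟨k, a, p, fun i hi => by rw [add_comm]; exact h i hi⟩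
  have hrow : ∀ k a, c k a ∈ X := fun k a N => ⟨k, a, 0, fun i _ => by rw [zero_add]⟩
  refine ⟨⟨X, act, ⟨_, hrow 0 1⟩, ?_, hshift, ?_, ?_, ?_, ?_, ?_, ?_⟩, ?_⟩
  · intro x h N
    obtain ⟨y, hy, h1⟩ := h N
    obtain ⟨k, a, p, h2⟩ := hy N
    exact ⟨k, a, p, fun i hi => (h1 i hi).symm.trans (h2 i hi)⟩
  · intro g x hx N
    obtain ⟨k, a, p, h⟩ := hx (N + R g)
    exact ⟨k, g * a, p, spec' g x N k a p h⟩
  · intro x hx
    funext j
    obtain ⟨k, a, p, h⟩ := hwin x hx j (R 1)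
    rw [spec 1 x j k a p h, one_mul]
    simpa using (h 0 (by simp)).symm
  · intro g h x hx
    funext j
    obtain ⟨k, a, p, e⟩ := hwin x hx j (R g + R h + R (g * h))
    rw [spec (g * h) x j k a p (fun i hi => e i (by push_cast; linarith [Nat.cast_nonneg (α := ℤ) (R g), Nat.cast_nonneg (α := ℤ) (R h)])), mul_assoc]
    symm
    apply spec
    intro i hi
    apply spec
    intro i' hi'
    rw [add_assoc, add_assoc]
    apply e
    push_cast
    linarith [abs_add_le i i', Nat.cast_nonneg (α := ℤ) (R (g * h))]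
  · intro g d x hx
    funext j
    obtain ⟨k, a, p, e⟩ := hwin x hx (j + d) (R g)
    rw [spec g x (j + d) k a p e]
    refine spec g (fun n => x (n + d)) j k a p fun i hi => ?_
    show x (j + i + d) = _
    rw [show j + i + d = j + d + i by ring]
    exact e i hi
  · intro g
    refine ⟨R g, fun x hx y _ j h => ?_⟩
    obtain ⟨k, a, p, e⟩ := hwin x hx j (R g)
    rw [spec g x j k a p e, spec g y j k a p fun i hi => (h i hi).symm.trans (e i hi)]
  · intro g h
    apply hf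
    intro k a p
    have := congrFun (h _ (hrow k a)) p
    rwa [spec g _ p k a p fun _ _ => rfl] at this
  · intro x hx n
    obtain ⟨k, a, p, e⟩ := hwin x hx n 0
    exact ⟨k, a, p, by simpa using e 0 (by simp)⟩

theorem act_of_geo (Γ : Geo0 G) {T : Type} [Finite T] (Δ : Geo1 Γ T)
    (gen : ∀ g, g ∈ Subgroup.closure {h | Γ.ν h ≤ 3}) :
    ∃ n : ℕ, ∀ (B : Type) (e : Fin n → B), Function.Injective e →
      ∃ α : Act G B, ∀ x ∈ α.X, ∀ j, ∃ i, x j = e i := by
  obtain ⟨n, ⟨f⟩⟩ := Finite.exists_equiv_fin (A Γ T)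
  refine ⟨n, fun B e he => ?_⟩
  have hi : Function.Injective fun a => e (f a) := he.comp f.injective
  obtain ⟨α, hα⟩ := act_of_det (fun k a p => e (f (dia Δ k a p))) (by
    have hb : ∀ h, Γ.ν h ≤ 3 → Det (fun k a p => e (f (dia Δ k a p))) h 2 :=
      fun h hh k k' a a' p p' H => congrArg (fun a => e (f a))
        (det Δ h hh k k' a a' p p' fun i h1 => hi (H i h1))
    intro g
    induction gen g using Subgroup.closure_induction_left with
    | one => exact ⟨2, hb 1 (by rw [Γ.ν_one]; omega)⟩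
    | mul_left x hx y _ ih => exact ⟨_, (hb x hx).mul ih.choose_spec⟩
    | inv_mul_cancel x hx y _ ih =>
      exact ⟨_, (hb x⁻¹ (by rw [Γ.ν_inv]; exact hx)).mul ih.choose_spec⟩)
    (fun γ H => faithful Δ γ fun k a p => hi (H k a p))
  refine ⟨α, fun x hx j => ?_⟩
  obtain ⟨k, a, p, h⟩ := hα x hx j
  exact ⟨_, h⟩

variable (α : Act G B)

def Act.perm : G →* Equiv.Perm α.X where
  toFun g :=
    { toFun := fun x => ⟨α.act g x.1, α.maps g _ x.2⟩
      invFun := fun x => ⟨α.act g⁻¹ x.1, α.maps _ _ x.2⟩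
      left_inv := fun x => Subtype.ext (by
        show α.act g⁻¹ (α.act g x.1) = x.1
        rw [← α.mul _ _ _ x.2, inv_mul_cancel, α.one _ x.2])
      right_inv := fun x => Subtype.ext (by
        show α.act g (α.act g⁻¹ x.1) = x.1
        rw [← α.mul _ _ _ x.2, mul_inv_cancel, α.one _ x.2]) }
  map_one' := Equiv.ext fun x => Subtype.ext (α.one _ x.2)
  map_mul' g h := Equiv.ext fun x => Subtype.ext (α.mul g h _ x.2)

theorem Act.perm_val (g : G) (x : α.X) : (α.perm g x).1 = α.act g x.1 := rfl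

theorem Act.perm_inj : Function.Injective α.perm := by
  rw [injective_iff_map_eq_one]
  intro g h
  apply α.faith
  intro x hx
  rw [← α.perm_val g ⟨x, hx⟩, h]
  rfl

theorem nhds_win {I : Type} [TopologicalSpace B] [DiscreteTopology B] (f : ℤ → I) (r : ℕ)
    (x : I → B) : {y | ∀ i : ℤ, |i| ≤ r → y (f i) = x (f i)} ∈ nhds x := by
  have : {y : I → B | ∀ i : ℤ, |i| ≤ r → y (f i) = x (f i)}
      = ⋂ i ∈ Finset.Icc (-(r : ℤ)) r, {y | y (f i) = x (f i)} := by
    ext y; simp [abs_le]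
  rw [this, Filter.biInter_finset_mem]
  intro i _
  exact (continuous_apply (f i)).continuousAt ((isOpen_discrete {x (f i)}).mem_nhds rfl)

theorem Act.isClosed [TopologicalSpace B] [DiscreteTopology B] : IsClosed α.X := by
  apply isClosed_of_closure_subset
  intro x hx
  apply α.closed
  intro N
  obtain ⟨y, h1, h2⟩ := mem_closure_iff_nhds.1 hx _ (nhds_win id N x)
  exact ⟨y, h2, h1⟩

theorem Act.cont [TopologicalSpace B] [DiscreteTopology B] (g : G) :
    Continuous (α.perm g) := by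
  apply Continuous.subtype_mk
  refine continuous_pi fun j => continuous_iff_continuousAt.2 fun x => ?_
  obtain ⟨r, hr⟩ := α.loc g
  refine Filter.Tendsto.congr' ?_ tendsto_const_nhds
  filter_upwards [continuous_subtype_val.continuousAt (nhds_win (fun i => j + i) r x.1)]
    with y hy
  exact (hr _ y.2 _ x.2 j hy).symm

theorem Act.shift_iff (d : ℤ) (x : ℤ → B) : x ∈ α.X ↔ (fun n => x (n + d)) ∈ α.X := by
  refine ⟨α.shift d x, fun h => ?_⟩
  simpa using α.shift (-d) _ h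

end Pool.Agent.Lib.helper8.Heis
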