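import Pool.Agent.Lib.helper8.Heis3

set_option autoImplicit false

namespace Pool.Agent.Lib.helper8.Heis

@[ext] structure H where
  x : ℤ
  y : ℤ
  z : ℤ

instance : Mul H := ⟨fun a b => ⟨a.x + b.x, a.y + b.y, a.z + b.z + a.x * b.y⟩⟩
instance : One H := ⟨⟨0, 0, 0⟩⟩
instance : Inv H := ⟨fun a => ⟨-a.x, -a.y, a.x * a.y - a.z⟩⟩

@[simp] theorem mul_x (a b : H) : (a * b).x = a.x + b.x := rfl
@[simp] theorem mul_y (a b : H) : (a * b).y = a.y + b.y := rfl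
@[simp] theorem mul_z (a b : H) : (a * b).z = a.z + b.z + a.x * b.y := rfl
@[simp] theorem one_x : (1 : H).x = 0 := rfl
@[simp] theorem one_y : (1 : H).y = 0 := rfl
@[simp] theorem one_z : (1 : H).z = 0 := rfl
@[simp] theorem inv_x (a : H) : a⁻¹.x = -a.x := rfl
@[simp] theorem inv_y (a : H) : a⁻¹.y = -a.y := rfl
@[simp] theorem inv_z (a : H) : a⁻¹.z = a.x * a.y - a.z := rfl

instance : Group H := Group.ofLeftAxioms
  (fun a b c => by ext <;> simp <;> ring) (fun a => by ext <;> simp)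
  (fun a => by ext <;> simp)

def Ball (r : ℕ) (g : H) : Prop :=
  |g.x| ≤ r ∧ |g.y| ≤ r ∧ |g.z| ≤ (r : ℤ) ^ 2 ∧ |g.z - g.x * g.y| ≤ (r : ℤ) ^ 2

theorem Ball.mono {r s : ℕ} {g : H} (h : Ball r g) (hs : r ≤ s) : Ball s g := by
  have h1 : (r : ℤ) ≤ s := by exact_mod_cast hs
  have h2 : (r : ℤ) ^ 2 ≤ (s : ℤ) ^ 2 := by gcongr
  exact ⟨h.1.trans h1, h.2.1.trans h1, h.2.2.1.trans h2, h.2.2.2.trans h2⟩

theorem ball_ex (g : H) : ∃ r, Ball r g := by
  refine ⟨g.x.natAbs + g.y.natAbs + g.z.natAbs + (g.z - g.x * g.y).natAbs, ?_⟩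
  unfold Ball
  push_cast
  have h1 := abs_nonneg g.x
  have h2 := abs_nonneg g.y
  have h3 := abs_nonneg g.z
  have h4 := abs_nonneg (g.z - g.x * g.y)
  have h5 := Int.le_self_sq (|g.x| + |g.y| + |g.z| + |g.z - g.x * g.y|)
  refine ⟨by linarith, by linarith, by linarith, by linarith⟩

open Classical in
noncomputable def nu (g : H) : ℕ := Nat.find (ball_ex g)

open Classical in
theorem nu_le {g : H} {r : ℕ} : nu g ≤ r ↔ Ball r g :=
  ⟨fun h => (Nat.find_spec (ball_ex g)).mono h, fun h => Nat.find_min' _ h⟩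

theorem Ball.mul {r s : ℕ} {g h : H} (a : Ball r g) (b : Ball s h) : Ball (r + s) (g * h) := by
  obtain ⟨a1, a2, a3, a4⟩ := a
  obtain ⟨b1, b2, b3, b4⟩ := b
  have c1 : |g.x * h.y| ≤ r * s := by
    rw [abs_mul]; exact mul_le_mul a1 b2 (abs_nonneg _) (by positivity)
  have c2 : |h.x * g.y| ≤ s * r := by
    rw [abs_mul]; exact mul_le_mul b1 a2 (abs_nonneg _) (by positivity)
  have c3 : (0 : ℤ) ≤ r * s := by positivity
  unfold Ball
  simp only [mul_x, mul_y, mul_z]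
  push_cast
  rw [abs_le] at *
  refine ⟨⟨by linarith, by linarith⟩, ?_, ?_, ?_⟩
  · rw [abs_le]; constructor <;> linarith
  · rw [abs_le]; constructor <;> nlinarith
  · rw [abs_le]; constructor <;> nlinarith

theorem Ball.inv {r : ℕ} {g : H} (a : Ball r g) : Ball r g⁻¹ := by
  obtain ⟨a1, a2, a3, a4⟩ := a
  refine ⟨by simpa using a1, by simpa using a2, ?_, ?_⟩
  · rw [inv_z, abs_sub_comm]; exact a4
  · simpa using a3

theorem fin_ball (r : ℕ) : Finite {h : H // nu h ≤ r} := by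
  let f : {h : H // nu h ≤ r} → Set.Icc (-(r : ℤ)) r × Set.Icc (-(r : ℤ)) r ×
      Set.Icc (-((r : ℤ) ^ 2)) ((r : ℤ) ^ 2) := fun h =>
    (⟨h.1.x, abs_le.1 (nu_le.1 h.2).1⟩, ⟨h.1.y, abs_le.1 (nu_le.1 h.2).2.1⟩,
      ⟨h.1.z, abs_le.1 (nu_le.1 h.2).2.2.1⟩)
  apply Finite.of_injective f
  intro a b h
  simp only [f, Prod.mk.injEq, Subtype.mk.injEq] at h
  exact Subtype.ext (H.ext h.1 h.2.1 h.2.2)

theorem C_ex : ∃ n : ℕ, 0 < n ∧ Nonempty ((ZMod 17 × ZMod 17 × ZMod 17) ≃ ZMod n) := by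
  obtain ⟨n, ⟨e⟩⟩ := Finite.exists_equiv_fin (ZMod 17 × ZMod 17 × ZMod 17)
  rcases n with _ | n
  · exact (e 0).elim0
  · exact ⟨n + 1, n.succ_pos, ⟨e⟩⟩

noncomputable def colH (g : H) : ZMod C_ex.choose :=
  C_ex.choose_spec.2.some ((g.x : ZMod 17), (g.y : ZMod 17), (g.z : ZMod 17))

theorem colH_eq {a b : H} : colH a = colH b ↔ (a.x : ZMod 17) = b.x ∧ (a.y : ZMod 17) = b.y ∧
    (a.z : ZMod 17) = b.z := by
  unfold colH
  rw [Equiv.apply_eq_iff_eq]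
  simp

noncomputable def geo0 : Geo0 H where
  ν := nu
  ν_mul g h := nu_le.2 ((nu_le.1 le_rfl).mul (nu_le.1 le_rfl))
  ν_inv g := le_antisymm (nu_le.2 (nu_le.1 le_rfl).inv)
    (nu_le.2 (by simpa using (nu_le (g := g⁻¹).1 le_rfl).inv))
  ν_one := Nat.le_zero.1 (nu_le.2 (by simp [Ball]))
  fin := fin_ball 3
  C := C_ex.choose
  C_pos := C_ex.choose_spec.1
  col := colH
  col_left h η η' e := by
    obtain ⟨e1, e2, e3⟩ := colH_eq.1 e
    rw [colH_eq]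
    simp [e1, e2, e3]
  col_sep η η' e h := by
    obtain ⟨e1, e2, e3⟩ := colH_eq.1 e
    obtain ⟨h1, h2, h3, -⟩ := nu_le.1 h
    rw [ZMod.intCast_eq_intCast_iff_dvd_sub] at e1 e2 e3
    simp only [mul_x, mul_y, mul_z, inv_x, inv_y, inv_z, abs_le] at h1 h2 h3
    have a1 : η'.x = η.x := by omega
    have a2 : η'.y = η.y := by omega
    rw [a1] at h3
    have a3 : η'.z + (η.x * η.y - η.z) + η.x * -η.y = η'.z - η.z := by ring
    rw [a3] at h3
    exact H.ext a1 a2 (by omega)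
  far n := ⟨⟨n + 1, 0, 0⟩, by
    by_contra h
    have := (nu_le.1 (not_lt.1 h)).1
    rw [abs_le] at this
    simp only at this
    omega⟩

def Phi (m : ℕ) : H →* H where
  toFun g := ⟨m * g.x, m * g.y, (m : ℤ) ^ 2 * g.z⟩
  map_one' := by ext <;> simp
  map_mul' a b := by ext <;> simp <;> ring

@[simp] theorem Phi_x (m : ℕ) (g : H) : (Phi m g).x = m * g.x := rfl
@[simp] theorem Phi_y (m : ℕ) (g : H) : (Phi m g).y = m * g.y := rfl
@[simp] theorem Phi_z (m : ℕ) (g : H) : (Phi m g).z = (m : ℤ) ^ 2 * g.z := rfl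

theorem cover (m : ℕ) (hm : 0 < m) (t : H) : ∃ h, nu (t * Phi m h) ≤ m := by
  have h0 : (0 : ℤ) < m := by exact_mod_cast hm
  have h1 : (0 : ℤ) < (m : ℤ) ^ 2 := by positivity
  refine ⟨⟨-(t.x / m), -(t.y / m), -((t.z + t.x * (m * -(t.y / m))) / (m : ℤ) ^ 2)⟩, nu_le.2 ?_⟩
  have e1 : t.x + m * -(t.x / m) = t.x % m := by rw [Int.emod_def]; ring
  have e2 : t.y + m * -(t.y / m) = t.y % m := by rw [Int.emod_def]; ring
  have e3 : t.z + (m : ℤ) ^ 2 * -((t.z + t.x * (m * -(t.y / m))) / (m : ℤ) ^ 2) +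
      t.x * (m * -(t.y / m)) = (t.z + t.x * (m * -(t.y / m))) % (m : ℤ) ^ 2 := by
    rw [Int.emod_def]; ring
  unfold Ball
  simp only [mul_x, mul_y, mul_z, Phi_x, Phi_y, Phi_z, e1, e2, e3]
  have a1 := Int.emod_nonneg t.x h0.ne'
  have a2 := Int.emod_lt_of_pos t.x h0
  have b1 := Int.emod_nonneg t.y h0.ne'
  have b2 := Int.emod_lt_of_pos t.y h0
  have c1 := Int.emod_nonneg (t.z + t.x * (m * -(t.y / m))) h1.ne'
  have c2 := Int.emod_lt_of_pos (t.z + t.x * (m * -(t.y / m))) h1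
  generalize t.x % m = a at *
  generalize t.y % m = b at *
  generalize (t.z + t.x * (m * -(t.y / m))) % (m : ℤ) ^ 2 = c at *
  have d1 : 0 ≤ a * b := by positivity
  have d2 : a * b ≤ (m : ℤ) ^ 2 := by nlinarith
  simp only [abs_le]
  refine ⟨⟨?_, ?_⟩, ⟨?_, ?_⟩, ⟨?_, ?_⟩, ?_, ?_⟩ <;> linarith

def SG (m : ℕ) : Subgroup H where
  carrier := {g | ∃ k : H, g = Phi m k ∧ 17 ∣ k.x ∧ 17 ∣ k.y ∧ 17 ∣ k.z}
  one_mem' := ⟨1, by simp⟩
  mul_mem' := by
    rintro _ _ ⟨a, rfl, a1, a2, a3⟩ ⟨b, rfl, b1, b2, b3⟩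
    exact ⟨a * b, (map_mul _ _ _).symm, a1.add b1, a2.add b2, (a3.add b3).add (a1.mul_right _)⟩
  inv_mem' := by
    rintro _ ⟨a, rfl, a1, a2, a3⟩
    exact ⟨a⁻¹, (map_inv _ _).symm, a1.neg_right, a2.neg_right, (a1.mul_right _).sub a3⟩

theorem fin_quot (m : ℕ) (hm : 0 < m) : Finite (H ⧸ SG m) := by
  have := fin_ball (17 * m)
  apply Finite.of_surjective (fun h : {h : H // nu h ≤ 17 * m} => (h.1 : H ⧸ SG m))
  intro q
  obtain ⟨g, rfl⟩ := QuotientGroup.mk_surjective q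
  obtain ⟨h, hh⟩ := cover (17 * m) (by omega) g
  refine ⟨⟨_, hh⟩, ?_⟩
  symm
  rw [QuotientGroup.eq, inv_mul_cancel_left]
  refine ⟨Phi 17 h, ?_, ?_, ?_, ?_⟩
  · ext <;> simp <;> ring
  · simp
  · simp
  · simp only [Phi_z]
    exact Dvd.dvd.mul_right (by norm_num) _

noncomputable def geo1 (m : ℕ) (hm : 0 < m) (hb : bound geo0 ≤ m) : Geo1 geo0 (H ⧸ SG m) where
  m := m
  Φ := Phi m
  Φ_inj := by
    intro a b h
    have h0 : (m : ℤ) ≠ 0 := by exact_mod_cast hm.ne'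
    have h1 := congrArg H.x h
    have h2 := congrArg H.y h
    have h3 := congrArg H.z h
    simp only [Phi_x, Phi_y, Phi_z] at h1 h2 h3
    exact H.ext (mul_left_cancel₀ h0 h1) (mul_left_cancel₀ h0 h2)
      (mul_left_cancel₀ (pow_ne_zero 2 h0) h3)
  expand h r e := by
    have h0 : (0 : ℤ) < m := by exact_mod_cast hm
    have h1 : (0 : ℤ) < (m : ℤ) ^ 2 := by positivity
    obtain ⟨a1, a2, a3, a4⟩ := nu_le.1 e
    simp only [Phi_x, Phi_y, Phi_z] at a1 a2 a3 a4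
    rw [show (m : ℤ) ^ 2 * h.z - m * h.x * (m * h.y) = (m : ℤ) ^ 2 * (h.z - h.x * h.y) by ring]
      at a4
    push_cast at a1 a2 a3 a4
    rw [abs_mul, abs_of_pos h0] at a1 a2
    rw [abs_mul, abs_of_pos h1, mul_pow] at a3 a4
    exact nu_le.2 ⟨le_of_mul_le_mul_left a1 h0, le_of_mul_le_mul_left a2 h0,
      le_of_mul_le_mul_left a3 h1, le_of_mul_le_mul_left a4 h1⟩
  cover := cover m hm
  tau g := (g : H ⧸ SG m)
  act h τ := h • τ
  tau_act _ _ := rfl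
  tau_eq g g' e := by
    obtain ⟨k, e1, k1, k2, k3⟩ := QuotientGroup.eq.1 e
    refine ⟨k, by rw [← e1, mul_inv_cancel_left], fun η => colH_eq.2 ?_⟩
    have b1 := (ZMod.intCast_zmod_eq_zero_iff_dvd k.x 17).2 k1
    have b2 := (ZMod.intCast_zmod_eq_zero_iff_dvd k.y 17).2 k2
    have b3 := (ZMod.intCast_zmod_eq_zero_iff_dvd k.z 17).2 k3
    simp [b1, b2, b3]
  big := hb

theorem gen_line (S : Subgroup H) (f : ℤ → H) (h0 : f 0 = 1)
    (h1 : ∀ n, f (n + 1) = f n * f 1) (h2 : f 1 ∈ S) (n : ℤ) : f n ∈ S := by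
  induction n using Int.induction_on with
  | zero => rw [h0]; exact S.one_mem
  | succ n ih => rw [h1]; exact S.mul_mem ih h2
  | pred n ih =>
    have := h1 (-(n : ℤ) - 1)
    rw [sub_add_cancel] at this
    rw [this] at ih
    exact (S.mul_mem_cancel_right h2).1 ih

theorem gen (g : H) : g ∈ Subgroup.closure {h | geo0.ν h ≤ 3} := by
  have e : g = (⟨g.x, 0, 0⟩ : H) * ⟨0, g.y, 0⟩ * ⟨0, 0, g.z - g.x * g.y⟩ := by ext <;> simp
  rw [e]
  refine Subgroup.mul_mem _ (Subgroup.mul_mem _ ?_ ?_) ?_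
  · exact gen_line _ (fun n => ⟨n, 0, 0⟩) rfl (fun n => by ext <;> simp)
      (Subgroup.subset_closure (nu_le.2 (by simp [Ball]))) _
  · exact gen_line _ (fun n => ⟨0, n, 0⟩) rfl (fun n => by ext <;> simp)
      (Subgroup.subset_closure (nu_le.2 (by simp [Ball]))) _
  · exact gen_line _ (fun n => ⟨0, 0, n⟩) rfl (fun n => by ext <;> simp)
      (Subgroup.subset_closure (nu_le.2 (by simp [Ball]))) _

theorem heis_act : ∃ n : ℕ, ∀ (B : Type) (e : Fin n → B), Function.Injective e →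
    ∃ α : Act H B, ∀ x ∈ α.X, ∀ j, ∃ i, x j = e i := by
  have := fin_quot (bound geo0 + 1) (by omega)
  exact act_of_geo geo0 (geo1 (bound geo0 + 1) (by omega) (by omega)) gen

end Pool.Agent.Lib.helper8.Heis
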