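import Pool.Agent.Lib.helper8.Heis4

set_option autoImplicit false

namespace Pool.Agent.Lib.helper8.Heis

open Filter Topology

noncomputable def avg (f : ℤ → ℝ) (n : ℕ) : ℝ := (∑ i ∈ Finset.range n, f i) / n

noncomputable def Mn (f : ℤ → ℝ) : ℝ := limUnder (hyperfilter ℕ : Filter ℕ) (avg f)

def Bd (f : ℤ → ℝ) : Prop := ∀ i, 0 ≤ f i ∧ f i ≤ 1

theorem avg_mem {f : ℤ → ℝ} (h : Bd f) (n : ℕ) : avg f n ∈ Set.Icc (0 : ℝ) 1 := by
  unfold avg
  refine ⟨div_nonneg (Finset.sum_nonneg fun i _ => (h i).1) (by positivity), ?_⟩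
  apply div_le_one_of_le₀ _ (by positivity)
  calc ∑ i ∈ Finset.range n, f i ≤ ∑ _i ∈ Finset.range n, (1 : ℝ) :=
        Finset.sum_le_sum fun i _ => (h i).2
    _ = n := by simp

theorem Mn_tend {f : ℤ → ℝ} (h : Bd f) :
    Tendsto (avg f) (hyperfilter ℕ : Filter ℕ) (𝓝 (Mn f)) := by
  obtain ⟨a, -, ha⟩ := isCompact_Icc.ultrafilter_le_nhds ((hyperfilter ℕ).map (avg f))
    (by rw [Ultrafilter.coe_map, le_principal_iff, mem_map]; exact univ_mem' (avg_mem h))
  exact tendsto_nhds_limUnder ⟨a, ha⟩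

theorem Mn_mem {f : ℤ → ℝ} (h : Bd f) : 0 ≤ Mn f ∧ Mn f ≤ 1 :=
  isClosed_Icc.mem_of_tendsto (Mn_tend h) (Eventually.of_forall (avg_mem h))

theorem Mn_add {f g : ℤ → ℝ} (hf : Bd f) (hg : Bd g) :
    Mn (fun i => f i + g i) = Mn f + Mn g := by
  apply Tendsto.limUnder_eq
  refine ((Mn_tend hf).add (Mn_tend hg)).congr fun n => ?_
  unfold avg
  rw [Finset.sum_add_distrib, add_div]

theorem Mn_one : Mn (fun _ => 1) = 1 := by
  apply Tendsto.limUnder_eq
  refine Tendsto.mono_left ?_ Nat.hyperfilter_le_atTop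
  refine tendsto_const_nhds.congr' ?_
  filter_upwards [eventually_gt_atTop 0] with n hn
  have : (n : ℝ) ≠ 0 := by exact_mod_cast hn.ne'
  simp [avg, this]

theorem Mn_succ {f : ℤ → ℝ} (h : Bd f) : Mn (fun i => f (i + 1)) = Mn f := by
  apply Tendsto.limUnder_eq
  have h0 : Tendsto (fun n : ℕ => (f n - f 0) / n) atTop (𝓝 0) := by
    refine squeeze_zero_norm (fun n => ?_) (tendsto_const_div_atTop_nhds_zero_nat (1 : ℝ))
    rw [norm_div, Real.norm_natCast]
    gcongr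
    rw [Real.norm_eq_abs, abs_le]
    constructor <;> linarith [h n, h 0, (h n).1, (h n).2, (h 0).1, (h 0).2]
  have h1 := (Mn_tend h).add (h0.mono_left Nat.hyperfilter_le_atTop)
  rw [add_zero] at h1
  refine h1.congr fun n => ?_
  unfold avg
  rw [← add_div]
  congr 1
  have a1 := Finset.sum_range_succ (fun i : ℕ => f i) n
  have a2 := Finset.sum_range_succ' (fun i : ℕ => f i) n
  push_cast at a2
  linarith

theorem Mn_shift {f : ℤ → ℝ} (h : Bd f) (d : ℤ) : Mn (fun i => f (i + d)) = Mn f := by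
  induction d using Int.induction_on with
  | zero => simp
  | succ d ih =>
    rw [← ih, ← Mn_succ (f := fun i => f (i + d)) fun i => h _]
    congr 1
    funext i
    congr 1
    ring
  | pred d ih =>
    rw [← ih, ← Mn_succ (f := fun i => f (i + (-d - 1))) fun i => h _]
    congr 1
    funext i
    congr 1
    ring

noncomputable def M3 (F : H → ℝ) : ℝ := Mn fun x => Mn fun y => Mn fun z => F ⟨x, y, z⟩

theorem mean_ex : ∃ m : Set H → ℝ, (∀ A, 0 ≤ m A) ∧ m Set.univ = 1 ∧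
    (∀ A B, Disjoint A B → m (A ∪ B) = m A + m B) ∧
    ∀ (g : H) (A : Set H), m ((fun h => g * h) '' A) = m A := by
  have b0 : ∀ (A : Set H) (h : H), 0 ≤ A.indicator (1 : H → ℝ) h ∧
      A.indicator (1 : H → ℝ) h ≤ 1 := by
    intro A h
    by_cases hh : h ∈ A <;> simp [hh]
  have b1 : ∀ (A : Set H) x y, Bd fun z => A.indicator (1 : H → ℝ) ⟨x, y, z⟩ :=
    fun A x y z => b0 A _
  have b2 : ∀ (A : Set H) x, Bd fun y => Mn fun z => A.indicator (1 : H → ℝ) ⟨x, y, z⟩ :=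
    fun A x y => Mn_mem (b1 A x y)
  have b3 : ∀ (A : Set H), Bd fun x => Mn fun y => Mn fun z =>
      A.indicator (1 : H → ℝ) ⟨x, y, z⟩ := fun A x => Mn_mem (b2 A x)
  refine ⟨fun A => M3 (A.indicator 1), fun A => (Mn_mem (b3 A)).1, ?_, ?_, ?_⟩
  · simp [M3, Mn_one]
  · intro A B h
    simp only [M3]
    rw [← Mn_add (b3 A) (b3 B)]
    congr 1
    funext x
    rw [← Mn_add (b2 A x) (b2 B x)]
    congr 1
    funext y
    rw [← Mn_add (b1 A x y) (b1 B x y), Set.indicator_union_of_disjoint h]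
  · intro g A
    simp only [M3]
    rw [← Mn_shift (b3 _) g.x]
    congr 1
    funext x
    rw [← Mn_shift (b2 _ _) g.y]
    congr 1
    funext y
    rw [← Mn_shift (b1 _ _ _) (g.z + g.x * y)]
    congr 1
    funext z
    have e : (⟨x + g.x, y + g.y, z + (g.z + g.x * y)⟩ : H) = g * ⟨x, y, z⟩ := by
      ext <;> simp <;> ring
    rw [e]
    by_cases hh : (⟨x, y, z⟩ : H) ∈ A
    · rw [Set.indicator_of_mem hh, Set.indicator_of_mem (Set.mem_image_of_mem _ hh)]
      rfl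
    · rw [Set.indicator_of_notMem hh, Set.indicator_of_notMem]
      rintro ⟨h, h1, h2⟩
      exact hh (mul_left_cancel h2 ▸ h1)

def gX : H := ⟨1, 0, 0⟩
def gY : H := ⟨0, 1, 0⟩
def gZ : H := ⟨0, 0, 1⟩

theorem gX_pow (n : ℕ) : gX ^ n = ⟨n, 0, 0⟩ := by
  induction n with
  | zero => rfl
  | succ n ih => rw [pow_succ, ih]; ext <;> simp [gX]

theorem gY_pow (n : ℕ) : gY ^ n = ⟨0, n, 0⟩ := by
  induction n with
  | zero => rfl
  | succ n ih => rw [pow_succ, ih]; ext <;> simp [gY]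

theorem gZ_pow (n : ℕ) : gZ ^ n = ⟨0, 0, n⟩ := by
  induction n with
  | zero => rfl
  | succ n ih => rw [pow_succ, ih]; ext <;> simp [gZ]

theorem gZ_inf : ¬ IsOfFinOrder gZ := by
  rw [isOfFinOrder_iff_pow_eq_one]
  rintro ⟨n, hn, h⟩
  have := congrArg H.z h
  rw [gZ_pow] at this
  simp at this
  omega

theorem gZ_dist (ε : ℝ) (hε : 0 < ε) : ∃ N : ℕ, ∀ n : ℕ, N ≤ n → ∃ l : List H,
    (∀ s ∈ l, s ∈ [gX, gY, gZ] ∨ s⁻¹ ∈ [gX, gY, gZ]) ∧ l.prod = gZ ^ n ∧
      (l.length : ℝ) ≤ ε * n := by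
  obtain ⟨N, hN⟩ := exists_nat_ge (36 / ε ^ 2)
  refine ⟨N, fun n hn => ?_⟩
  have h1 := Nat.sqrt_le' n
  have h2 := Nat.lt_succ_sqrt' n
  generalize Nat.sqrt n = a at h1 h2
  obtain ⟨r, hr⟩ : ∃ r, n = a ^ 2 + r := ⟨n - a ^ 2, by omega⟩
  have h3 : r ≤ 2 * a := by
    rw [Nat.succ_eq_add_one, add_sq] at h2
    omega
  refine ⟨List.replicate a gX ++ List.replicate a gY ++ List.replicate a gX⁻¹ ++
    List.replicate a gY⁻¹ ++ List.replicate r gZ, ?_, ?_, ?_⟩
  · intro s hs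
    simp only [List.mem_append, List.mem_replicate] at hs
    rcases hs with (((h | h) | h) | h) | h <;> simp [h.2]
  · simp only [List.prod_append, List.prod_replicate, inv_pow, gX_pow, gY_pow, gZ_pow, hr]
    ext <;> simp
    ring
  · simp only [List.length_append, List.length_replicate]
    push_cast
    have b1 : (r : ℝ) ≤ 2 * a := by exact_mod_cast h3
    have b2 : (a : ℝ) ^ 2 ≤ n := by exact_mod_cast h1
    have b3 : (N : ℝ) ≤ n := by exact_mod_cast hn
    have b4 : (0 : ℝ) ≤ n := by positivity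
    rw [div_le_iff₀ (by positivity)] at hN
    have b5 : 36 ≤ n * ε ^ 2 := hN.trans (by gcongr)
    have b6 : (6 * (a : ℝ)) ^ 2 ≤ (ε * n) ^ 2 := by nlinarith
    have b7 := abs_le_of_sq_le_sq' b6 (by positivity)
    linarith [b7.2]

end Pool.Agent.Lib.helper8.Heis
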