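import Mathlib

set_option autoImplicit false
set_option linter.unusedSectionVars false
set_option linter.unusedVariables false

open Finset
open scoped Pointwise

namespace Pool.Agent.Lib.helper8.Kneser

variable {G : Type} [AddCommGroup G] [Fintype G] [DecidableEq G]

/-- stabilizer of a finite set, as a finite set -/
def st (C : Finset G) : Finset G := univ.filter (fun g => ∀ x ∈ C, g + x ∈ C)

theorem mem_st {C : Finset G} {g : G} : g ∈ st C ↔ ∀ x ∈ C, g + x ∈ C := by simp [st]

structure IsSub (H : Finset G) : Prop where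
  zero : (0 : G) ∈ H
  add : ∀ {x y : G}, x ∈ H → y ∈ H → x + y ∈ H
  neg : ∀ {x : G}, x ∈ H → -x ∈ H

theorem IsSub.sub {H : Finset G} (h : IsSub H) {x y : G} (hx : x ∈ H) (hy : y ∈ H) : x - y ∈ H := by
  rw [sub_eq_add_neg]; exact h.add hx (h.neg hy)

theorem st_sub (C : Finset G) : IsSub (st C) := by
  refine ⟨mem_st.2 (fun x hx => by simpa using hx), fun {x y} hx hy => mem_st.2 (fun z hz => ?_),
    fun {g} hg => mem_st.2 (fun z hz => ?_)⟩
  · rw [add_assoc]; exact mem_st.1 hx _ (mem_st.1 hy _ hz)
  · have h1 : C.image (fun x => g + x) = C := by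
      refine eq_of_subset_of_card_le (fun y hy => ?_) ?_
      · obtain ⟨x, hx, rfl⟩ := mem_image.1 hy
        exact mem_st.1 hg x hx
      · rw [card_image_of_injective _ (add_right_injective g)]
    rw [← h1] at hz
    obtain ⟨x, hx, rfl⟩ := mem_image.1 hz
    simpa using hx

def Per (H X : Finset G) : Prop := ∀ g ∈ H, ∀ x ∈ X, g + x ∈ X

theorem per_st (C : Finset G) : Per (st C) C := fun _ hg => mem_st.1 hg

theorem per_iff {H C : Finset G} : Per H C ↔ H ⊆ st C :=
  ⟨fun h g hg => mem_st.2 (h g hg), fun h g hg => mem_st.1 (h hg)⟩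

theorem Per.add_right {H X : Finset G} (h : Per H X) (Y : Finset G) : Per H (X + Y) := by
  intro g hg z hz
  obtain ⟨x, hx, y, hy, rfl⟩ := mem_add.1 hz
  rw [← add_assoc]; exact add_mem_add (h g hg x hx) hy

theorem per_add {H : Finset G} (hH : IsSub H) (X : Finset G) : Per H (X + H) := by
  intro g hg z hz
  obtain ⟨x, hx, y, hy, rfl⟩ := mem_add.1 hz
  rw [add_left_comm]; exact add_mem_add hx (hH.add hg hy)

theorem sub_add {H : Finset G} (hH : IsSub H) (X : Finset G) : X ⊆ X + H := fun x hx => by
  simpa using add_mem_add hx hH.zero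

theorem Per.add_eq {H X : Finset G} (hH : IsSub H) (h : Per H X) : X + H = X := by
  refine Subset.antisymm (fun z hz => ?_) (sub_add hH X)
  obtain ⟨x, hx, y, hy, rfl⟩ := mem_add.1 hz
  rw [add_comm]; exact h y hy x hx

/-- coset -/
def cs (y : G) (H : Finset G) : Finset G := univ.filter (fun z => z - y ∈ H)

theorem mem_cs {y z : G} {H : Finset G} : z ∈ cs y H ↔ z - y ∈ H := by simp [cs]

theorem card_cs (y : G) (H : Finset G) : (cs y H).card = H.card := by
  refine card_bij (fun z _ => z - y) (fun z hz => mem_cs.1 hz) (fun a _ b _ e => by simpa using e)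
    (fun h hh => ⟨h + y, mem_cs.2 (by simpa using hh), by simp⟩)

theorem Per.dvd {H : Finset G} (hH : IsSub H) : ∀ (n : ℕ) (X : Finset G), X.card = n → Per H X →
    H.card ∣ X.card := by
  intro n
  induction n using Nat.strong_induction_on with
  | _ n ih =>
    intro X hn hX
    rcases X.eq_empty_or_nonempty with rfl | ⟨y, hy⟩
    · simp
    have hs : cs y H ⊆ X := fun z hz => by
      simpa using hX _ (mem_cs.1 hz) y hy
    have hc := card_sdiff_add_card_eq_card hs
    have hp : 0 < H.card := card_pos.2 ⟨0, hH.zero⟩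
    rw [card_cs] at hc
    have := ih (X \ cs y H).card (by omega) _ rfl (by
      intro g hg x hx
      rw [mem_sdiff, mem_cs] at hx ⊢
      refine ⟨hX g hg x hx.1, fun h => hx.2 ?_⟩
      have := hH.sub h hg
      rwa [show g + x - y - g = x - y by abel] at this)
    rw [← hc]
    exact Dvd.dvd.add this dvd_rfl

theorem lemL {U H H1 : Finset G} (hH : IsSub H) (h1 : H1 ⊆ H) {y : G} (hy : y ∈ U) :
    (U + H1).card + H.card ≤ (U + H).card + ((U ∩ cs y H) + H1).card := by
  have e1 : (U + H1) ∪ (cs y H \ ((U ∩ cs y H) + H1)) ⊆ U + H := by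
    intro z hz
    rcases mem_union.1 hz with hz | hz
    · exact add_subset_add_left h1 hz
    · have := add_mem_add hy (mem_cs.1 (mem_sdiff.1 hz).1)
      simpa using this
  have e2 : Disjoint (U + H1) (cs y H \ ((U ∩ cs y H) + H1)) := by
    rw [disjoint_left]
    intro z hz hz'
    obtain ⟨u, hu, g, hg, rfl⟩ := mem_add.1 hz
    rw [mem_sdiff, mem_cs] at hz'
    refine hz'.2 (add_mem_add (mem_inter.2 ⟨hu, mem_cs.2 ?_⟩) hg)
    have := hH.sub hz'.1 (h1 hg)
    rwa [show u + g - y - g = u - y by abel] at this
  have e3 := card_le_card e1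
  rw [card_union_of_disjoint e2] at e3
  have e4 := le_card_sdiff ((U ∩ cs y H) + H1) (cs y H)
  rw [card_cs] at e4
  omega

def Conv (A B C : Finset G) : Prop :=
  C ⊆ A + B ∧ C.Nonempty ∧ Per (st (A + B)) C ∧
    (A ∩ B).card + ((A ∪ B) + st C).card ≤ C.card + (st C).card

theorem piece {A B C : Finset G} (hA : Per (st (A + B)) A)
    (IH : ∀ A' B' : Finset G, A'.Nonempty → B'.Nonempty → (A' + B').card < (A + B).card →
      (A' + st (A' + B')).card + (B' + st (A' + B')).card ≤ (A' + B').card + (st (A' + B')).card)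
    (hC : Conv A B C) (hmin : ∀ C', Conv A B C' → (st C).card ≤ (st C').card)
    {h u v : G} (hh : h ∈ st C) (hx : h + (u + v) ∉ A + B)
    (h1 : (A ∩ cs u (st C)).Nonempty) (h2 : (B ∩ cs v (st C)).Nonempty) :
    ∃ H1 : Finset G, IsSub H1 ∧ H1 ⊆ st C ∧
      ((A ∪ B) + st C).card + ((A ∩ cs u (st C)) + H1).card + ((B ∩ cs v (st C)) + H1).card
        < (st C).card + ((A ∪ B) + H1).card ∧
      C.card + ((A ∩ cs u (st C)) + H1).card + ((B ∩ cs v (st C)) + H1).card
        ≤ (A + B).card + H1.card := by
  set H := st C with hHdef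
  have hH : IsSub H := st_sub C
  set A1 := A ∩ cs u H
  set B1 := B ∩ cs v H
  set D := A1 + B1 with hD
  have dAB : D ⊆ A + B := add_subset_add inter_subset_left inter_subset_left
  have dcs : ∀ z ∈ D, z - (u + v) ∈ H := by
    intro z hz
    obtain ⟨p, hp, q, hq, rfl⟩ := mem_add.1 hz
    have := hH.add (mem_cs.1 (mem_inter.1 hp).2) (mem_cs.1 (mem_inter.1 hq).2)
    rwa [show p - u + (q - v) = p + q - (u + v) by abel] at this
  have ncs : ∀ z ∈ C, z - (u + v) ∉ H := by
    intro z hz hz'
    refine hx (hC.1 ?_)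
    have := mem_st.1 (hH.sub hh hz') z hz
    rwa [show h - (z - (u + v)) + z = h + (u + v) by abel] at this
  have dne : D.Nonempty := h1.add h2
  have dj : Disjoint C D := disjoint_left.2 (fun z hz hz' => ncs z hz (dcs z hz'))
  have sub1 : st D ⊆ H := by
    intro g hg
    obtain ⟨d, hd⟩ := dne
    have := hH.sub (dcs _ (mem_st.1 hg d hd)) (dcs d hd)
    rwa [show g + d - (u + v) - (d - (u + v)) = g by abel] at this
  have nfull : ¬ ∀ z, z - (u + v) ∈ H → z ∈ D := fun hf =>
    hx (dAB (hf _ (by simpa using hh)))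
  have lt1 : (st D).card < H.card := by
    refine card_lt_card ⟨sub1, fun hs => nfull (fun z hz => ?_)⟩
    obtain ⟨d, hd⟩ := dne
    have := mem_st.1 (hs (hH.sub hz (dcs d hd))) d hd
    rwa [show z - (u + v) - (d - (u + v)) + d = z by abel] at this
  have stU : st (C ∪ D) = st D := by
    refine Subset.antisymm (fun g hg => ?_) (fun g hg => mem_st.2 (fun z hz => ?_))
    · have gH : g ∈ H := by
        by_contra hn
        rw [hHdef, mem_st] at hn
        push Not at hn
        obtain ⟨c, hc, hgc⟩ := hn
        have hd : g + c ∈ D :=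
          (mem_union.1 (mem_st.1 hg c (mem_union_left _ hc))).resolve_left hgc
        refine nfull (fun z hz => ?_)
        have k1 := hH.sub hz (dcs _ hd)
        have k2 := mem_st.1 hg _ (mem_union_left _ (mem_st.1 k1 c hc))
        rw [show g + (z - (u + v) - (g + c - (u + v)) + c) = z by abel] at k2
        exact (mem_union.1 k2).resolve_left (fun k3 => ncs z k3 hz)
      refine mem_st.2 (fun d hd => ?_)
      refine (mem_union.1 (mem_st.1 hg d (mem_union_right _ hd))).resolve_left (fun k => ?_)
      refine ncs _ k ?_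
      have := hH.add gH (dcs d hd)
      rwa [show g + (d - (u + v)) = g + d - (u + v) by abel] at this
    · rcases mem_union.1 hz with hz | hz
      · exact mem_union_left _ (mem_st.1 (sub1 hg) z hz)
      · exact mem_union_right _ (mem_st.1 hg z hz)
  have kH : st (A + B) ⊆ H := per_iff.1 hC.2.2.1
  have perD : Per (st (A + B)) D := by
    refine Per.add_right (fun g hg x hx => ?_) B1
    rw [mem_inter, mem_cs] at hx ⊢
    refine ⟨hA g hg x hx.1, ?_⟩
    have := hH.add (kH hg) hx.2
    rwa [show g + (x - u) = g + x - u by abel] at this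
  have cCD : C.card + D.card ≤ (A + B).card := by
    rw [← card_union_of_disjoint dj]
    exact card_le_card (union_subset hC.1 dAB)
  have cpos : 0 < C.card := card_pos.2 hC.2.1
  have ih := IH A1 B1 h1 h2 (by rw [← hD]; omega)
  rw [← hD] at ih
  have nconv : ¬ Conv A B (C ∪ D) := fun hc => by
    have := hmin _ hc
    rw [stU] at this
    omega
  have nc : C.card + D.card + (st D).card < (A ∩ B).card + ((A ∪ B) + st D).card := by
    by_contra hn
    refine nconv ⟨union_subset hC.1 dAB, hC.2.1.mono subset_union_left, fun g hg z hz => ?_, ?_⟩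
    · rcases mem_union.1 hz with hz | hz
      · exact mem_union_left _ (hC.2.2.1 g hg z hz)
      · exact mem_union_right _ (perD g hg z hz)
    · rw [stU, card_union_of_disjoint dj]; omega
  have cv := hC.2.2.2
  rw [← hHdef] at cv
  exact ⟨st D, st_sub D, sub1, by omega, by omega⟩

theorem gap {H H1 X Y : Finset G} (hH : IsSub H) (h1 : IsSub H1) (hs : H1 ⊆ H)
    (h : (X + H1).card + (Y + H1).card < H.card) :
    (X + H1).card + (Y + H1).card + H1.card ≤ H.card := by
  obtain ⟨p, hp⟩ := Per.dvd h1 _ _ rfl (per_add h1 X)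
  obtain ⟨q, hq⟩ := Per.dvd h1 _ _ rfl (per_add h1 Y)
  obtain ⟨r, hr⟩ := Per.dvd h1 _ H rfl (fun g hg x hx => hH.add (hs hg) hx)
  rw [hp, hq, hr] at h ⊢
  have : p + q < r := by
    by_contra hn
    have := Nat.mul_le_mul_left H1.card (not_lt.1 hn)
    rw [Nat.mul_add] at this
    omega
  calc _ = H1.card * (p + q + 1) := by ring
    _ ≤ _ := Nat.mul_le_mul_left _ this

theorem core {A B : Finset G} (hA : Per (st (A + B)) A) (hB : Per (st (A + B)) B)
    (IH : ∀ A' B' : Finset G, A'.Nonempty → B'.Nonempty → (A' + B').card < (A + B).card →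
      (A' + st (A' + B')).card + (B' + st (A' + B')).card ≤ (A' + B').card + (st (A' + B')).card)
    (h0 : ∃ C, Conv A B C) : A.card + B.card ≤ (A + B).card + (st (A + B)).card := by
  classical
  obtain ⟨C, hC, hmin⟩ := exists_min_image (univ.filter (Conv A B)) (fun C => (st C).card)
    (by obtain ⟨C, hC⟩ := h0; exact ⟨C, by simpa using hC⟩)
  simp only [mem_filter, mem_univ, true_and] at hC hmin
  have hU := card_union_add_card_inter A B
  have cv := hC.2.2.2
  have hH := st_sub C
  by_cases hk : st C ⊆ st (A + B)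
  · have e : st C = st (A + B) := Subset.antisymm hk (per_iff.1 hC.2.2.1)
    have := card_le_card (sub_add hH (A ∪ B))
    have := card_le_card hC.1
    rw [← e]; omega
  by_contra hcon
  obtain ⟨h, hh, hn⟩ := not_subset.1 hk
  rw [mem_st] at hn
  push Not at hn
  obtain ⟨x, hx, hn⟩ := hn
  obtain ⟨a, ha, b, hb, rfl⟩ := mem_add.1 hx
  set H := st C with hHdef
  have aa : a ∈ cs a H := mem_cs.2 (by simpa using hH.zero)
  have bb : b ∈ cs b H := mem_cs.2 (by simpa using hH.zero)
  obtain ⟨H1, s1, t1, p1, q1⟩ := piece hA IH hC hmin hh hn ⟨a, mem_inter.2 ⟨ha, aa⟩⟩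
    ⟨b, mem_inter.2 ⟨hb, bb⟩⟩
  rw [← hHdef] at t1 p1 q1
  have La := lemL (U := A ∪ B) hH t1 (mem_union_left B ha)
  have Lb := lemL (U := A ∪ B) hH t1 (mem_union_right A hb)
  rw [union_inter_distrib_right, union_add] at La Lb
  have La' := card_union_le (A ∩ cs a H + H1) (B ∩ cs a H + H1)
  have Lb' := card_union_le (A ∩ cs b H + H1) (B ∩ cs b H + H1)
  rw [← union_add] at La Lb
  rw [union_add (s₁ := A ∩ cs a H)] at La
  rw [union_add (s₁ := A ∩ cs b H)] at Lb
  have n1 : (B ∩ cs a H).Nonempty := by
    rw [nonempty_iff_ne_empty]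
    intro e
    rw [e, empty_add, card_empty] at La'
    rw [e, empty_add] at La
    omega
  have n2 : (A ∩ cs b H).Nonempty := by
    rw [nonempty_iff_ne_empty]
    intro e
    rw [e, empty_add, card_empty] at Lb'
    rw [e, empty_add] at Lb
    omega
  have nab : a - b ∉ H := by
    intro hab
    have e : cs a H = cs b H := by
      ext z
      rw [mem_cs, mem_cs]
      constructor
      · intro hz
        have := hH.add hz hab
        rwa [show z - a + (a - b) = z - b by abel] at this
      · intro hz
        have := hH.sub hz hab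
        rwa [show z - b - (a - b) = z - a by abel] at this
    rw [e] at p1
    omega
  obtain ⟨H2, s2, t2, p2, q2⟩ := piece hA IH hC hmin (u := b) (v := a) hh
    (by rwa [add_comm b a]) n2 n1
  rw [← hHdef] at t2 p2 q2
  have m1 := card_le_card (add_subset_add_left (s := A ∪ B) t1)
  have m2 := card_le_card (add_subset_add_left (s := A ∪ B) t2)
  have g1 := gap (X := A ∩ cs a H) (Y := B ∩ cs b H) hH s1 t1 (by omega)
  have g2 := gap (X := A ∩ cs b H) (Y := B ∩ cs a H) hH s2 t2 (by omega)
  have r1 := card_le_card (sub_add s1 (A ∩ cs a H))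
  have r2 := card_le_card (sub_add s1 (B ∩ cs b H))
  have r3 := card_le_card (sub_add s2 (A ∩ cs b H))
  have r4 := card_le_card (sub_add s2 (B ∩ cs a H))
  have w1 : (A ∪ B) ∪ ((cs a H ∪ cs b H) \ (A ∪ B)) ⊆ (A ∪ B) + H := by
    refine union_subset (sub_add hH _) (fun z hz => ?_)
    rcases mem_union.1 (mem_sdiff.1 hz).1 with hz | hz
    · simpa using add_mem_add (mem_union_left B ha) (mem_cs.1 hz)
    · simpa using add_mem_add (mem_union_right A hb) (mem_cs.1 hz)
  have w2 := card_le_card w1
  rw [card_union_of_disjoint disjoint_sdiff] at w2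
  have w3 := card_sdiff_add_card_inter (cs a H ∪ cs b H) (A ∪ B)
  have w4 : (cs a H ∪ cs b H).card = H.card + H.card := by
    rw [card_union_of_disjoint, card_cs, card_cs]
    refine disjoint_left.2 (fun z h1 h2 => nab ?_)
    have := hH.sub (mem_cs.1 h2) (mem_cs.1 h1)
    rwa [show z - b - (z - a) = a - b by abel] at this
  have w5 : (cs a H ∪ cs b H) ∩ (A ∪ B) ⊆
      (A ∩ cs a H ∪ B ∩ cs b H) ∪ (A ∩ cs b H ∪ B ∩ cs a H) := by
    intro z hz
    simp only [mem_inter, mem_union] at hz ⊢
    tauto
  have w6 := card_le_card w5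
  have w7 := card_union_le (A ∩ cs a H ∪ B ∩ cs b H) (A ∩ cs b H ∪ B ∩ cs a H)
  have w8 := card_union_le (A ∩ cs a H) (B ∩ cs b H)
  have w9 := card_union_le (A ∩ cs b H) (B ∩ cs a H)
  have kp : 0 < (st (A + B)).card := card_pos.2 ⟨0, (st_sub _).zero⟩
  omega

theorem st_shift (t : G) (X : Finset G) : st (X + {t}) = st X := by
  ext g
  simp only [mem_st, mem_add, mem_singleton, exists_eq_left]
  constructor
  · intro h x hx
    obtain ⟨y, hy, e⟩ := h (x + t) ⟨x, hx, rfl⟩
    rw [← add_assoc, add_left_inj] at e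
    rwa [← e]
  · rintro h _ ⟨x, hx, rfl⟩
    exact ⟨g + x, h x hx, by rw [add_assoc]⟩

theorem kneser_aux (N : ℕ) : ∀ A B : Finset G, A.Nonempty → B.Nonempty → (A + B).card = N →
    (A + st (A + B)).card + (B + st (A + B)).card ≤ (A + B).card + (st (A + B)).card := by
  induction N using Nat.strong_induction_on with
  | _ N IHN =>
    have inner : ∀ M : ℕ, ∀ A B : Finset G, A.Nonempty → B.Nonempty → (A + B).card = N →
        A.card = M → Per (st (A + B)) A → Per (st (A + B)) B →
        A.card + B.card ≤ (A + B).card + (st (A + B)).card := by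
      intro M
      induction M using Nat.strong_induction_on with
      | _ M IHM =>
        intro A B nA nB hN hM pA pB
        obtain ⟨a, ha⟩ := nA
        by_cases hall : ∀ a' ∈ A, a' - a ∈ st (A + B)
        · have e1 : A.card ≤ (st (A + B)).card := by
            rw [← card_cs a (st (A + B))]
            exact card_le_card (fun z hz => mem_cs.2 (hall z hz))
          have e2 : B.card ≤ (A + B).card := card_le_card_add_left ⟨a, ha⟩
          omega
        push Not at hall
        obtain ⟨a', ha', hn⟩ := hall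
        have : ∃ b ∈ B, a' - a + b ∉ B := by
          by_contra hc
          push Not at hc
          refine hn (mem_st.2 (fun z hz => ?_))
          obtain ⟨p, hp, q, hq, rfl⟩ := mem_add.1 hz
          rw [add_left_comm]; exact add_mem_add hp (hc q hq)
        obtain ⟨b, hb, hnb⟩ := this
        set B' := B + {a - b} with hB'
        have e1 : A + B' = (A + B) + {a - b} := by rw [hB', add_assoc]
        have e2 : st (A + B') = st (A + B) := by rw [e1, st_shift]
        have e3 : (A + B').card = (A + B).card := by rw [e1, card_add_singleton]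
        have e4 : B'.card = B.card := by rw [hB', card_add_singleton]
        have pB' : Per (st (A + B')) B' := by rw [e2]; exact pB.add_right _
        have pA' : Per (st (A + B')) A := by rw [e2]; exact pA
        have aB : a ∈ B' := by
          simpa using add_mem_add hb (mem_singleton_self (a - b))
        have aB' : a' ∉ B' := by
          intro h
          obtain ⟨p, hp, q, hq, e⟩ := mem_add.1 h
          rw [mem_singleton] at hq
          subst hq
          refine hnb ?_
          rwa [← e, show p + (a - b) - a + b = p by abel]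
        rw [← e2, ← e3, ← e4]
        refine core pA' pB' (fun X Y nX nY h => IHN _ (by omega) X Y nX nY rfl) ?_
        have nI : (A ∩ B').Nonempty := ⟨a, mem_inter.2 ⟨ha, aB⟩⟩
        have nU : (A ∪ B').Nonempty := ⟨a, mem_union_left _ ha⟩
        have pI : Per (st (A + B')) (A ∩ B') := fun g hg x hx =>
          mem_inter.2 ⟨pA' g hg x (mem_inter.1 hx).1, pB' g hg x (mem_inter.1 hx).2⟩
        have pU : Per (st (A + B')) (A ∪ B') := fun g hg x hx => by
          rcases mem_union.1 hx with hx | hx
          · exact mem_union_left _ (pA' g hg x hx)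
          · exact mem_union_right _ (pB' g hg x hx)
        have sb : (A ∩ B') + (A ∪ B') ⊆ A + B' := inter_add_union_subset
        refine ⟨(A ∩ B') + (A ∪ B'), sb, nI.add nU, pI.add_right _, ?_⟩
        rcases (card_le_card sb).lt_or_eq with hlt | heq
        · have := IHN _ (by omega) _ _ nI nU rfl
          have := card_le_card (sub_add (st_sub ((A ∩ B') + (A ∪ B'))) (A ∩ B'))
          omega
        · have e := eq_of_subset_of_card_le sb heq.ge
          have lt : (A ∩ B').card < A.card :=
            card_lt_card ⟨inter_subset_left, fun h => aB' (mem_inter.1 (h ha')).2⟩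
          have := IHM _ (by omega) _ _ nI nU (by omega) rfl (by rw [e]; exact pI)
            (by rw [e]; exact pU)
          rw [e] at this ⊢
          rw [pU.add_eq (st_sub _)]
          exact this
    intro A B nA nB hN
    have hK := st_sub (A + B)
    have e : (A + st (A + B)) + (B + st (A + B)) = A + B := by
      rw [add_add_add_comm, ← add_assoc, (per_st _).add_eq hK, (per_st _).add_eq hK]
    have := inner _ (A + st (A + B)) (B + st (A + B)) (nA.add ⟨0, hK.zero⟩) (nB.add ⟨0, hK.zero⟩)
      (by rw [e, hN]) rfl (by rw [e]; exact per_add hK A) (by rw [e]; exact per_add hK B)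
    rwa [e] at this

/-- Kneser's addition theorem in a finite abelian group. -/
theorem kneser (A B : Finset G) (hA : A.Nonempty) (hB : B.Nonempty) :
    (A + st (A + B)).card + (B + st (A + B)).card ≤ (A + B).card + (st (A + B)).card :=
  kneser_aux _ A B hA hB rfl

end Pool.Agent.Lib.helper8.Kneser
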