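import Pool.Agent.Lib.helper8.Kneser

set_option autoImplicit false
set_option linter.unusedSectionVars false

open Finset
open scoped Pointwise

namespace Pool.Agent.Lib.helper8.Kneser

variable {G : Type} [AddCommGroup G] [Fintype G] [DecidableEq G]

theorem sub_univ : IsSub (univ : Finset G) := ⟨mem_univ _, fun _ _ => mem_univ _, fun _ => mem_univ _⟩

theorem IsSub.per {H K : Finset G} (hK : IsSub K) (h : H ⊆ K) : Per H K :=
  fun _ hg _ hx => hK.add (h hg) hx

theorem st_subset {K C : Finset G} (hK : IsSub K) (hC : C ⊆ K) (hne : C.Nonempty) : st C ⊆ K := by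
  intro g hg
  obtain ⟨c, hc⟩ := hne
  simpa using hK.sub (hC (mem_st.1 hg c hc)) (hC hc)

theorem st_mono (X Y : Finset G) : st X ⊆ st (X + Y) := per_iff.1 ((per_st X).add_right Y)

/-- three-fold form of Kneser's theorem -/
theorem kneser3 (A : Finset G) (hA : A.Nonempty) :
    3 * (A + st (A + A + A)).card ≤ (A + A + A).card + 2 * (st (A + A + A)).card := by
  set H := st (A + A + A) with hH
  have sH : IsSub H := st_sub _
  have k1 := kneser (A + A) A (hA.add hA) hA
  rw [← hH] at k1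
  have nA : (A + H).Nonempty := hA.add ⟨0, sH.zero⟩
  have k2 := kneser (A + H) (A + H) nA nA
  have hh : H + H = H := (sH.per Subset.rfl).add_eq sH
  have e1 : A + H + (A + H) = A + A + H := by rw [add_add_add_comm, hh]
  have e2 : st (A + A + H) = H := by
    refine Subset.antisymm ?_ (per_iff.1 (per_add sH _))
    have := st_mono (A + A + H) A
    rwa [add_right_comm (A + A) H A, (per_st _).add_eq sH] at this
  rw [e1, e2, (per_add sH A).add_eq sH] at k2
  omega

theorem ex_prime_mod {k r : ℕ} (hk : k = 3 ∧ r = 2 ∨ k = 4 ∧ r = 3) (m : ℕ) :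
    m % k = r → ∃ q, q.Prime ∧ q ∣ m ∧ q % k = r := by
  induction m using Nat.recOnMul with
  | zero => intro h; rcases hk with ⟨rfl, rfl⟩ | ⟨rfl, rfl⟩ <;> omega
  | one => intro h; rcases hk with ⟨rfl, rfl⟩ | ⟨rfl, rfl⟩ <;> omega
  | prime p hp => exact fun h => ⟨p, hp, dvd_rfl, h⟩
  | mul a b iha ihb =>
    intro h
    have : a % k = r ∨ b % k = r := by
      rw [Nat.mul_mod] at h
      rcases hk with ⟨rfl, rfl⟩ | ⟨rfl, rfl⟩
      · have ha : a % 3 < 3 := Nat.mod_lt _ (by norm_num)
        have hb : b % 3 < 3 := Nat.mod_lt _ (by norm_num)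
        generalize a % 3 = x at *
        generalize b % 3 = y at *
        interval_cases x <;> interval_cases y <;> simp_all
      · have ha : a % 4 < 4 := Nat.mod_lt _ (by norm_num)
        have hb : b % 4 < 4 := Nat.mod_lt _ (by norm_num)
        generalize a % 4 = x at *
        generalize b % 4 = y at *
        interval_cases x <;> interval_cases y <;> simp_all
    rcases this with h | h
    · obtain ⟨q, h1, h2, h3⟩ := iha h
      exact ⟨q, h1, h2.mul_right b, h3⟩
    · obtain ⟨q, h1, h2, h3⟩ := ihb h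
      exact ⟨q, h1, h2.mul_left a, h3⟩

/-- residues modulo `n` whose reduction modulo `d` lies in `S` -/
def lift (n : ℕ) [NeZero n] (d : ℕ) (S : Finset ℕ) : Finset (ZMod n) :=
  univ.filter (fun x => x.val % d ∈ S)

theorem mem_lift {n : ℕ} [NeZero n] {d : ℕ} {S : Finset ℕ} {x : ZMod n} :
    x ∈ lift n d S ↔ x.val % d ∈ S := by simp [lift]

theorem val_add_mod {n : ℕ} [NeZero n] {d : ℕ} (hd : d ∣ n) (x y : ZMod n) :
    (x + y).val % d = (x.val % d + y.val % d) % d := by
  rw [ZMod.val_add, Nat.mod_mod_of_dvd _ hd, Nat.add_mod]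

theorem card_lift {n : ℕ} [NeZero n] {d e : ℕ} (hd : n = d * e) {S : Finset ℕ}
    (hS : ∀ x ∈ S, x < d) : (lift n d S).card = S.card * e := by
  have hn : 0 < n := Nat.pos_of_ne_zero (NeZero.ne n)
  have hd0 : 0 < d := Nat.pos_of_ne_zero (by rintro rfl; omega)
  rw [← card_range e, ← card_product]
  refine card_bij (fun x _ => (x.val % d, x.val / d)) ?_ ?_ ?_
  · intro x hx
    refine mem_product.2 ⟨mem_lift.1 hx, mem_range.2 ?_⟩
    exact Nat.div_lt_of_lt_mul (hd ▸ x.val_lt)
  · intro x _ y _ e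
    have e1 := congrArg Prod.fst e
    have e2 := congrArg Prod.snd e
    simp only at e1 e2
    refine ZMod.val_injective n ?_
    rw [← Nat.mod_add_div x.val d, ← Nat.mod_add_div y.val d, e1, e2]
  · rintro ⟨i, j⟩ h
    obtain ⟨h1, h2⟩ := mem_product.1 h
    have h3 := hS i h1
    have h4 : j < e := mem_range.1 h2
    have h5 : i + d * j < n := by
      rw [hd]
      calc i + d * j < d * (j + 1) := by rw [Nat.mul_succ]; omega
        _ ≤ d * e := Nat.mul_le_mul_left _ h4
    have h6 : ((i + d * j : ℕ) : ZMod n).val = i + d * j := ZMod.val_cast_of_lt h5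
    refine ⟨((i + d * j : ℕ) : ZMod n), mem_lift.2 ?_, ?_⟩
    · rw [h6, Nat.add_mul_mod_self_left, Nat.mod_eq_of_lt h3]; exact h1
    · rw [h6, Nat.add_mul_mod_self_left, Nat.mod_eq_of_lt h3, Nat.add_mul_div_left _ _ hd0,
        Nat.div_eq_of_lt h3, Nat.zero_add]

/-- A set of a subgroup `K` whose three-fold sumset misses a point of `K`. -/
theorem three_bound {K A : Finset G} (hK : IsSub K) (hA : A ⊆ K) {t : G} (ht : t ∈ K)
    (hn : t ∉ A + A + A) :
    3 * A.card ≤ K.card ∨ ∃ m, m % 3 = 2 ∧ m ∣ K.card ∧ 3 * m * A.card ≤ (m + 1) * K.card := by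
  rcases A.eq_empty_or_nonempty with rfl | hne
  · simp
  have k := kneser3 A hne
  set H := st (A + A + A) with hH
  have sH : IsSub H := st_sub _
  have sub3 : A + A + A ⊆ K := by
    intro z hz
    obtain ⟨x, hx, c, hc, rfl⟩ := mem_add.1 hz
    obtain ⟨a, ha, b, hb, rfl⟩ := mem_add.1 hx
    exact hK.add (hK.add (hA ha) (hA hb)) (hA hc)
  have hHK : H ⊆ K := st_subset hK sub3 ((hne.add hne).add hne)
  obtain ⟨c, hc⟩ := Per.dvd sH _ _ rfl (per_add sH A)
  obtain ⟨s, hs⟩ := Per.dvd sH _ _ rfl (per_st (A + A + A))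
  obtain ⟨m, hm⟩ := Per.dvd sH _ _ rfl (hK.per hHK)
  have lt : (A + A + A).card < K.card := card_lt_card ⟨sub3, fun h => hn (h ht)⟩
  have le := card_le_card (sub_add sH A)
  have hp : 0 < H.card := card_pos.2 ⟨0, sH.zero⟩
  rw [hc] at k le
  rw [hs] at k lt
  rw [hm] at lt ⊢
  have h1 : s < m := Nat.lt_of_mul_lt_mul_left lt
  have h2 : 3 * c ≤ s + 2 := Nat.le_of_mul_le_mul_left (by nlinarith) hp
  by_cases h3 : 3 * c ≤ m
  · left; nlinarith
  · right
    refine ⟨m, by omega, Dvd.intro_left _ rfl, ?_⟩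
    have : 3 * c = m + 1 := by omega
    calc 3 * m * A.card ≤ 3 * m * (H.card * c) := Nat.mul_le_mul_left _ le
      _ = (3 * c) * (H.card * m) := by ring
      _ = _ := by rw [this]

end Pool.Agent.Lib.helper8.Kneser
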