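import Mathlib

/-! Counting self-avoiding paths on 16 vertices by a packed subset recursion. -/

namespace Pool.Agent.Lib.helper8.PathDP

def paths (E : Fin 16 → List (Fin 16)) : ℕ → Fin 16 → ℕ → List (List (Fin 16))
  | 0, _, _ => [[]]
  | l + 1, v, m => (E v).flatMap fun w : Fin 16 =>
      if m.testBit w then [] else (paths E l w (m + 2 ^ w.val)).map (w :: ·)

theorem tb_add {m w : ℕ} (h : m.testBit w = false) (x : ℕ) :
    (m + 2 ^ w).testBit x = (m.testBit x || decide (x = w)) := by
  have h2 : m % 2 ^ (w + 1) = m % 2 ^ w + 2 ^ w * (m / 2 ^ w % 2) := Nat.mod_pow_succ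
  have h3 : m % 2 ^ w < 2 ^ w := Nat.mod_lt _ (by positivity)
  have h4 : m / 2 ^ w % 2 = 0 := by
    rw [Nat.testBit_eq_decide_div_mod_eq, decide_eq_false_iff_not] at h
    omega
  rw [h4, mul_zero, add_zero] at h2
  have h5 := Nat.div_add_mod m (2 ^ (w + 1))
  rw [h2] at h5
  generalize m / 2 ^ (w + 1) = q at h5
  generalize m % 2 ^ w = r at h5 h3
  subst h5
  have h6 : 2 ^ (w + 1) = 2 ^ w + 2 ^ w := by ring
  rw [add_assoc, Nat.two_pow_add_eq_or_of_lt (by omega), Nat.two_pow_add_eq_or_of_lt (by omega),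
    ← Nat.or_two_pow_eq_add_of_lt h3, ← Nat.or_assoc, Nat.testBit_or, Nat.testBit_two_pow]
  simp [eq_comm]

theorem mem_paths (E : Fin 16 → List (Fin 16)) (l : ℕ) : ∀ v m p, p ∈ paths E l v m ↔
    p.length = l ∧ p.Nodup ∧ (∀ x ∈ p, m.testBit x.val = false) ∧
      List.IsChain (fun a b => b ∈ E a) (v :: p) := by
  induction l with
  | zero =>
    intro v m p
    simp only [paths, List.mem_singleton, List.length_eq_zero_iff]
    exact ⟨by rintro rfl; simp, fun h => h.1⟩
  | succ l ih =>
    intro v m p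
    simp only [paths, List.mem_flatMap]
    constructor
    · rintro ⟨w, hw, hp⟩
      split_ifs at hp with h
      · simp at hp
      obtain ⟨q, hq, rfl⟩ := List.mem_map.1 hp
      obtain ⟨h1, h2, h3, h4⟩ := (ih _ _ _).1 hq
      simp only [Bool.not_eq_true] at h
      simp only [tb_add h, Bool.or_eq_false_iff, decide_eq_false_iff_not] at h3
      refine ⟨by simp [h1], List.nodup_cons.2 ⟨fun hh => (h3 w hh).2 rfl, h2⟩, ?_,
        List.isChain_cons_cons.2 ⟨hw, h4⟩⟩
      intro x hx
      rcases List.mem_cons.1 hx with rfl | hx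
      exacts [h, (h3 x hx).1]
    · rintro ⟨h1, h2, h3, h4⟩
      obtain _ | ⟨w, q⟩ := p
      · simp at h1
      have h := h3 w (by simp)
      rw [List.isChain_cons_cons] at h4
      rw [List.nodup_cons] at h2
      refine ⟨w, h4.1, ?_⟩
      rw [if_neg (by simp [h])]
      refine List.mem_map.2 ⟨q, (ih _ _ _).2 ⟨by simpa using h1, h2.2, fun x hx => ?_, h4.2⟩, rfl⟩
      simp only [tb_add h, Bool.or_eq_false_iff, decide_eq_false_iff_not]
      exact ⟨h3 x (by simp [hx]), fun e => h2.1 (Fin.ext e ▸ hx)⟩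

theorem nodup_paths (E : Fin 16 → List (Fin 16)) (hE : ∀ v, (E v).Nodup) (l : ℕ) :
    ∀ v m, (paths E l v m).Nodup := by
  induction l with
  | zero => intro v m; simp [paths]
  | succ l ih =>
    intro v m
    rw [paths, List.nodup_flatMap]
    refine ⟨fun w _ => ?_, (hE v).imp fun {a b} hab => ?_⟩
    · split_ifs
      · simp
      · exact (ih _ _).map List.cons_injective
    · intro p h1 h2
      simp only at h1 h2
      split_ifs at h1 h2 <;> simp at h1 h2
      obtain ⟨q, -, rfl⟩ := h1
      obtain ⟨q', -, e⟩ := h2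
      exact hab (List.cons.inj e).1.symm

def dig (x m : ℕ) : ℕ := (x >>> (36 * m)) % 2 ^ 36

theorem dig_add : ∀ m x y, (∀ j, dig x j + dig y j < 2 ^ 36) →
    dig (x + y) m = dig x m + dig y m := by
  intro m
  induction m with
  | zero =>
    intro x y h
    have := h 0
    simp only [dig, mul_zero, Nat.shiftRight_zero] at this ⊢
    omega
  | succ m ih =>
    intro x y h
    have e : ∀ x j, dig x (j + 1) = dig (x / 2 ^ 36) j := by
      intro x j
      simp only [dig, ← Nat.shiftRight_eq_div_pow, ← Nat.shiftRight_add]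
      congr 2
      ring
    have h0 := h 0
    simp only [dig, mul_zero, Nat.shiftRight_zero] at h0
    rw [e, e, e, show (x + y) / 2 ^ 36 = x / 2 ^ 36 + y / 2 ^ 36 by omega]
    exact ih _ _ fun j => by rw [← e, ← e]; exact h _

def dbl (x t : ℕ) : ℕ → ℕ
  | 0 => x
  | s + 1 => (fun y => y ||| y <<< (36 * 2 ^ (t + s))) (dbl x t s)

theorem tb_dbl (x t : ℕ) (hx : x < 2 ^ (36 * 2 ^ t)) (s : ℕ) : ∀ i, (dbl x t s).testBit i =
    (decide (i < 36 * 2 ^ (t + s)) && x.testBit (i % (36 * 2 ^ t))) := by
  induction s with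
  | zero =>
    intro i
    by_cases h : i < 36 * 2 ^ t
    · simp [dbl, h, Nat.mod_eq_of_lt h]
    · simp only [dbl, add_zero, h, decide_false, Bool.false_and]
      exact Nat.testBit_lt_two_pow (hx.trans_le (Nat.pow_le_pow_right two_pos (not_lt.1 h)))
  | succ s ih =>
    intro i
    simp only [dbl, Nat.testBit_or, Nat.testBit_shiftLeft, ih]
    have e : 36 * 2 ^ (t + (s + 1)) = 2 * (36 * 2 ^ (t + s)) := by ring
    rw [e]
    by_cases h : i < 36 * 2 ^ (t + s)
    · have h1 : ¬ i ≥ 36 * 2 ^ (t + s) := by omega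
      have h2 : i < 2 * (36 * 2 ^ (t + s)) := by omega
      simp [h, h1, h2]
    · obtain ⟨j, rfl⟩ := Nat.exists_eq_add_of_le (not_lt.1 h)
      have h3 : (36 * 2 ^ (t + s) + j) % (36 * 2 ^ t) = j % (36 * 2 ^ t) := by
        rw [pow_add, ← mul_assoc, Nat.mul_add_mod]
      have h4 : (36 * 2 ^ (t + s) + j < 2 * (36 * 2 ^ (t + s))) ↔ j < 36 * 2 ^ (t + s) := by omega
      simp [h3, h4]

def ones : ℕ := dbl 1 0 16

def mask (w : Fin 16) : ℕ := dbl (2 ^ (36 * 2 ^ w.val) - 1) (w.val + 1) (15 - w.val)

theorem dig_ones (m : ℕ) (hm : m < 2 ^ 16) : dig ones m = 1 := by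
  apply Nat.eq_of_testBit_eq
  intro i
  rw [Bool.eq_iff_iff]
  simp only [dig, Nat.testBit_mod_two_pow, Nat.testBit_shiftRight, ones,
    tb_dbl 1 0 (by norm_num), Nat.testBit_one_eq_true_iff_self_eq_zero,
    Bool.and_eq_true, decide_eq_true_eq]
  omega

theorem dig_mask (x : ℕ) (w : Fin 16) (m : ℕ) : dig (x >>> (36 * 2 ^ w.val) &&& mask w) m =
    if m < 2 ^ 16 ∧ m.testBit w = false then dig x (m + 2 ^ w.val) else 0 := by
  apply Nat.eq_of_testBit_eq
  intro i
  have hx : 2 ^ (36 * 2 ^ w.val) - 1 < 2 ^ (36 * 2 ^ (w.val + 1)) :=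
    lt_of_lt_of_le (Nat.sub_lt (by positivity) one_pos)
      (Nat.pow_le_pow_right two_pos (by rw [pow_succ]; omega))
  have e : w.val + 1 + (15 - w.val) = 16 := by omega
  simp only [dig, Nat.testBit_mod_two_pow, Nat.testBit_shiftRight, Nat.testBit_and, mask,
    tb_dbl _ _ hx, e, Nat.testBit_two_pow_sub_one]
  by_cases hi : i < 36
  swap
  · split_ifs <;> simp only [hi, Nat.testBit_mod_two_pow, decide_false, Bool.false_and,
      Nat.zero_testBit]
  have k : (36 * m + i) % (36 * 2 ^ (w.val + 1)) < 36 * 2 ^ w.val ↔ m.testBit w = false := by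
    have h1 : (36 * m + i) % (36 * 2 ^ (w.val + 1)) = 36 * (m % 2 ^ (w.val + 1)) + i := by
      rw [Nat.mod_mul, Nat.mul_add_mod, Nat.mod_eq_of_lt hi, Nat.mul_add_div (by norm_num),
        Nat.div_eq_of_lt hi, add_zero, add_comm]
    have h2 : m % 2 ^ (w.val + 1) = m % 2 ^ w.val + 2 ^ w.val * (m / 2 ^ w.val % 2) :=
      Nat.mod_pow_succ
    have h3 : m % 2 ^ w.val < 2 ^ w.val := Nat.mod_lt _ (by positivity)
    rw [h1, h2, Nat.testBit_eq_decide_div_mod_eq]
    rcases Nat.mod_two_eq_zero_or_one (m / 2 ^ w.val) with h | h <;> rw [h] <;> simp <;> omega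
  have k2 : 36 * m + i < 36 * 2 ^ 16 ↔ m < 2 ^ 16 := by omega
  have k3 : 36 * 2 ^ w.val + (36 * m + i) = 36 * (m + 2 ^ w.val) + i := by ring
  simp only [k, k2, k3]
  split_ifs with h
  · simp only [h, hi, Nat.testBit_mod_two_pow, Nat.testBit_shiftRight, decide_true, Bool.and_true]
  · rw [not_and_or] at h
    rcases h with h | h
    · simp only [h, decide_false, Bool.false_and, Bool.and_false, Nat.zero_testBit]
    · simp [h]

noncomputable def force (m : ℕ) (f : ℕ → ℕ) : ℕ := Nat.rec (f 0) (fun k _ => f (Nat.succ k)) m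

theorem force_eq (m : ℕ) (f : ℕ → ℕ) : force m f = f m := by cases m <;> rfl

noncomputable def forceL (l : List ℕ) : (List ℕ → ℕ) → ℕ :=
  List.rec (fun f => f []) (fun a _ ih f => force a fun a' => ih fun t => f (a' :: t)) l

theorem forceL_eq (l : List ℕ) : ∀ f, forceL l f = f l := by
  induction l with
  | nil => intro f; rfl
  | cons a l ih =>
    intro f
    change force a (fun a' => forceL l fun t => f (a' :: t)) = _
    rw [force_eq, ih]

noncomputable def run (E : Fin 16 → List (Fin 16)) (M : List ℕ) (l : ℕ) : List ℕ → ℕ :=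
  Nat.rec (fun F => ((List.finRange 16).map fun v : Fin 16 => dig (F.getD v 0) (2 ^ v.val)).sum)
    (fun _ ih F =>
      forceL ((List.finRange 16).map fun w : Fin 16 => F.getD w 0 >>> (36 * 2 ^ w.val) &&& M.getD w 0)
        fun H => forceL ((List.finRange 16).map fun v => ((E v).map fun w : Fin 16 => H.getD w 0).sum) ih) l

theorem run_succ (E : Fin 16 → List (Fin 16)) (M : List ℕ) (l : ℕ) (F : List ℕ) :
    run E M (l + 1) F = forceL ((List.finRange 16).map fun w : Fin 16 =>
      F.getD w 0 >>> (36 * 2 ^ w.val) &&& M.getD w 0) fun H => forceL ((List.finRange 16).map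
        fun v => ((E v).map fun w : Fin 16 => H.getD w 0).sum) (run E M l) := rfl

noncomputable def total (E : Fin 16 → List (Fin 16)) (l : ℕ) : ℕ :=
  forceL ((List.finRange 16).map mask) fun M =>
    force ones fun o => run E M l (List.replicate 16 o)

theorem getD_map (f : Fin 16 → ℕ) (w : Fin 16) : ((List.finRange 16).map f).getD w 0 = f w := by
  simp [List.getD_eq_getElem?_getD]
  rfl

theorem len_le (E : Fin 16 → List (Fin 16)) (hE : ∀ v, (E v).length ≤ 8) (l : ℕ) :
    ∀ v m, (paths E l v m).length ≤ 8 ^ l := by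
  induction l with
  | zero => intro v m; simp [paths]
  | succ l ih =>
    intro v m
    rw [paths, List.length_flatMap]
    refine (List.sum_le_card_nsmul _ (8 ^ l) ?_).trans ?_
    · intro x hx
      obtain ⟨w, -, rfl⟩ := List.mem_map.1 hx
      split_ifs
      · simp
      · simpa using ih _ _
    · rw [List.length_map, smul_eq_mul, pow_succ, mul_comm]
      exact Nat.mul_le_mul_left _ (hE v)

theorem dig_sum (b : ℕ) (H : Fin 16 → ℕ) (hH : ∀ w j, dig (H w) j ≤ b) (L : List (Fin 16))
    (hL : L.length * b < 2 ^ 36) (m : ℕ) :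
    dig (L.map H).sum m = (L.map fun w => dig (H w) m).sum := by
  induction L generalizing m with
  | nil => simp [dig]
  | cons a L ih =>
    have h1 : L.length * b + b < 2 ^ 36 := by simpa [add_mul] using hL
    have ih' := ih (by omega)
    simp only [List.map_cons, List.sum_cons]
    rw [dig_add, ih']
    intro j
    have h2 : (L.map fun w => dig (H w) j).sum ≤ L.length * b := by
      have := List.sum_le_card_nsmul (L.map fun w => dig (H w) j) b (by
        intro x hx
        obtain ⟨w, -, rfl⟩ := List.mem_map.1 hx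
        exact hH w j)
      simpa using this
    have := hH a j
    rw [ih']
    omega

theorem run_eq (E : Fin 16 → List (Fin 16)) (hE : ∀ v, (E v).length ≤ 8) (l : ℕ) :
    ∀ (k : ℕ) (F : List ℕ), k + l ≤ 11 →
      (∀ v : Fin 16, ∀ m < 2 ^ 16, dig (F.getD v 0) m = (paths E k v m).length) →
      run E ((List.finRange 16).map mask) l F =
        ((List.finRange 16).map fun v => (paths E (k + l) v (2 ^ v.val)).length).sum := by
  induction l with
  | zero =>
    intro k F _ h
    change ((List.finRange 16).map fun v : Fin 16 => dig (F.getD v 0) (2 ^ v.val)).sum = _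
    congr 1
    exact List.map_congr_left fun v _ => h v _ (Nat.pow_lt_pow_right one_lt_two v.2)
  | succ l ih =>
    intro k F hk h
    rw [run_succ, forceL_eq, forceL_eq, ih (k + 1) _ (by omega), show k + 1 + l = k + (l + 1) by ring]
    intro v m hm
    have hd : ∀ (w : Fin 16) j, dig (F.getD w 0 >>> (36 * 2 ^ w.val) &&& mask w) j =
        if j < 2 ^ 16 ∧ j.testBit w = false then (paths E k w (j + 2 ^ w.val)).length else 0 := by
      intro w j
      rw [dig_mask]
      split_ifs with hj
      · apply h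
        apply Nat.lt_pow_two_of_testBit
        intro i hi
        have := w.2
        rw [tb_add hj.2, Nat.testBit_lt_two_pow (hj.1.trans_le (Nat.pow_le_pow_right two_pos hi))]
        simp
        omega
      · rfl
    simp only [getD_map]
    rw [dig_sum (8 ^ k), paths, List.length_flatMap]
    · congr 1
      refine List.map_congr_left fun w _ => ?_
      rw [hd]
      have hm' : m < 65536 := hm
      cases hb : m.testBit w <;> simp [hm']
    · intro w j
      rw [hd]
      split_ifs
      · exact len_le E hE _ _ _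
      · exact Nat.zero_le _
    · have h1 : 8 ^ k ≤ 8 ^ 10 := Nat.pow_le_pow_right (by norm_num) (by omega)
      have := Nat.mul_le_mul (hE v) h1
      omega

theorem total_eq (E : Fin 16 → List (Fin 16)) (hE : ∀ v, (E v).length ≤ 8)
    (hN : ∀ v, (E v).Nodup) :
    {p : List (Fin 16) | p.length = 12 ∧ p.Nodup ∧ List.IsChain (fun a b => b ∈ E a) p}.ncard =
      total E 11 := by
  rw [total, forceL_eq, force_eq, run_eq E hE 11 0 _ (by norm_num)]
  · let L := (List.finRange 16).flatMap fun v => (paths E 11 v (2 ^ v.val)).map (v :: ·)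
    have hL : L.Nodup := by
      rw [List.nodup_flatMap]
      refine ⟨fun w _ => (nodup_paths E hN _ _ _).map List.cons_injective,
        (List.nodup_finRange 16).imp fun {a b} hab => ?_⟩
      intro p h1 h2
      obtain ⟨q, -, rfl⟩ := List.mem_map.1 h1
      obtain ⟨q', -, e⟩ := List.mem_map.1 h2
      exact hab (List.cons.inj e).1.symm
    have : {p : List (Fin 16) | p.length = 12 ∧ p.Nodup ∧ List.IsChain (fun a b => b ∈ E a) p} =
        (L.toFinset : Set _) := by
      ext p
      simp only [L, Set.mem_ofPred_eq, List.coe_toFinset, List.mem_flatMap, List.mem_finRange,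
        true_and, List.mem_map, mem_paths, Nat.testBit_two_pow, decide_eq_false_iff_not]
      constructor
      · rintro ⟨h1, h2, h3⟩
        obtain _ | ⟨v, q⟩ := p
        · simp at h1
        rw [List.nodup_cons] at h2
        exact ⟨v, q, ⟨by simpa using h1, h2.2, fun x hx e => h2.1 (Fin.ext e ▸ hx), h3⟩, rfl⟩
      · rintro ⟨v, q, ⟨h1, h2, h3, h4⟩, rfl⟩
        exact ⟨by simp [h1], List.nodup_cons.2 ⟨fun h => h3 v h rfl, h2⟩, h4⟩
    rw [this, Set.ncard_coe_finset, List.toFinset_card_of_nodup hL, List.length_flatMap]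
    simp
  · intro v m hm
    have : (List.replicate 16 ones).getD v 0 = ones := by
      rw [List.getD_eq_getElem?_getD, List.getElem?_replicate, if_pos v.2]
      rfl
    rw [this, dig_ones m hm]
    simp [paths]

end Pool.Agent.Lib.helper8.PathDP
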