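import Mathlib

set_option autoImplicit false

open Finset

namespace Pool.Agent.Lib.helper8.Signs

/-- Sign patterns of finitely many linear forms: Sauer-Shelah bound. -/
theorem signs {ι E : Type} [Fintype ι] [DecidableEq ι] [AddCommGroup E] [Module ℝ E]
    [FiniteDimensional ℝ E] (f : ι → Module.Dual ℝ E) (𝒜 : Finset (Finset ι))
    (h : ∀ s ∈ 𝒜, ∃ x : E, ∀ i, i ∈ s ↔ 0 < f i x) :
    𝒜.card ≤ ∑ k ∈ Iic (Module.finrank ℝ E), (Fintype.card ι).choose k := by
  have vc : 𝒜.vcDim ≤ Module.finrank ℝ E := by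
    refine Finset.sup_le (fun t ht => ?_)
    rw [mem_shatterer] at ht
    have key : ∀ g : t → ℝ, ∑ i, g i • f i = 0 → ∀ i, g i ≤ 0 := by
      intro g hg i
      by_contra hi
      push Not at hi
      obtain ⟨u, hu, e⟩ := ht (t := t.filter (fun j => ∃ hj : j ∈ t, 0 < g ⟨j, hj⟩))
        (filter_subset _ _)
      obtain ⟨x, hx⟩ := h u hu
      have m : ∀ j : t, 0 < f j x ↔ 0 < g j := by
        intro j
        rw [← hx]
        have := congrArg (fun s => j.1 ∈ s) e
        simp only [mem_inter, mem_filter, j.2, true_and, eq_iff_iff] at this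
        exact this.trans ⟨fun h => h.2, fun h => ⟨trivial, h⟩⟩
      have s0 : ∑ j : t, g j * f j x = 0 := by
        have := congrArg (fun φ : Module.Dual ℝ E => φ x) hg
        simpa using this
      have : 0 < ∑ j : t, g j * f j x := by
        refine sum_pos' (fun j _ => ?_) ⟨i, mem_univ _, mul_pos hi ((m i).2 hi)⟩
        rcases lt_or_ge 0 (g j) with h1 | h1
        · exact (mul_pos h1 ((m j).2 h1)).le
        · exact mul_nonneg_of_nonpos_of_nonpos h1 (not_lt.1 (fun h2 => absurd ((m j).1 h2) (not_lt.2 h1)))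
      linarith
    have li : LinearIndependent ℝ (fun i : t => f i) := by
      rw [Fintype.linearIndependent_iff]
      intro g hg i
      have h1 := key g hg i
      have h2 := key (fun j => - g j) (by
        rw [← neg_eq_zero, ← sum_neg_distrib, ← hg]
        exact sum_congr rfl (fun j _ => by ext x; simp)) i
      linarith
    have := li.fintype_card_le_finrank
    rwa [Fintype.card_coe, Subspace.dual_finrank_eq] at this
  refine (card_le_card_shatterer 𝒜).trans (card_shatterer_le_sum_vcDim.trans ?_)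
  exact sum_le_sum_of_subset (Iic_subset_Iic.2 vc)

theorem sum_choose_le (m d : ℕ) (q : ℝ) (hq : 1 ≤ q) :
    ((∑ k ∈ Iic d, m.choose k : ℕ) : ℝ) ≤ q ^ d * Real.exp (m / q) := by
  have q0 : 0 < q := by linarith
  have h1 : (1 / q + 1) ^ m ≤ Real.exp (m / q) := by
    rw [show (m : ℝ) / q = m * (1 / q) by ring, Real.exp_nat_mul]
    exact pow_le_pow_left₀ (by positivity) (Real.add_one_le_exp _) m
  refine le_trans ?_ (mul_le_mul_of_nonneg_left h1 (by positivity))
  rw [add_pow, mul_sum]
  push_cast
  calc ∑ k ∈ Iic d, (m.choose k : ℝ)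
      = ∑ k ∈ Iic d ∩ range (m + 1), (m.choose k : ℝ) := by
        refine (sum_subset inter_subset_left (fun k h1 h2 => ?_)).symm
        rw [Nat.choose_eq_zero_of_lt (by simp only [mem_inter, mem_range, h1, true_and] at h2; omega)]
        simp
    _ ≤ ∑ k ∈ Iic d ∩ range (m + 1), q ^ d * ((1 / q) ^ k * 1 ^ (m - k) * (m.choose k : ℝ)) := by
        refine sum_le_sum (fun k hk => ?_)
        have hk' : k ≤ d := mem_Iic.1 (mem_inter.1 hk).1
        have : 1 ≤ q ^ d * (1 / q) ^ k := by
          rw [one_div, inv_pow, ← div_eq_mul_inv, le_div_iff₀ (by positivity), one_mul]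
          exact pow_le_pow_right₀ hq hk'
        have c0 : (0 : ℝ) ≤ m.choose k := by positivity
        rw [one_pow, mul_one, ← mul_assoc]
        exact le_mul_of_one_le_left c0 this
    _ ≤ _ := sum_le_sum_of_subset_of_nonneg inter_subset_right (fun _ _ _ => by positivity)

/-- ranks of finitely many reals -/
theorem ranks {ι : Type} [Fintype ι] (f : ι → ℝ) :
    ∃ ρ : ι → Fin (Fintype.card ι), ∀ i j, ρ i < ρ j ↔ f i < f j := by
  classical
  refine ⟨fun i => ⟨(univ.filter (fun j => f j < f i)).card, ?_⟩, fun i j => ?_⟩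
  · exact card_lt_card ⟨subset_univ _, fun h => by simpa using h (mem_univ i)⟩
  · rw [Fin.mk_lt_mk]
    constructor
    · intro h
      by_contra hc
      refine absurd h (not_lt.2 (card_le_card (fun x hx => ?_)))
      simp only [mem_filter, mem_univ, true_and] at hx ⊢
      exact hx.trans_le (not_lt.1 hc)
    · intro h
      refine card_lt_card ⟨fun x hx => ?_, fun hs => ?_⟩
      · simp only [mem_filter, mem_univ, true_and] at hx ⊢
        exact hx.trans h
      · simpa using hs (show i ∈ _ by simpa using h)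

/-- distinct small perturbations -/
theorem perturb (ι : Type) [Fintype ι] : ∃ δ : ι → ℝ, (∀ i, 0 < δ i ∧ δ i < 1) ∧
    ∀ (L : ι → ℤ) (i j : ι), (L i : ℝ) + δ i = L j + δ j → i = j := by
  let e := Fintype.equivFin ι
  have bd : ∀ i, 0 < (((e i).val : ℝ) + 1) / (Fintype.card ι + 1) ∧
      (((e i).val : ℝ) + 1) / (Fintype.card ι + 1) < 1 := by
    intro i
    have : ((e i).val : ℝ) < Fintype.card ι := by exact_mod_cast (e i).2
    exact ⟨by positivity, by rw [div_lt_one (by positivity)]; linarith⟩
  refine ⟨fun i => (((e i).val : ℝ) + 1) / (Fintype.card ι + 1), bd, fun L i j h => ?_⟩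
  have bi := bd i
  have bj := bd j
  have h1 : L i < L j + 1 := by
    have : (L i : ℝ) < L j + 1 := by linarith [bi.1, bj.2]
    exact_mod_cast this
  have h2 : L j < L i + 1 := by
    have : (L j : ℝ) < L i + 1 := by linarith [bi.2, bj.1]
    exact_mod_cast this
  have h3 : L i = L j := by omega
  rw [h3, add_right_inj, div_left_inj' (by positivity), add_left_inj, Nat.cast_inj] at h
  exact e.injective (Fin.ext h)

theorem lt_pert (a b : ℤ) {d : ℝ} (h : 0 < d ∧ d < 1) :
    ((a : ℝ) < b + d ↔ a ≤ b) ∧ ((b : ℝ) + d < a ↔ b < a) := by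
  rcases le_or_gt a b with h1 | h1
  · have : (a : ℝ) ≤ b := by exact_mod_cast h1
    exact ⟨⟨fun _ => h1, fun _ => by linarith [h.1]⟩, ⟨fun h2 => by linarith [h.1], fun h2 => by omega⟩⟩
  · have : (b : ℝ) + 1 ≤ a := by exact_mod_cast h1
    exact ⟨⟨fun h2 => by linarith [h.2], fun h2 => by omega⟩, ⟨fun _ => h1, fun _ => by linarith [h.2]⟩⟩

end Pool.Agent.Lib.helper8.Signs
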