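import Mathlib

set_option autoImplicit false

namespace Pool.Agent.Lib.helper8.Slice

def force {α : Type} (x : ℕ) (k : ℕ → α) : α := Nat.casesOn x (k 0) (fun n => k (n + 1))

theorem force_eq {α : Type} (x : ℕ) (k : ℕ → α) : force x k = k x := by
  cases x <;> rfl

/-- bit `x` of `pat k n` is bit `k` of `x`, for `x < 2 ^ n` -/
def pat (k : ℕ) (n : ℕ) : ℕ :=
  Nat.rec 0 (fun m r => bif Nat.beq k m then (2 ^ (2 ^ m) - 1) <<< (2 ^ m)
    else force r (fun r => r ||| (r <<< (2 ^ m)))) n

theorem pat_succ (k m : ℕ) : pat k (m + 1) = if k = m then (2 ^ (2 ^ m) - 1) <<< (2 ^ m)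
    else pat k m ||| (pat k m <<< (2 ^ m)) := by
  unfold pat
  by_cases h : k = m
  · subst h; simp
  · have : Nat.beq k m = false := by
      cases hb : Nat.beq k m
      · rfl
      · exact absurd (Nat.eq_of_beq_eq_true hb) h
    simp [this, h, force_eq]

theorem pat_testBit (k n x : ℕ) : (pat k n).testBit x = (decide (x < 2 ^ n) && decide (k < n) && x.testBit k) := by
  induction n generalizing x with
  | zero => simp [pat]
  | succ m ih =>
    rw [pat_succ]
    have hp : 2 ^ (m + 1) = 2 ^ m + 2 ^ m := by ring
    split_ifs with h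
    · subst h
      rw [Nat.testBit_shiftLeft, Nat.testBit_two_pow_sub_one]
      by_cases h1 : x < 2 ^ k
      · have : ¬ (x ≥ 2 ^ k) := by omega
        simp [this, Nat.testBit_lt_two_pow h1]
      · by_cases h2 : x < 2 ^ (k + 1)
        · have h3 : x.testBit k = true := Nat.testBit_of_two_pow_le_and_two_pow_add_one_gt (by omega) h2
          have h4 : x - 2 ^ k < 2 ^ k := by omega
          have h5 : x ≥ 2 ^ k := by omega
          simp [h2, h3, h4, h5]
        · have h4 : ¬ (x - 2 ^ k < 2 ^ k) := by omega
          simp [h2, h4]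
    · rw [Nat.testBit_or, Nat.testBit_shiftLeft, ih, ih]
      by_cases hk : k < m
      · have hk' : k < m + 1 := by omega
        by_cases h1 : x < 2 ^ m
        · have : ¬ (x ≥ 2 ^ m) := by omega
          have h2 : x < 2 ^ (m + 1) := by omega
          simp [this, h1, h2, hk, hk']
        · by_cases h2 : x < 2 ^ (m + 1)
          · have h4 : x - 2 ^ m < 2 ^ m := by omega
            have h5 : x ≥ 2 ^ m := by omega
            have h6 : (x - 2 ^ m).testBit k = x.testBit k := by
              have : x = 2 ^ m + (x - 2 ^ m) := by omega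
              conv_rhs => rw [this]
              rw [Nat.testBit_two_pow_add_gt hk]
            simp [h1, h2, h4, h5, h6, hk, hk']
          · have h4 : ¬ (x - 2 ^ m < 2 ^ m) := by omega
            simp [h1, h2, h4]
      · have hk' : ¬ (k < m + 1) := by omega
        simp [hk, hk']

/-- add the bit vector `b` to a bit-sliced counter -/
noncomputable def add (cs : List ℕ) : ℕ → List ℕ :=
  List.rec (fun b => bif Nat.beq b 0 then [] else [b])
    (fun c _ r b => force (c ^^^ b) fun d => force (c &&& b) fun k => d :: r k) cs

/-- value of the counter at position `x` -/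
def val (x : ℕ) (cs : List ℕ) : ℕ :=
  List.rec 0 (fun c _ r => Nat.add (Nat.land (Nat.shiftRight c x) 1) (Nat.mul 2 r)) cs

theorem bit_eq (c x : ℕ) : Nat.land (Nat.shiftRight c x) 1 = (c.testBit x).toNat := by
  show (c >>> x) &&& 1 = _
  rw [Nat.and_one_is_mod, Nat.testBit_eq_decide_div_mod_eq, Nat.shiftRight_eq_div_pow]
  rcases Nat.mod_two_eq_zero_or_one (c / 2 ^ x) with h | h <;> simp [h]

theorem val_cons (x c : ℕ) (cs : List ℕ) : val x (c :: cs) = (c.testBit x).toNat + 2 * val x cs := by
  rw [← bit_eq]; rfl

theorem val_add (x : ℕ) (cs : List ℕ) : ∀ b, val x (add cs b) = val x cs + (b.testBit x).toNat := by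
  induction cs with
  | nil =>
    intro b
    show val x (bif Nat.beq b 0 then [] else [b]) = 0 + _
    cases h : Nat.beq b 0
    · rw [cond_false, val_cons]; simp [val]
    · rw [Nat.eq_of_beq_eq_true h]; simp [val]
  | cons c cs ih =>
    intro b
    have : add (c :: cs) b = (c ^^^ b) :: add cs (c &&& b) := by
      have e : add (c :: cs) b =
        force (c ^^^ b) fun d => force (c &&& b) fun k => d :: add cs k := rfl
      rw [e, force_eq, force_eq]
    rw [this, val_cons, val_cons, ih, Nat.testBit_xor, Nat.testBit_and]
    cases c.testBit x <;> cases b.testBit x <;> simp <;> omega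

/-- bit-sliced count of the vectors `g a`, `a ∈ L` -/
noncomputable def counter (g : ℕ → ℕ) (L : List ℕ) : List ℕ :=
  List.rec [] (fun a _ r => add r (g a)) L

theorem val_counter (g : ℕ → ℕ) (x : ℕ) (L : List ℕ) :
    val x (counter g L) = L.countP (fun a => (g a).testBit x) := by
  induction L with
  | nil => rfl
  | cons a L ih =>
    show val x (add (counter g L) (g a)) = _
    rw [val_add, ih, List.countP_cons]
    cases (g a).testBit x <;> simp

/-- parity of the lowest `n` bits -/
def par (n t : ℕ) : Bool := Nat.rec false (fun i r => xor (t.testBit i) r) n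

/-- bit `x` of `row N n a` is the parity of `x &&& a` -/
def row (N n a : ℕ) : ℕ := Nat.rec 0 (fun i r => bif a.testBit i then pat i N ^^^ r else r) n

theorem row_testBit (N a x : ℕ) (hx : x < 2 ^ N) (n : ℕ) (hn : n ≤ N) :
    (row N n a).testBit x = par n (x &&& a) := by
  induction n with
  | zero => simp [row, par]
  | succ n ih =>
    have e1 : row N (n + 1) a = bif a.testBit n then pat n N ^^^ row N n a else row N n a := rfl
    have e2 : par (n + 1) (x &&& a) = xor ((x &&& a).testBit n) (par n (x &&& a)) := rfl
    have hn' : n < N := hn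
    rw [e1, e2, ← ih hn'.le, Nat.testBit_and]
    cases a.testBit n
    · simp
    · simp [Nat.testBit_xor, pat_testBit, hx, hn']

theorem par_xor (n a b : ℕ) : par n (a ^^^ b) = xor (par n a) (par n b) := by
  induction n with
  | zero => rfl
  | succ n ih =>
    show xor ((a ^^^ b).testBit n) (par n (a ^^^ b)) =
      xor (xor (a.testBit n) (par n a)) (xor (b.testBit n) (par n b))
    rw [ih, Nat.testBit_xor]
    cases a.testBit n <;> cases b.testBit n <;> cases par n a <;> cases par n b <;> rfl

theorem par_zero (n : ℕ) : par n 0 = false := by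
  induction n with
  | zero => rfl
  | succ n ih =>
    show xor (Nat.testBit 0 n) (par n 0) = false
    rw [ih]; simp

theorem par_two_pow (n i : ℕ) : par n (2 ^ i) = decide (i < n) := by
  induction n with
  | zero => simp [par]
  | succ n ih =>
    show xor (Nat.testBit (2 ^ i) n) (par n (2 ^ i)) = _
    rw [ih, Nat.testBit_two_pow]
    rcases lt_trichotomy i n with h | h | h
    · have h1 : ¬ i = n := by omega
      have h2 : i < n + 1 := by omega
      simp [h, h1, h2]
    · subst h; simp
    · have h1 : ¬ i = n := by omega
      have h2 : ¬ i < n + 1 := by omega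
      have h3 : ¬ i < n := by omega
      simp [h1, h2, h3]

end Pool.Agent.Lib.helper8.Slice
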