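import Pool.Agent.Lib.helper8.BetaK

set_option autoImplicit false
open Filter

namespace Pool.Agent.Lib.helper8.BetaK

attribute [local instance] Ultrafilter.add Ultrafilter.addSemigroup

section
variable {H : Type*} [AddSemigroup H]

lemma MinId.linv {e : Ultrafilter H} (he : MinId e) (p : Ultrafilter H) :
    ∃ u, u + (e + p + e) = e ∧ e + u = u ∧ u + e = u := by
  obtain ⟨y, hy⟩ := he.2 (e + p)
  refine ⟨e + y + e, ?_, by simp only [← add_assoc, he.1], by simp only [add_assoc, he.1]⟩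
  calc e + y + e + (e + p + e) = e + (y + (e + e + p + e)) := by simp only [add_assoc]
    _ = e := by rw [he.1, hy, he.1]

lemma MinId.rinv {e : Ultrafilter H} (he : MinId e) (p : Ultrafilter H) :
    ∃ u, (e + p + e) + u = e ∧ e + u = u ∧ u + e = u := by
  obtain ⟨u, h1, h2, h3⟩ := he.linv p
  obtain ⟨v, k1, k2, k3⟩ := he.linv u
  rw [h2, h3] at k1
  refine ⟨u, ?_, h2, h3⟩
  have : e + p + e = v := by
    calc e + p + e = (v + u) + (e + p + e) := by rw [k1]; simp only [← add_assoc, he.1]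
      _ = v := by rw [add_assoc, h1, k3]
  rw [this, k1]

lemma MinId.solve {e : Ultrafilter H} (he : MinId e) (p q : Ultrafilter H) :
    ∃ x, e + p + x + q + e = e := by
  obtain ⟨u, h1, h2, -⟩ := he.rinv p
  obtain ⟨v, k1, -, k3⟩ := he.linv q
  refine ⟨u + v, ?_⟩
  calc e + p + (u + v) + q + e = e + p + ((e + u) + (v + e)) + q + e := by rw [h2, k3]
    _ = (e + p + e + u) + (v + (e + q + e)) := by simp only [add_assoc]
    _ = e := by rw [h1, k1, he.1]

end

section
variable {G ι : Type*} [AddCommGroup G]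

/-- the letter in direction `l`. -/
def Lt (e : Ultrafilter ℤ) (l : G) : Ultrafilter G := e.map (· • l)

lemma map_Lt (e : Ultrafilter ℤ) (l : G) (f : G →+ ℤ) : (Lt e l).map f = sc (f l) e := by
  unfold Lt sc
  rw [Ultrafilter.map_map]
  congr 1
  funext z
  simp [mul_comm]

lemma hom_add (f : G →+ ℤ) (p q : Ultrafilter G) : (p + q).map f = p.map f + q.map f :=
  map_add f f.map_add p q

lemma siminv (φ : ι → G →+ ℤ) (E : ι → Ultrafilter ℤ) (hE : ∀ i, MinId (E i))
    (b : Ultrafilter G) (hb : ∀ i, b.map (φ i) = E i) (p : Ultrafilter G) :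
    ∃ u : Ultrafilter G, ∀ i, u.map (φ i) + (E i + p.map (φ i) + E i) = E i ∧
      E i + u.map (φ i) = u.map (φ i) ∧ u.map (φ i) + E i = u.map (φ i) := by
  obtain ⟨_, ⟨w, rfl⟩, hg⟩ := exists_idempotent_in_compact_add_subsemigroup
    (M := Ultrafilter G) Ultrafilter.continuous_add_left (Set.range (· + (b + p + b)))
    ⟨_, b, rfl⟩ (isCompact_range (Ultrafilter.continuous_add_left _))
    (by
      rintro x - _ ⟨y, rfl⟩
      exact ⟨x + y, add_assoc _ _ _⟩)
  refine ⟨b + w + b, fun i => ?_⟩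
  have h3 : (w + (b + p + b)).map (φ i) + (w + (b + p + b)).map (φ i)
      = (w + (b + p + b)).map (φ i) := by
    rw [← hom_add]; exact congrArg _ hg
  have h4 := (hE i).absorb (x := w.map (φ i) + E i + p.map (φ i)) h3
    (by simp only [hom_add, hb, add_assoc])
  simp only [hom_add, hb] at h4 ⊢
  refine ⟨?_, by simp only [← add_assoc, (hE i).1], by simp only [add_assoc, (hE i).1]⟩
  calc E i + w.map (φ i) + E i + (E i + p.map (φ i) + E i)
      = E i + (w.map (φ i) + (E i + E i + p.map (φ i) + E i)) := by simp only [add_assoc]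
    _ = E i := by rw [(hE i).1, h4]

lemma single (φ : ι → G →+ ℤ) (E : ι → Ultrafilter ℤ) (hE : ∀ i, MinId (E i))
    (b : Ultrafilter G) (hb : ∀ i, b.map (φ i) = E i) (k : ι) (z : Ultrafilter G)
    (hz0 : z.map (φ k) = pure 0) (hz : ∀ i, i ≠ k → MinId (z.map (φ i))) (g : Ultrafilter G)
    (hg : g.map (φ k) + g.map (φ k) = g.map (φ k)) :
    ∃ w : Ultrafilter G, (∀ i, i ≠ k → w.map (φ i) = E i) ∧
      w.map (φ k) = E k + g.map (φ k) + E k := by
  obtain ⟨a, ha⟩ := siminv φ E hE b hb z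
  obtain ⟨c, hc⟩ := siminv φ E hE b hb (g + z + g)
  refine ⟨c + (b + g + z + b) + a + (b + z + g + b), fun i hi => ?_, ?_⟩
  · have hs := (hz i hi).sandwich (ha i).1 (ha i).2.1 (ha i).2.2
    have h1 := (hc i).1
    simp only [hom_add, hb] at h1 ⊢
    calc c.map (φ i) + (E i + g.map (φ i) + z.map (φ i) + E i) + a.map (φ i)
          + (E i + z.map (φ i) + g.map (φ i) + E i)
        = c.map (φ i) + (E i + g.map (φ i) + (z.map (φ i) + ((E i + a.map (φ i)) + E i)
          + z.map (φ i)) + g.map (φ i) + E i) := by simp only [add_assoc]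
      _ = E i := by
        rw [(ha i).2.1, (ha i).2.2, hs]
        simpa only [add_assoc] using h1
  · have h1 := (hc k).1
    have h2 := (ha k).1
    simp only [hom_add, hb, hz0, add_zero'] at h1 h2 ⊢
    rw [(hE k).1, (ha k).2.2] at h2
    rw [h2]
    rw [hg] at h1
    rw [h1, (hE k).1]
    simp only [← add_assoc, (hE k).1]

/-- elements that are trivial in all coordinates but one. -/
def Sing (φ : ι → G →+ ℤ) (E : ι → Ultrafilter ℤ) (k : ι) (x : Ultrafilter ℤ) : Prop :=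
  (∃ w : Ultrafilter G, (∀ i, i ≠ k → w.map (φ i) = E i) ∧ w.map (φ k) = x) ∧
    E k + x = x ∧ x + E k = x

lemma Sing.add {φ : ι → G →+ ℤ} {E : ι → Ultrafilter ℤ} (hE : ∀ i, MinId (E i)) {k : ι}
    {x y : Ultrafilter ℤ} (hx : Sing φ E k x) (hy : Sing φ E k y) : Sing φ E k (x + y) := by
  obtain ⟨⟨w, h1, h2⟩, h3, -⟩ := hx
  obtain ⟨⟨v, k1, k2⟩, -, k4⟩ := hy
  refine ⟨⟨w + v, fun i hi => ?_, ?_⟩, by rw [← add_assoc, h3], by rw [add_assoc, k4]⟩
  · rw [hom_add, h1 i hi, k1 i hi, (hE i).1]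
  · rw [hom_add, h2, k2]

lemma Sing.inv {φ : ι → G →+ ℤ} {E : ι → Ultrafilter ℤ} (hE : ∀ i, MinId (E i))
    (b : Ultrafilter G) (hb : ∀ i, b.map (φ i) = E i) {k : ι}
    {x : Ultrafilter ℤ} (hx : Sing φ E k x) : ∃ u, Sing φ E k u ∧ u + x = E k := by
  obtain ⟨⟨w, h1, h2⟩, h3, h4⟩ := hx
  obtain ⟨u, hu⟩ := siminv φ E hE b hb w
  refine ⟨u.map (φ k), ⟨⟨u, fun i hi => ?_, rfl⟩, (hu k).2⟩, ?_⟩
  · have := (hu i).1
    rw [h1 i hi, (hE i).1, (hE i).1, (hu i).2.2] at this
    exact this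
  · have := (hu k).1
    rwa [h2, h3, h4] at this

lemma Sing.idem {φ : ι → G →+ ℤ} {E : ι → Ultrafilter ℤ} (hE : ∀ i, MinId (E i))
    (b : Ultrafilter G) (hb : ∀ i, b.map (φ i) = E i) (k : ι) (z : Ultrafilter G)
    (hz0 : z.map (φ k) = pure 0) (hz : ∀ i, i ≠ k → MinId (z.map (φ i))) (g : Ultrafilter G)
    (hg : g.map (φ k) + g.map (φ k) = g.map (φ k)) : Sing φ E k (E k + g.map (φ k) + E k) :=
  ⟨single φ E hE b hb k z hz0 hz g hg, by simp only [← add_assoc, (hE k).1],
    by simp only [add_assoc, (hE k).1]⟩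

end

/-- running a finite automaton along a generic sequence. -/
theorem automaton {G S T : Type*} (w : Ultrafilter G) (A : Finset (S × T × S))
    (f : T → G → ℤ) (P : S → ℤ → Prop)
    (h : ∀ t ∈ A, ∀ d, P t.1 d → ∀ᶠ x in (w : Filter G), P t.2.2 (d + f t.2.1 x))
    (R : G → G → Prop) (hR : ∀ x, ∀ᶠ y in (w : Filter G), R x y) (s0 : S) (h0 : P s0 0) :
    ∃ x : ℕ → G, (∀ n, R (x n) (x (n + 1))) ∧ ∀ (s : ℕ → S) (t : ℕ → T) (n : ℕ), s 0 = s0 →
      (∀ j < n, (s j, t j, s (j + 1)) ∈ A) → P (s n) (∑ j ∈ Finset.range n, f (t j) (x j)) := by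
  classical
  obtain ⟨g0⟩ : Nonempty G := ⟨(Filter.nonempty_of_mem (w.univ_mem)).some⟩
  let St := {D : Finset (S × ℤ) // ∀ p ∈ D, P p.1 p.2} × G
  have step : ∀ D : St, ∃ x : G, R D.2 x ∧ ∀ t ∈ A, ∀ p ∈ D.1.1, p.1 = t.1 →
      P t.2.2 (p.2 + f t.2.1 x) := by
    intro D
    refine ((hR D.2).and ?_).exists
    rw [eventually_all_finset]
    intro t ht
    rw [eventually_all_finset]
    intro p hp
    by_cases hpt : p.1 = t.1
    · filter_upwards [h t ht p.2 (hpt ▸ D.1.2 p hp)] with x hx _ using hx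
    · exact Eventually.of_forall fun x hx => absurd hx hpt
  choose x hx using step
  let nx : St → St := fun D =>
    (⟨((A ×ˢ D.1.1).filter fun q => q.2.1 = q.1.1).image
        fun q => (q.1.2.2, q.2.2 + f q.1.2.1 (x D)), by
      intro p hp
      simp only [Finset.mem_image, Finset.mem_filter, Finset.mem_product] at hp
      obtain ⟨q, ⟨⟨h1, h2⟩, h3⟩, rfl⟩ := hp
      exact (hx D).2 _ h1 _ h2 h3⟩, x D)
  let g : ℕ → St := fun n => nx^[n] (⟨{(s0, 0)}, by simpa using h0⟩, g0)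
  have hg : ∀ n, g (n + 1) = nx (g n) := fun n => Function.iterate_succ_apply' nx n _
  refine ⟨fun n => x (g n), fun n => ?_, fun s t n hs0 hA => ?_⟩
  · have := (hx (g (n + 1))).1
    rwa [show (g (n + 1)).2 = x (g n) by rw [hg]] at this
  · have key : ∀ m ≤ n, (s m, ∑ j ∈ Finset.range m, f (t j) (x (g j))) ∈ (g m).1.1 := by
      intro m
      induction m with
      | zero => intro _; simp [g, hs0]
      | succ m ih =>
        intro hm
        rw [hg, Finset.sum_range_succ]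
        simp only [nx, Finset.mem_image, Finset.mem_filter, Finset.mem_product]
        exact ⟨((s m, t m, s (m + 1)), _), ⟨⟨hA m (by omega), ih (by omega)⟩, rfl⟩, rfl⟩
    exact (g n).1.2 _ (key n le_rfl)

end Pool.Agent.Lib.helper8.BetaK
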